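import Mathlib

/-!
Mahler exponents, T-numbers, digits and normality, as in the problem file of MP_0496af_nt.
-/

set_option autoImplicit false

namespace Pool.Agent.Lib.MP_0496af_nt

open Polynomial Filter Topology

/-- The naive height: the maximum absolute value of the coefficients. -/
def height (P : ℤ[X]) : ℕ := P.support.sup (fun i => (P.coeff i).natAbs)

/-- The exponent `w_n(ξ)`, an extended real number. -/
noncomputable def wExp (n : ℕ) (ξ : ℝ) : EReal :=
  sSup ((fun w : ℝ => (w : EReal)) '' {w : ℝ | Set.Infinite {P : ℤ[X] | P.natDegree ≤ n ∧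
    0 < |aeval ξ P| ∧ |aeval ξ P| ≤ (height P : ℝ) ^ (-w)}})

/-- The exponent `w(ξ) = limsup w_n(ξ) / n`. -/
noncomputable def wMahler (ξ : ℝ) : EReal :=
  limsup (fun n : ℕ => wExp n ξ / (n : EReal)) atTop

/-- T-numbers in the classification of Mahler. -/
def IsTNumber (ξ : ℝ) : Prop :=
  Transcendental ℚ ξ ∧ wMahler ξ = ⊤ ∧ ∀ n : ℕ, 1 ≤ n → wExp n ξ < ⊤

/-- The digit in place `j + 1` of the base `b` expansion of the fractional part of `ξ`. -/
noncomputable def digit (b : ℕ) (ξ : ℝ) (j : ℕ) : ℤ := ⌊Int.fract ξ * (b : ℝ) ^ (j + 1)⌋ % (b : ℤ)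

/-- Every digit occurs with asymptotic frequency `1 / b`. -/
def SimplyNormal (b : ℕ) (ξ : ℝ) : Prop :=
  ∀ d : ℕ, d < b → Tendsto
    (fun N : ℕ => (((Finset.range N).filter (fun j => digit b ξ j = (d : ℤ))).card : ℝ) / (N : ℝ))
    atTop (𝓝 (1 / (b : ℝ)))

/-- Every block of `k` digits occurs with asymptotic frequency `1 / b ^ k`. -/
def NormalInBase (b : ℕ) (ξ : ℝ) : Prop :=
  ∀ k : ℕ, 1 ≤ k → ∀ d : Fin k → Fin b, Tendsto
    (fun N : ℕ => (((Finset.range N).filter
      (fun j => ∀ i : Fin k, digit b ξ (j + i) = ((d i : ℕ) : ℤ))).card : ℝ) / (N : ℝ))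
    atTop (𝓝 (1 / (b : ℝ) ^ k))

end Pool.Agent.Lib.MP_0496af_nt
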