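import Mathlib

/-!
Divided differences of the exponential function and of powers; integrality of the weights
for nodes in an arithmetic progression.
-/

set_option autoImplicit false

namespace Pool.Agent.Lib.MP_0496af_nt

open Finset Polynomial
open scoped Nat

theorem moment_zero {ι : Type*} [DecidableEq ι] (s : Finset ι) (v : ι → ℝ) (hv : Set.InjOn v s)
    (m : ℕ) (hm : m + 1 < s.card) :
    ∑ i ∈ s, v i ^ m / ∏ j ∈ s.erase i, (v i - v j) = 0 := by
  have h := Lagrange.coeff_eq_sum hv (P := (X : ℝ[X]) ^ m) (by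
    rw [degree_X_pow]; exact_mod_cast (by omega : m < s.card))
  rw [coeff_X_pow, if_neg (by omega)] at h
  simpa using h.symm

theorem exp_sum_bound {ι : Type*} [DecidableEq ι] (v : ι → ℝ) (Λ : ℝ) (k : ℕ) :
    ∀ (s : Finset ι), s.card = k + 1 → Set.InjOn v s → (∀ i ∈ s, v i ≤ Λ) → ∀ t : ℝ, 0 ≤ t →
    |∑ i ∈ s, Real.exp (v i * t) / ∏ j ∈ s.erase i, (v i - v j)|
      ≤ t ^ k * Real.exp (Λ * t) / (k ! : ℝ) := by
  induction k with
  | zero =>
    intro s hs _ hΛ t ht
    obtain ⟨i, rfl⟩ := card_eq_one.1 hs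
    simp only [sum_singleton, erase_singleton, prod_empty, div_one, pow_zero, one_mul,
      Nat.factorial_zero, Nat.cast_one]
    rw [abs_of_pos (Real.exp_pos _)]
    exact Real.exp_le_exp.2 (mul_le_mul_of_nonneg_right (hΛ i (by simp)) ht)
  | succ k ih =>
    intro s hs hv hΛ t ht
    obtain ⟨l, hl⟩ : s.Nonempty := card_pos.1 (by omega)
    have hcard : (s.erase l).card = k + 1 := by rw [card_erase_of_mem hl, hs]; rfl
    have hsub : s.erase l ⊆ s := erase_subset _ _
    have ih' := ih (s.erase l) hcard (hv.mono (by exact_mod_cast hsub))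
      (fun i hi => hΛ i (hsub hi))
    let f : ℝ → ℝ := fun u => ∑ i ∈ s, Real.exp ((v i - v l) * u) / ∏ j ∈ s.erase i, (v i - v j)
    let f' : ℝ → ℝ := fun u => Real.exp (-(v l) * u) *
      ∑ i ∈ s.erase l, Real.exp (v i * u) / ∏ j ∈ (s.erase l).erase i, (v i - v j)
    have hf0 : f 0 = 0 := by
      have := moment_zero s v hv 0 (by omega)
      simpa [f] using this
    have hder : ∀ u, HasDerivAt f (f' u) u := by
      intro u
      have h1 : HasDerivAt f (∑ i ∈ s, Real.exp ((v i - v l) * u) * (v i - v l)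
          / ∏ j ∈ s.erase i, (v i - v j)) u := by
        apply HasDerivAt.fun_sum
        intro i _
        apply HasDerivAt.div_const
        have : HasDerivAt (fun u => (v i - v l) * u) (v i - v l) u := by
          simpa using (hasDerivAt_id u).const_mul (v i - v l)
        exact this.exp
      have h2 : (∑ i ∈ s, Real.exp ((v i - v l) * u) * (v i - v l)
          / ∏ j ∈ s.erase i, (v i - v j)) = f' u := by
        simp only [f']
        rw [← add_sum_erase s _ hl, mul_sum]
        simp only [sub_self, mul_zero, zero_div, zero_add]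
        refine sum_congr rfl fun i hi => ?_
        have hil : i ≠ l := ne_of_mem_erase hi
        have his : i ∈ s := mem_of_mem_erase hi
        have hne : v i - v l ≠ 0 := sub_ne_zero.2 fun h => hil (hv his hl h)
        have hl' : l ∈ s.erase i := mem_erase.2 ⟨hil.symm, hl⟩
        rw [← mul_prod_erase _ _ hl', erase_right_comm, sub_mul, Real.exp_sub, neg_mul,
          Real.exp_neg]
        have := Real.exp_pos (v l * u)
        field_simp
      rwa [h2] at h1
    have hcont : Continuous f' := by
      simp only [f']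
      fun_prop
    have hint : ∫ u in (0 : ℝ)..t, f' u = f t - f 0 :=
      intervalIntegral.integral_eq_sub_of_hasDerivAt (fun u _ => hder u)
        (hcont.intervalIntegrable _ _)
    have hbound : ∀ u ∈ Set.Ioc (0 : ℝ) t,
        ‖f' u‖ ≤ Real.exp ((Λ - v l) * t) / (k ! : ℝ) * u ^ k := by
      intro u hu
      simp only [f', Real.norm_eq_abs, abs_mul]
      rw [abs_of_pos (Real.exp_pos _)]
      calc Real.exp (-(v l) * u) * |∑ i ∈ s.erase l, Real.exp (v i * u) /
            ∏ j ∈ (s.erase l).erase i, (v i - v j)|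
          ≤ Real.exp (-(v l) * u) * (u ^ k * Real.exp (Λ * u) / (k ! : ℝ)) :=
            mul_le_mul_of_nonneg_left (ih' u hu.1.le) (Real.exp_pos _).le
        _ = Real.exp ((Λ - v l) * u) / (k ! : ℝ) * u ^ k := by
            rw [show (Λ - v l) * u = -(v l) * u + Λ * u by ring, Real.exp_add]; ring
        _ ≤ Real.exp ((Λ - v l) * t) / (k ! : ℝ) * u ^ k := by
            have h1 : 0 ≤ Λ - v l := sub_nonneg.2 (hΛ l hl)
            have h2 := hu.1.le
            gcongr
            exact hu.2
    have hI : ‖∫ u in (0 : ℝ)..t, f' u‖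
        ≤ ∫ u in (0 : ℝ)..t, Real.exp ((Λ - v l) * t) / (k ! : ℝ) * u ^ k := by
      apply intervalIntegral.norm_integral_le_of_norm_le ht
      · exact Filter.Eventually.of_forall fun u hu => hbound u hu
      · exact (by fun_prop : Continuous fun u : ℝ =>
          Real.exp ((Λ - v l) * t) / (k ! : ℝ) * u ^ k).intervalIntegrable _ _
    rw [hint, hf0, sub_zero, intervalIntegral.integral_const_mul, integral_pow,
      Real.norm_eq_abs] at hI
    have hft : ∑ i ∈ s, Real.exp (v i * t) / ∏ j ∈ s.erase i, (v i - v j)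
        = Real.exp (v l * t) * f t := by
      simp only [f]
      rw [mul_sum]
      refine sum_congr rfl fun i _ => ?_
      rw [← mul_div_assoc, ← Real.exp_add]
      congr 2
      ring
    rw [hft, abs_mul, abs_of_pos (Real.exp_pos _)]
    calc Real.exp (v l * t) * |f t|
        ≤ Real.exp (v l * t) * (Real.exp ((Λ - v l) * t) / (k ! : ℝ) *
          ((t ^ (k + 1) - 0 ^ (k + 1)) / (k + 1))) :=
          mul_le_mul_of_nonneg_left hI (Real.exp_pos _).le
      _ = t ^ (k + 1) * Real.exp (Λ * t) / ((k + 1)! : ℝ) := by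
          rw [show Λ * t = v l * t + (Λ - v l) * t by ring, Real.exp_add, Nat.factorial_succ]
          push_cast
          have : (k ! : ℝ) ≠ 0 := by positivity
          field_simp
          ring

/-- Nodes in an arithmetic progression, evaluation point outside. -/
theorem ap_cofactor (L d x : ℤ) (r : ℕ) : ∀ j : ℤ,
    (∀ h : ℕ, h ≤ r → x - (j + d * h) ≠ 0 ∧ x - (j + d * h) ∣ L) →
    ∃ z : ℤ, z * ∏ h ∈ range (r + 1), (x - (j + d * h)) = L * d ^ r * r ! ∧ |z| ≤ 2 ^ r * |L| := by
  induction r with
  | zero =>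
    intro j hj
    obtain ⟨h1, z, hz⟩ := hj 0 le_rfl
    refine ⟨z, ?_, ?_⟩
    · simp [hz, mul_comm]
    · rw [hz, abs_mul, pow_zero, one_mul]
      exact le_mul_of_one_le_left (abs_nonneg _) (Int.one_le_abs h1)
  | succ r ih =>
    intro j hj
    obtain ⟨z1, h1, b1⟩ := ih j fun h hh => hj h (by omega)
    obtain ⟨z2, h2, b2⟩ := ih (j + d) fun h hh => by
      have := hj (h + 1) (by omega)
      push_cast at this
      rwa [show j + d + d * h = j + d * (h + 1) by ring]
    refine ⟨z2 - z1, ?_, ?_⟩
    · have e1 : ∏ h ∈ range (r + 1 + 1), (x - (j + d * h))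
          = (∏ h ∈ range (r + 1), (x - (j + d * h))) * (x - (j + d * (r + 1))) := by
        rw [prod_range_succ]; push_cast; ring
      have e2 : ∏ h ∈ range (r + 1 + 1), (x - (j + d * h))
          = (∏ h ∈ range (r + 1), (x - (j + d + d * h))) * (x - j) := by
        rw [prod_range_succ']
        congr 1
        · refine prod_congr rfl fun h _ => ?_
          push_cast; ring
        · simp
      rw [sub_mul]
      nth_rewrite 1 [e2]
      rw [e1, ← mul_assoc, ← mul_assoc, h1, h2, Nat.factorial_succ]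
      push_cast
      ring
    · calc |z2 - z1| ≤ |z2| + |z1| := abs_sub _ _
        _ ≤ 2 ^ r * |L| + 2 ^ r * |L| := add_le_add b2 b1
        _ = 2 ^ (r + 1) * |L| := by ring

theorem prod_erase_range (h t : ℕ) :
    ∏ k ∈ (range (h + 1 + t)).erase h, ((h : ℤ) - k) = (-1) ^ t * h ! * t ! := by
  induction t with
  | zero =>
    rw [add_zero, range_add_one, erase_insert (by simp)]
    simp only [pow_zero, one_mul, Nat.factorial_zero, Nat.cast_one, mul_one]
    rw [← prod_range_reflect, ← Finset.prod_range_add_one_eq_factorial]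
    push_cast
    refine prod_congr rfl fun k hk => ?_
    have := mem_range.1 hk
    rw [Nat.cast_sub (by omega), Nat.cast_sub (by omega)]
    push_cast
    ring
  | succ t ih =>
    rw [← add_assoc, range_add_one, erase_insert_of_ne (by omega), prod_insert (by simp), ih,
      Nat.factorial_succ]
    push_cast
    ring

/-- Nodes in an arithmetic progression, evaluation point one of the nodes. -/
theorem ap_cofactor_self (L d j : ℤ) (r h : ℕ) (hh : h ≤ r) :
    ∃ z : ℤ, z * ∏ k ∈ (range (r + 1)).erase h, (j + d * h - (j + d * k)) = L * d ^ r * r !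
      ∧ |z| ≤ 2 ^ r * |L| := by
  obtain ⟨t, rfl⟩ := Nat.exists_eq_add_of_le hh
  have e1 : ∏ k ∈ (range (h + t + 1)).erase h, (j + d * h - (j + d * k))
      = d ^ (h + t) * ((-1) ^ t * h ! * t !) := by
    rw [← prod_erase_range, show h + 1 + t = h + t + 1 by ring]
    have hc : ((range (h + t + 1)).erase h).card = h + t := by
      rw [card_erase_of_mem (by simp)]; simp
    have hd : d ^ (h + t) = ∏ _k ∈ (range (h + t + 1)).erase h, d := by rw [prod_const, hc]
    rw [hd, ← prod_mul_distrib]
    refine prod_congr rfl fun k _ => ?_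
    ring
  refine ⟨(-1) ^ t * L * ((h + t).choose h), ?_, ?_⟩
  · rw [e1, ← Nat.add_choose_mul_factorial_mul_factorial, Nat.choose_symm_add]
    push_cast
    have : ((-1 : ℤ) ^ t) * (-1) ^ t = 1 := by rw [← mul_pow]; simp
    linear_combination (L * ((h + t).choose t) * d ^ (h + t) * h ! * t !) * this
  · rw [abs_mul, abs_mul, abs_pow, abs_neg, abs_one, one_pow, one_mul, mul_comm]
    apply mul_le_mul_of_nonneg_right _ (abs_nonneg _)
    rw [abs_of_nonneg (by positivity)]
    exact_mod_cast Nat.choose_le_two_pow _ _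

theorem lcmUpto_le (m : ℕ) : (Nat.lcmUpto m : ℝ) ≤ 256 ^ m := by
  have h1 := Chebyshev.psi_le_const_mul_self (x := (m : ℝ)) (by positivity)
  rw [Chebyshev.psi_eq_log_lcmUpto] at h1
  have hpos : (0 : ℝ) < Nat.lcmUpto m := by exact_mod_cast Nat.lcmUpto_pos m
  rw [Real.log_le_iff_le_exp hpos, mul_comm, Real.exp_nat_mul] at h1
  refine h1.trans (pow_le_pow_left₀ (Real.exp_pos _).le ?_ m)
  rw [Real.exp_add, Real.exp_log (by norm_num)]
  have h2 : Real.exp 4 = Real.exp 1 ^ 4 := by rw [← Real.exp_nat_mul]; norm_num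
  have h3 := Real.exp_one_lt_d9
  have h4 : Real.exp 1 ^ 4 ≤ (2.8 : ℝ) ^ 4 :=
    pow_le_pow_left₀ (Real.exp_pos _).le (by linarith) 4
  rw [h2]
  nlinarith

theorem dvd_lcmUpto (m : ℕ) (x : ℤ) (h0 : x ≠ 0) (hx : |x| ≤ m) : x ∣ (Nat.lcmUpto m : ℤ) := by
  rw [← Int.natAbs_dvd, Int.natCast_dvd_natCast]
  unfold Nat.lcmUpto
  refine Finset.dvd_lcm (f := id) (b := x.natAbs) ?_
  rw [mem_Icc]
  constructor
  · exact Int.natAbs_pos.2 h0
  · rw [← Int.natCast_natAbs] at hx
    exact_mod_cast hx

end Pool.Agent.Lib.MP_0496af_nt
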