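import Mathlib
import Pool.Agent.Lib.MP_0496af_nt.ExpSum

/-!
Explicit type I Hermite-Pade approximants for the powers of a d-th root of (a+1)/a.
-/

set_option autoImplicit false

namespace Pool.Agent.Lib.MP_0496af_nt

open Finset Polynomial
open scoped Nat

theorem eq_zero_of_moments {ι : Type*} [DecidableEq ι] (s : Finset ι) (x e : ι → ℝ)
    (hx : Set.InjOn x s) (h : ∀ m < s.card, ∑ i ∈ s, e i * x i ^ m = 0) : ∀ i ∈ s, e i = 0 := by
  intro i hi
  let q : ℝ[X] := ∏ j ∈ s.erase i, (X - C (x j))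
  have hq : q.natDegree < s.card := by
    have : q.natDegree = (s.erase i).card := by
      simp only [q]
      rw [natDegree_prod_of_monic _ _ (fun j _ => monic_X_sub_C _)]
      simp
    rw [this, card_erase_of_mem hi]
    have := card_pos.2 ⟨i, hi⟩
    omega
  have h1 : ∑ j ∈ s, e j * q.eval (x j) = 0 := by
    simp_rw [eval_eq_sum_range' hq, mul_sum]
    rw [sum_comm]
    refine sum_eq_zero fun m hm => ?_
    have := h m (mem_range.1 hm)
    calc ∑ j ∈ s, e j * (q.coeff m * x j ^ m) = q.coeff m * ∑ j ∈ s, e j * x j ^ m := by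
          rw [mul_sum]; exact sum_congr rfl fun j _ => by ring
      _ = 0 := by rw [this, mul_zero]
  rw [sum_eq_single i] at h1
  · have h2 : q.eval (x i) ≠ 0 := by
      simp only [q, eval_prod, eval_sub, eval_X, eval_C]
      rw [prod_ne_zero_iff]
      intro j hj
      exact sub_ne_zero.2 fun h => (ne_of_mem_erase hj) (hx (mem_of_mem_erase hj) hi h.symm)
    exact (mul_eq_zero.1 h1).resolve_right h2
  · intro j hj hji
    have : q.eval (x j) = 0 := by
      simp only [q, eval_prod, eval_sub, eval_X, eval_C]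
      exact prod_eq_zero (mem_erase.2 ⟨hji, hj⟩) (sub_self _)
    rw [this, mul_zero]
  · intro h; exact absurd hi h

theorem indep_core {κ : Type*} [Fintype κ] [DecidableEq κ] (r : ℕ) (y d : ℝ) (hy0 : y ≠ 0)
    (hy1 : y ≠ 1) (x0 : κ → ℝ) (c : κ → ℕ → ℝ)
    (hinj : Function.Injective fun μ : κ × ℕ => x0 μ.1 + d * μ.2)
    (h1 : ∀ j, ∑ h ∈ range (r + 2), c j h * y ^ h = 0)
    (h2 : ∀ m < Fintype.card κ * (r + 1),
      ∑ j, ∑ h ∈ range (r + 2), c j h * (x0 j + d * h) ^ m = 0) (j : κ) : c j (r + 1) = 0 := by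
  let e : κ → ℕ → ℝ := fun j h => -(∑ k ∈ range (h + 1), c j k * y ^ k) / y ^ (h + 1)
  have e0 : ∀ j, c j 0 = -y * e j 0 := by
    intro j; simp only [e]; simp; field_simp
  have es : ∀ j h, c j (h + 1) = e j h - y * e j (h + 1) := by
    intro j h
    simp only [e]
    rw [sum_range_succ _ (h + 1)]
    field_simp
    ring
  have et : ∀ j, e j (r + 1) = 0 := by
    intro j; simp only [e]; rw [h1 j]; simp
  have key : ∀ j (f : ℕ → ℝ), ∑ h ∈ range (r + 2), c j h * f h
      = ∑ h ∈ range (r + 1), e j h * (f (h + 1) - y * f h) := by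
    intro j f
    have a1 : ∑ h ∈ range (r + 2), e j h * f h = ∑ h ∈ range (r + 1), e j h * f h := by
      rw [sum_range_succ, et, zero_mul, add_zero]
    have a2 := sum_range_succ' (fun h => e j h * f h) (r + 1)
    rw [sum_range_succ', e0]
    simp_rw [es, sub_mul, mul_sub, sum_sub_distrib]
    have a3 : ∑ h ∈ range (r + 1), y * e j (h + 1) * f (h + 1)
        = y * ∑ h ∈ range (r + 1), e j (h + 1) * f (h + 1) := by
      rw [mul_sum]; exact sum_congr rfl fun h _ => by ring
    have a4 : ∑ h ∈ range (r + 1), e j h * (y * f h) = y * ∑ h ∈ range (r + 1), e j h * f h := by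
      rw [mul_sum]; exact sum_congr rfl fun h _ => by ring
    rw [a3, a4, ← a1, a2]
    ring
  let M : ℕ → ℝ := fun m => ∑ j, ∑ h ∈ range (r + 1), e j h * (x0 j + d * h) ^ m
  have hM : ∀ m, m < Fintype.card κ * (r + 1) → M m = 0 := by
    intro m
    induction m using Nat.strong_induction_on with
    | _ m ih =>
      intro hm
      have h3 := h2 m hm
      simp_rw [key] at h3
      have h4 : ∑ j, ∑ h ∈ range (r + 1), e j h *
          ((x0 j + d * ((h + 1 : ℕ) : ℝ)) ^ m - y * (x0 j + d * h) ^ m)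
          = (∑ l ∈ range (m + 1), M l * (d ^ (m - l) * (m.choose l))) - y * M m := by
        simp only [M]
        simp_rw [sum_mul, mul_sum]
        rw [sum_comm (s := range (m + 1)), ← sum_sub_distrib]
        refine sum_congr rfl fun j _ => ?_
        rw [sum_comm (s := range (m + 1)), ← sum_sub_distrib]
        refine sum_congr rfl fun h _ => ?_
        rw [show x0 j + d * ((h + 1 : ℕ) : ℝ) = (x0 j + d * h) + d by push_cast; ring, add_pow,
          mul_sub, mul_sum]
        congr 1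
        · exact sum_congr rfl fun l _ => by ring
        · ring
      rw [h4, sum_range_succ, sum_eq_zero] at h3
      · simp only [Nat.sub_self, pow_zero, Nat.choose_self, Nat.cast_one, mul_one, zero_add] at h3
        have : (1 - y) * M m = 0 := by linarith
        exact (mul_eq_zero.1 this).resolve_left (sub_ne_zero.2 hy1.symm)
      · intro l hl
        have hl' := mem_range.1 hl
        rw [ih l hl' (by omega), zero_mul]
  have hz := eq_zero_of_moments (univ ×ˢ range (r + 1)) (fun μ : κ × ℕ => x0 μ.1 + d * μ.2)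
    (fun μ => e μ.1 μ.2) hinj.injOn (by
      intro m hm
      rw [card_product, card_univ, card_range] at hm
      rw [sum_product]
      exact hM m hm)
  have := hz (j, r) (by simp)
  simp only at this
  rw [es, this, et]
  simp

/-- The integer nodes. -/
def node (d n : ℕ) (μ : Fin (n + 1) × ℕ) : ℤ := (μ.1 : ℕ) + (d : ℤ) * μ.2

theorem node_inj (d n : ℕ) (hn : n < d) : Function.Injective (node d n) := by
  rintro ⟨j, h⟩ ⟨j', h'⟩ e
  simp only [node] at e
  have e' : (j : ℕ) + d * h = j' + d * h' := by exact_mod_cast e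
  have hj := j.2
  have hj' := j'.2
  have m1 : ((j : ℕ) + d * h) % d = j := by
    rw [Nat.add_mul_mod_self_left, Nat.mod_eq_of_lt (by omega)]
  have m2 : ((j' : ℕ) + d * h') % d = j' := by
    rw [Nat.add_mul_mod_self_left, Nat.mod_eq_of_lt (by omega)]
  have hjj : (j : ℕ) = j' := by rw [← m1, e', m2]
  have : d * h = d * h' := by omega
  have hh : h = h' := Nat.eq_of_mul_eq_mul_left (by omega) this
  rw [Fin.ext hjj, hh]

theorem node_bounds (d n r : ℕ) (hn : n < d) (μ : Fin (n + 1) × ℕ) (hμ : μ.2 ≤ r + 1) :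
    0 ≤ node d n μ ∧ node d n μ ≤ ((d * (r + 2) : ℕ) : ℤ) := by
  have hj := μ.1.2
  constructor
  · unfold node; positivity
  · unfold node
    have : (μ.1 : ℕ) + d * μ.2 ≤ d * (r + 2) := by nlinarith
    exact_mod_cast this

theorem node_dvd (d n r : ℕ) (hn : n < d) (μ ν : Fin (n + 1) × ℕ) (hμ : μ.2 ≤ r + 1)
    (hν : ν.2 ≤ r + 1) (hne : μ ≠ ν) :
    node d n μ - node d n ν ≠ 0 ∧
      node d n μ - node d n ν ∣ (Nat.lcmUpto (d * (r + 2)) : ℤ) := by
  have h0 : node d n μ - node d n ν ≠ 0 := sub_ne_zero.2 fun h => hne (node_inj d n hn h)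
  refine ⟨h0, dvd_lcmUpto _ _ h0 ?_⟩
  have a := node_bounds d n r hn μ hμ
  have b := node_bounds d n r hn ν hν
  rw [abs_le]
  constructor <;> linarith [a.1, a.2, b.1, b.2]

theorem cofactor_base (d n r : ℕ) (hn : n < d) (μ : Fin (n + 1) × ℕ) (hμ : μ.2 ≤ r + 1) :
    ∃ z : ℤ, z * ∏ ν ∈ (univ ×ˢ range (r + 1)).erase μ, (node d n μ - node d n ν)
        = ((Nat.lcmUpto (d * (r + 2)) : ℤ) * d ^ r * r !) ^ (n + 1) ∧
      |z| ≤ (2 ^ r * (Nat.lcmUpto (d * (r + 2)) : ℤ)) ^ (n + 1) := by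
  set L : ℤ := (Nat.lcmUpto (d * (r + 2)) : ℤ) with hL
  have hL0 : 0 ≤ L := by positivity
  have hper : ∀ j : Fin (n + 1), ∃ z : ℤ,
      z * (∏ h ∈ range (r + 1), if (j, h) ≠ μ then node d n μ - node d n (j, h) else 1)
        = L * d ^ r * r ! ∧ |z| ≤ 2 ^ r * L := by
    intro j
    by_cases hc : j = μ.1 ∧ μ.2 ≤ r
    · obtain ⟨z, h1, h2⟩ := ap_cofactor_self L d (j : ℕ) r μ.2 hc.2
      refine ⟨z, ?_, by rwa [abs_of_nonneg hL0] at h2⟩
      rw [← h1, ← filter_ne', prod_filter]
      congr 1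
      refine prod_congr rfl fun h _ => ?_
      obtain ⟨j', h'⟩ := μ
      obtain ⟨rfl, -⟩ := hc
      simp [node]
    · have hne : ∀ h ≤ r, μ ≠ (j, h) := by
        rintro h hh rfl
        exact hc ⟨rfl, hh⟩
      obtain ⟨z, h1, h2⟩ := ap_cofactor L d (node d n μ) r (j : ℕ) (fun h hh =>
        node_dvd d n r hn μ (j, h) hμ (by simp only; omega) (hne h hh))
      refine ⟨z, ?_, by rwa [abs_of_nonneg hL0] at h2⟩
      rw [← h1]
      congr 1
      refine prod_congr rfl fun h hh => ?_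
      rw [if_pos (hne h (by have := mem_range.1 hh; omega)).symm]
      rfl
  choose z hz1 hz2 using hper
  refine ⟨∏ j, z j, ?_, ?_⟩
  · rw [← filter_ne', prod_filter, prod_product, ← prod_mul_distrib]
    simp_rw [hz1]
    simp
  · rw [abs_prod]
    calc ∏ j, |z j| ≤ ∏ _j : Fin (n + 1), 2 ^ r * L :=
          prod_le_prod (fun j _ => abs_nonneg _) fun j _ => hz2 j
      _ = (2 ^ r * L) ^ (n + 1) := by simp

/-- The node index set of the `i`-th form. -/
def idx (n r : ℕ) (i : Fin (n + 1)) : Finset (Fin (n + 1) × ℕ) :=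
  insert (i, r + 1) (univ ×ˢ range (r + 1))

theorem card_idx (n r : ℕ) (i : Fin (n + 1)) : (idx n r i).card = (n + 1) * (r + 1) + 1 := by
  unfold idx
  rw [card_insert_of_notMem (by simp)]
  simp

theorem idx_snd_le (n r : ℕ) (i : Fin (n + 1)) (μ : Fin (n + 1) × ℕ) (h : μ ∈ idx n r i) :
    μ.2 ≤ r + 1 := by
  simp only [idx, mem_insert, mem_product, mem_univ, mem_range, true_and] at h
  rcases h with rfl | h
  · simp
  · omega

theorem cofactor_idx (d n r : ℕ) (hn : n < d) (i : Fin (n + 1)) (μ : Fin (n + 1) × ℕ)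
    (hμ : μ ∈ idx n r i) :
    ∃ z : ℤ, z * ∏ ν ∈ (idx n r i).erase μ, (node d n μ - node d n ν)
        = (Nat.lcmUpto (d * (r + 2)) : ℤ) *
          ((Nat.lcmUpto (d * (r + 2)) : ℤ) * d ^ r * r !) ^ (n + 1) ∧
      |z| ≤ (Nat.lcmUpto (d * (r + 2)) : ℤ) *
        (2 ^ r * (Nat.lcmUpto (d * (r + 2)) : ℤ)) ^ (n + 1) := by
  have hle := idx_snd_le n r i μ hμ
  obtain ⟨z, h1, h2⟩ := cofactor_base d n r hn μ hle
  set L : ℤ := (Nat.lcmUpto (d * (r + 2)) : ℤ) with hL
  have hL0 : 0 ≤ L := by positivity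
  have htop : (i, r + 1) ∉ (univ ×ˢ range (r + 1) : Finset (Fin (n + 1) × ℕ)) := by simp
  by_cases hc : μ = (i, r + 1)
  · subst hc
    refine ⟨L * z, ?_, ?_⟩
    · unfold idx
      rw [erase_insert htop]
      rw [erase_eq_of_notMem htop] at h1
      rw [mul_assoc, h1]
    · rw [abs_mul, abs_of_nonneg hL0]
      exact mul_le_mul_of_nonneg_left h2 hL0
  · obtain ⟨h0, q, hq⟩ := node_dvd d n r hn μ (i, r + 1) hle le_rfl hc
    rw [← hL] at hq
    refine ⟨q * z, ?_, ?_⟩
    · unfold idx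
      rw [erase_insert_of_ne (Ne.symm hc), prod_insert (fun h => htop (mem_of_mem_erase h)), ← h1]
      nth_rewrite 1 [hq]
      ring
    · rw [abs_mul]
      refine mul_le_mul ?_ h2 (abs_nonneg _) hL0
      rw [← abs_of_nonneg hL0, hq, abs_mul]
      exact le_mul_of_one_le_left (abs_nonneg _) (Int.one_le_abs h0)

end Pool.Agent.Lib.MP_0496af_nt
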