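import Mathlib
import Pool.Agent.Lib.MP_0496af_nt.Pade

/-!
The matrix of the Hermite-Pade forms: nonsingular, of controlled size, with small values.
-/

set_option autoImplicit false

namespace Pool.Agent.Lib.MP_0496af_nt

open Finset Polynomial
open scoped Nat

theorem weights (d n r : ℕ) (hn : n < d) :
    ∃ zf : Fin (n + 1) → Fin (n + 1) × ℕ → ℤ,
      (∀ i μ, |zf i μ| ≤ (Nat.lcmUpto (d * (r + 2)) : ℤ) *
        (2 ^ r * (Nat.lcmUpto (d * (r + 2)) : ℤ)) ^ (n + 1)) ∧
      (∀ i j, j ≠ i → zf i (j, r + 1) = 0) ∧ (∀ i, zf i (i, r + 1) ≠ 0) ∧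
      ∀ (i) (F : Fin (n + 1) × ℕ → ℝ), ∑ j, ∑ h ∈ range (r + 2), (zf i (j, h) : ℝ) * F (j, h)
        = ((Nat.lcmUpto (d * (r + 2)) : ℝ) *
          ((Nat.lcmUpto (d * (r + 2)) : ℝ) * d ^ r * r !) ^ (n + 1)) *
          ∑ μ ∈ idx n r i, F μ / ∏ ν ∈ (idx n r i).erase μ, ((node d n μ : ℝ) - node d n ν) := by
  have hD : (Nat.lcmUpto (d * (r + 2)) : ℤ) *
      ((Nat.lcmUpto (d * (r + 2)) : ℤ) * d ^ r * r !) ^ (n + 1) ≠ 0 := by
    have h1 := Nat.lcmUpto_pos (d * (r + 2))
    have h2 : 0 < d := by omega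
    positivity
  have hex : ∀ (i : Fin (n + 1)) (μ : Fin (n + 1) × ℕ), ∃ z : ℤ,
      |z| ≤ (Nat.lcmUpto (d * (r + 2)) : ℤ) *
        (2 ^ r * (Nat.lcmUpto (d * (r + 2)) : ℤ)) ^ (n + 1) ∧ (μ ∉ idx n r i → z = 0) ∧
      (μ ∈ idx n r i → z * ∏ ν ∈ (idx n r i).erase μ, (node d n μ - node d n ν)
        = (Nat.lcmUpto (d * (r + 2)) : ℤ) *
          ((Nat.lcmUpto (d * (r + 2)) : ℤ) * d ^ r * r !) ^ (n + 1)) := by
    intro i μ
    by_cases hμ : μ ∈ idx n r i
    · obtain ⟨z, h1, h2⟩ := cofactor_idx d n r hn i μ hμ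
      exact ⟨z, h2, fun h => absurd hμ h, fun _ => h1⟩
    · exact ⟨0, by simp only [abs_zero]; positivity, fun _ => rfl, fun h => absurd h hμ⟩
  choose zf h1 h2 h3 using hex
  refine ⟨zf, h1, ?_, ?_, ?_⟩
  · intro i j hji
    apply h2
    simp [idx, hji]
  · intro i h0
    have := h3 i (i, r + 1) (by simp [idx])
    rw [h0, zero_mul] at this
    exact hD this.symm
  · intro i F
    rw [← sum_product' (f := fun j h => (zf i (j, h) : ℝ) * F (j, h)), mul_sum]
    symm
    apply sum_subset_zero_on_sdiff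
    · intro μ hμ
      have := idx_snd_le n r i μ hμ
      simp only [mem_product, mem_univ, mem_range, true_and]
      omega
    · intro μ hμ
      rw [h2 i μ (mem_sdiff.1 hμ).2]
      simp
    · intro μ hμ
      have e := h3 i μ hμ
      have hne : ∏ ν ∈ (idx n r i).erase μ, (node d n μ - node d n ν) ≠ 0 := by
        intro h0
        rw [h0, mul_zero] at e
        exact hD e.symm
      have e' : (zf i μ : ℝ) * ∏ ν ∈ (idx n r i).erase μ, ((node d n μ : ℝ) - node d n ν)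
          = (Nat.lcmUpto (d * (r + 2)) : ℝ) *
            ((Nat.lcmUpto (d * (r + 2)) : ℝ) * d ^ r * r !) ^ (n + 1) := by exact_mod_cast e
      have hne' : ∏ ν ∈ (idx n r i).erase μ, ((node d n μ : ℝ) - node d n ν) ≠ 0 := by
        exact_mod_cast hne
      rw [← e']
      field_simp

theorem factorial_pow_le (n r : ℕ) : (r ! : ℝ) ^ (n + 1) ≤ (((n + 1) * (r + 1))! : ℝ) := by
  have h1 := Nat.prod_factorial_dvd_factorial_sum (univ : Finset (Fin (n + 1))) (fun _ => r)
  simp only [prod_const, card_univ, Fintype.card_fin, sum_const, smul_eq_mul] at h1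
  have h2 := Nat.le_of_dvd (Nat.factorial_pos _) h1
  have h3 : ((n + 1) * r)! ≤ ((n + 1) * (r + 1))! := Nat.factorial_le (by nlinarith)
  exact_mod_cast h2.trans h3

theorem pade_matrix (d : ℕ) : ∃ C : ℝ, 1 ≤ C ∧ ∀ n < d, ∀ a : ℕ, 1 ≤ a → ∀ γ : ℝ, 0 < γ →
    (a : ℝ) * γ ^ d = a + 1 → ∀ r : ℕ, ∃ A : Matrix (Fin (n + 1)) (Fin (n + 1)) ℤ,
      A.det ≠ 0 ∧ (∀ i j, |(A i j : ℝ)| ≤ (C * a) ^ (r + 1)) ∧
      ∀ i, |∑ j, (A i j : ℝ) * γ ^ (j : ℕ)| * (a : ℝ) ^ (n * (r + 1)) ≤ C ^ (r + 1) := by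
  obtain ⟨E, hE⟩ : ∃ E : ℝ, E = 256 ^ (2 * d) := ⟨_, rfl⟩
  have hE1 : 1 ≤ E := by rw [hE]; exact one_le_pow₀ (by norm_num)
  refine ⟨4 * E * (2 * E * (d + 1)) ^ d, ?_, ?_⟩
  · have : (1 : ℝ) ≤ 2 * E * (d + 1) := by
      have : (0 : ℝ) ≤ d := by positivity
      nlinarith
    have := one_le_pow₀ (n := d) this
    nlinarith
  intro n hn a ha γ hγ hγd r
  obtain ⟨zf, hz1, hz2, hz3, hz4⟩ := weights d n r hn
  set L : ℝ := (Nat.lcmUpto (d * (r + 2)) : ℝ) with hL
  have hL0 : 0 ≤ L := by positivity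
  have hLE : L ≤ E ^ (r + 1) := by
    refine (lcmUpto_le _).trans ?_
    rw [hE, ← pow_mul]
    exact pow_le_pow_right₀ (by norm_num) (by nlinarith)
  have ha' : (1 : ℝ) ≤ a := by exact_mod_cast ha
  have ha0 : (0 : ℝ) < a := by linarith
  have hd1 : (1 : ℝ) ≤ d := by exact_mod_cast (by omega : 1 ≤ d)
  set y : ℝ := γ ^ d with hy
  have hya : y = 1 + 1 / a := by field_simp; linarith
  have hy1 : 1 < y := by rw [hya]; have := one_div_pos.2 ha0; linarith
  have hy2 : y ≤ 2 := by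
    rw [hya]
    have : 1 / (a : ℝ) ≤ 1 := by rw [div_le_one ha0]; exact ha'
    linarith
  let A : Matrix (Fin (n + 1)) (Fin (n + 1)) ℤ := fun i j =>
    ∑ h ∈ range (r + 2), zf i (j, h) * (((a : ℤ) + 1) ^ h * (a : ℤ) ^ (r + 1 - h))
  have hA : ∀ i j, (A i j : ℝ) = (a : ℝ) ^ (r + 1) * ∑ h ∈ range (r + 2), (zf i (j, h) : ℝ) * y ^ h := by
    intro i j
    simp only [A]
    push_cast
    rw [mul_sum]
    refine sum_congr rfl fun h hh => ?_
    have hh' : h ≤ r + 1 := by have := mem_range.1 hh; omega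
    rw [← hγd, mul_pow, show (a : ℝ) ^ (r + 1) = a ^ h * a ^ (r + 1 - h) by
      rw [← pow_add, Nat.add_sub_cancel' hh']]
    ring
  have hinj : Function.Injective fun μ : Fin (n + 1) × ℕ => ((node d n μ : ℤ) : ℝ) := by
    intro μ ν h
    simp only at h
    exact node_inj d n hn (by exact_mod_cast h)
  refine ⟨A, ?_, ?_, ?_⟩
  · intro hdet
    obtain ⟨u, hu0, hu⟩ := Matrix.exists_vecMul_eq_zero_iff.2 hdet
    apply hu0
    funext j
    have := indep_core (κ := Fin (n + 1)) r y d (by linarith) hy1.ne' (fun j => ((j : ℕ) : ℝ))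
      (fun j h => ∑ i, (u i : ℝ) * zf i (j, h)) (by
        intro μ ν h
        apply hinj
        simp only [node]
        push_cast
        exact h) (by
        intro j
        have h1 := congrFun hu j
        simp only [Matrix.vecMul, dotProduct, Pi.zero_apply] at h1
        have h2 : ∑ i, (u i : ℝ) * (A i j : ℝ) = 0 := by exact_mod_cast h1
        simp_rw [hA] at h2
        have h3 : (a : ℝ) ^ (r + 1) *
            ∑ h ∈ range (r + 2), (∑ i, (u i : ℝ) * zf i (j, h)) * y ^ h = 0 := by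
          rw [← h2]
          simp_rw [sum_mul, mul_sum]
          rw [sum_comm]
          exact sum_congr rfl fun i _ => sum_congr rfl fun h _ => by ring
        exact (mul_eq_zero.1 h3).resolve_left (by positivity)) (by
        intro m hm
        rw [Fintype.card_fin] at hm
        have h1 : ∀ i, ∑ j, ∑ h ∈ range (r + 2),
            (zf i (j, h) : ℝ) * (((j : ℕ) : ℝ) + d * h) ^ m = 0 := by
          intro i
          have h2 := hz4 i (fun μ => ((node d n μ : ℤ) : ℝ) ^ m)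
          rw [moment_zero (idx n r i) _ hinj.injOn m (by rw [card_idx]; omega), mul_zero] at h2
          rw [← h2]
          simp [node]
        calc ∑ j, ∑ h ∈ range (r + 2),
              (∑ i, (u i : ℝ) * zf i (j, h)) * (((j : ℕ) : ℝ) + d * h) ^ m
            = ∑ i, (u i : ℝ) * ∑ j, ∑ h ∈ range (r + 2),
              (zf i (j, h) : ℝ) * (((j : ℕ) : ℝ) + d * h) ^ m := by
              simp_rw [sum_mul, mul_sum]
              rw [sum_comm (s := univ) (t := univ)]
              refine sum_congr rfl fun j _ => ?_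
              rw [sum_comm]
              exact sum_congr rfl fun i _ => sum_congr rfl fun h _ => by ring
          _ = 0 := by simp [h1]) j
    rw [sum_eq_single j (fun i _ hij => by rw [hz2 i j hij.symm]; simp) (by simp)] at this
    have h2 : (zf j (j, r + 1) : ℝ) ≠ 0 := by exact_mod_cast hz3 j
    have h3 := (mul_eq_zero.1 this).resolve_right h2
    exact_mod_cast h3
  · intro i j
    have hZ : ∀ μ, |(zf i μ : ℝ)| ≤ (E * (2 * E) ^ d) ^ (r + 1) := by
      intro μ
      have h1 : |(zf i μ : ℝ)| ≤ L * (2 ^ r * L) ^ (n + 1) := by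
        rw [hL]; exact_mod_cast hz1 i μ
      refine h1.trans ?_
      rw [mul_pow E, ← pow_mul (2 * E), mul_comm d, pow_mul]
      refine mul_le_mul hLE ?_ (by positivity) (by positivity)
      have h2 : 2 ^ r * L ≤ (2 * E) ^ (r + 1) := by
        rw [mul_pow]
        exact mul_le_mul (pow_le_pow_right₀ (by norm_num) (by omega)) hLE hL0 (by positivity)
      calc (2 ^ r * L) ^ (n + 1) ≤ ((2 * E) ^ (r + 1)) ^ (n + 1) :=
            pow_le_pow_left₀ (by positivity) h2 _
        _ ≤ ((2 * E) ^ (r + 1)) ^ d :=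
            pow_le_pow_right₀ (one_le_pow₀ (by linarith)) (by omega)
    rw [hA, abs_mul, abs_of_pos (by positivity : (0 : ℝ) < (a : ℝ) ^ (r + 1)), mul_pow _ (a : ℝ),
      mul_comm]
    refine mul_le_mul_of_nonneg_right ?_ (by positivity)
    calc |∑ h ∈ range (r + 2), (zf i (j, h) : ℝ) * y ^ h|
        ≤ ∑ h ∈ range (r + 2), |(zf i (j, h) : ℝ) * y ^ h| := abs_sum_le_sum_abs _ _
      _ ≤ ∑ _h ∈ range (r + 2), (E * (2 * E) ^ d) ^ (r + 1) * 2 ^ (r + 1) := by
          refine sum_le_sum fun h hh => ?_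
          have hh' : h ≤ r + 1 := by have := mem_range.1 hh; omega
          rw [abs_mul, abs_of_pos (by positivity : 0 < y ^ h)]
          refine mul_le_mul (hZ _) ?_ (by positivity) (by positivity)
          exact (pow_le_pow_left₀ (by positivity) hy2 h).trans
            (pow_le_pow_right₀ (by norm_num) hh')
      _ = ((r + 2 : ℕ) : ℝ) * ((E * (2 * E) ^ d) ^ (r + 1) * 2 ^ (r + 1)) := by simp
      _ ≤ 2 ^ (r + 1) * ((E * (2 * E) ^ d) ^ (r + 1) * 2 ^ (r + 1)) := by
          refine mul_le_mul_of_nonneg_right ?_ (by positivity)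
          exact_mod_cast (Nat.lt_two_pow_self (n := r + 1))
      _ = (4 * E * (2 * E) ^ d) ^ (r + 1) := by
          rw [← mul_pow, ← mul_pow]; ring_nf
      _ ≤ (4 * E * (2 * E * (d + 1)) ^ d) ^ (r + 1) := by
          have : 2 * E ≤ 2 * E * (d + 1) := by nlinarith
          gcongr
  · intro i
    set s : ℝ := Real.log γ with hs
    have hγ1 : 1 < γ := by
      by_contra hc
      push Not at hc
      have := pow_le_one₀ (n := d) hγ.le hc
      linarith
    have hs0 : 0 ≤ s := Real.log_nonneg hγ1.le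
    have hds : (d : ℝ) * s = Real.log y := by rw [hy, Real.log_pow]
    have hsa : s * a ≤ 1 := by
      have h1 : Real.log y ≤ y - 1 := Real.log_le_sub_one_of_pos (by linarith)
      have h2 : s ≤ 1 / a := by
        rw [hya] at h1 hds
        nlinarith
      rwa [le_div_iff₀ ha0] at h2
    have hexp : ∀ m : ℕ, Real.exp (m * s) = γ ^ m := by
      intro m; rw [Real.exp_nat_mul, hs, Real.exp_log hγ]
    have h1 := hz4 i (fun μ => Real.exp (((node d n μ : ℤ) : ℝ) * s))
    have h2 := exp_sum_bound (fun μ : Fin (n + 1) × ℕ => ((node d n μ : ℤ) : ℝ))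
      ((d * (r + 2) : ℕ) : ℝ) ((n + 1) * (r + 1)) (idx n r i) (card_idx n r i) hinj.injOn
      (fun μ hμ => by exact_mod_cast (node_bounds d n r hn μ (idx_snd_le n r i μ hμ)).2) s hs0
    have h3 : ∑ j, (A i j : ℝ) * γ ^ (j : ℕ) = (a : ℝ) ^ (r + 1) * ∑ j, ∑ h ∈ range (r + 2),
        (zf i (j, h) : ℝ) * Real.exp (((node d n (j, h) : ℤ) : ℝ) * s) := by
      rw [mul_sum]
      refine sum_congr rfl fun j _ => ?_
      rw [hA, mul_assoc, sum_mul]
      congr 1
      refine sum_congr rfl fun h _ => ?_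
      have : ((node d n (j, h) : ℤ) : ℝ) = (((j : ℕ) + d * h : ℕ) : ℝ) := by simp [node]
      rw [this, hexp, pow_add, pow_mul]
      ring
    rw [h3, h1, abs_mul, abs_mul, abs_of_pos (by positivity : (0 : ℝ) < (a : ℝ) ^ (r + 1)),
      abs_of_nonneg (by positivity : (0 : ℝ) ≤ L * (L * d ^ r * r !) ^ (n + 1))]
    rw [hexp, pow_mul γ, ← hy] at h2
    have hK : (0 : ℝ) < (((n + 1) * (r + 1))! : ℝ) := by positivity
    have h4 : (s * a) ^ ((n + 1) * (r + 1)) ≤ 1 := pow_le_one₀ (by positivity) hsa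
    have h5 : (r ! : ℝ) ^ (n + 1) / (((n + 1) * (r + 1))! : ℝ) ≤ 1 := by
      rw [div_le_one hK]; exact factorial_pow_le n r
    have h6 : y ^ (r + 2) ≤ 4 ^ (r + 1) := by
      calc y ^ (r + 2) ≤ 2 ^ (r + 2) := pow_le_pow_left₀ (by positivity) hy2 _
        _ ≤ 2 ^ (2 * (r + 1)) := pow_le_pow_right₀ (by norm_num) (by omega)
        _ = 4 ^ (r + 1) := by rw [pow_mul]; norm_num
    have h7 : (L * d ^ r) ^ (n + 1) ≤ ((2 * E * (d + 1)) ^ d) ^ (r + 1) := by
      have h8 : L * d ^ r ≤ (2 * E * (d + 1)) ^ (r + 1) := by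
        rw [mul_pow]
        refine mul_le_mul (hLE.trans (pow_le_pow_left₀ (by positivity) (by linarith) _)) ?_
          (by positivity) (by positivity)
        exact (pow_le_pow_right₀ hd1 (by omega)).trans
          (pow_le_pow_left₀ (by positivity) (by linarith) _)
      rw [← pow_mul, mul_comm d, pow_mul]
      calc (L * d ^ r) ^ (n + 1) ≤ ((2 * E * (d + 1)) ^ (r + 1)) ^ (n + 1) :=
            pow_le_pow_left₀ (by positivity) h8 _
        _ ≤ ((2 * E * (d + 1)) ^ (r + 1)) ^ d :=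
            pow_le_pow_right₀ (one_le_pow₀ (by nlinarith)) (by omega)
    calc (a : ℝ) ^ (r + 1) * (L * (L * d ^ r * r !) ^ (n + 1) *
          |∑ μ ∈ idx n r i, Real.exp (((node d n μ : ℤ) : ℝ) * s) /
            ∏ ν ∈ (idx n r i).erase μ, ((node d n μ : ℝ) - node d n ν)|) * (a : ℝ) ^ (n * (r + 1))
        ≤ (a : ℝ) ^ (r + 1) * (L * (L * d ^ r * r !) ^ (n + 1) *
          (s ^ ((n + 1) * (r + 1)) * y ^ (r + 2) / (((n + 1) * (r + 1))! : ℝ)))
            * (a : ℝ) ^ (n * (r + 1)) := by gcongr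
      _ = y ^ (r + 2) * L * (L * d ^ r) ^ (n + 1) * (s * a) ^ ((n + 1) * (r + 1)) *
          ((r ! : ℝ) ^ (n + 1) / (((n + 1) * (r + 1))! : ℝ)) := by
          rw [mul_pow s, mul_pow _ (r ! : ℝ), show (a : ℝ) ^ ((n + 1) * (r + 1))
            = a ^ (r + 1) * a ^ (n * (r + 1)) by rw [← pow_add]; congr 1; ring]
          ring
      _ ≤ 4 ^ (r + 1) * E ^ (r + 1) * ((2 * E * (d + 1)) ^ d) ^ (r + 1) * 1 * 1 := by gcongr
      _ = (4 * E * (2 * E * (d + 1)) ^ d) ^ (r + 1) := by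
          rw [mul_one, mul_one, ← mul_pow, ← mul_pow]

end Pool.Agent.Lib.MP_0496af_nt
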