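import Mathlib
import Pool.Agent.Lib.MP_0496af_nt.PadeMatrix

/-!
Lower bounds for integer linear forms in the powers of a d-th root of (a+1)/a, with an exponent
that does not depend on d.
-/

set_option autoImplicit false

namespace Pool.Agent.Lib.MP_0496af_nt

open Finset Polynomial
open scoped Nat

theorem linear_form_lower (n : ℕ) (A : Matrix (Fin (n + 1)) (Fin (n + 1)) ℤ) (hA : A.det ≠ 0)
    (v : Fin (n + 1) → ℝ) (hv : v 0 = 1) (h : Fin (n + 1) → ℤ) (hh : h ≠ 0) (α ε H : ℝ)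
    (hα : 0 < α) (hε : 0 ≤ ε) (hH : 0 ≤ H) (h1 : ∀ i j, |(A i j : ℝ)| ≤ α)
    (h2 : ∀ i, |∑ j, (A i j : ℝ) * v j| ≤ ε) (h3 : ∀ j, |(h j : ℝ)| ≤ H) :
    1 ≤ ((n + 1)! : ℝ) * (|∑ j, (h j : ℝ) * v j| * α ^ n + H / α * (ε * α ^ n)) := by
  obtain ⟨i0, hi0⟩ : ∃ i0, (A.updateRow i0 h).det ≠ 0 := by
    by_contra hc
    push Not at hc
    have e1 : Matrix.cramer A.transpose h = 0 := by
      funext i
      rw [Matrix.cramer_transpose_apply, hc i]
      rfl
    have e2 := Matrix.mulVec_cramer A.transpose h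
    rw [e1, Matrix.mulVec_zero, Matrix.det_transpose] at e2
    exact hh ((smul_eq_zero.1 e2.symm).resolve_left hA)
  let B : Matrix (Fin (n + 1)) (Fin (n + 1)) ℝ := (A.updateRow i0 h).map (Int.castRingHom ℝ)
  have hB : (1 : ℝ) ≤ |B.det| := by
    have : B.det = ((A.updateRow i0 h).det : ℝ) := ((Int.castRingHom ℝ).map_det _).symm
    rw [this]
    exact_mod_cast Int.one_le_abs hi0
  have hB0 : ∀ l, B i0 l = h l := by intro l; simp [B]
  have hB1 : ∀ k l, k ≠ i0 → B k l = A k l := by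
    intro k l hk; simp [B, Matrix.updateRow_ne hk]
  let M := B.updateCol 0 (fun k => ∑ i, v i • B k i)
  have hM : M.det = B.det := by
    simp only [M]
    rw [Matrix.det_updateCol_sum, hv, one_smul]
  have hM0 : ∀ k, M k 0 = ∑ i, B k i * v i := by
    intro k
    simp only [M, Matrix.updateCol_self, smul_eq_mul]
    exact sum_congr rfl fun i _ => mul_comm _ _
  have hM1 : ∀ k l, l ≠ 0 → M k l = B k l := by
    intro k l hl
    simp only [M, Matrix.updateCol_ne hl]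
  have hterm : ∀ σ : Equiv.Perm (Fin (n + 1)), |∏ l, M (σ l) l|
      ≤ |∑ j, (h j : ℝ) * v j| * α ^ n + H / α * (ε * α ^ n) := by
    intro σ
    rw [abs_prod]
    by_cases hσ : σ 0 = i0
    · refine le_add_of_le_of_nonneg ?_ (by positivity)
      rw [Fin.prod_univ_succ, hσ, hM0]
      simp_rw [hB0]
      refine mul_le_mul_of_nonneg_left ?_ (abs_nonneg _)
      calc ∏ l : Fin n, |M (σ l.succ) l.succ| ≤ ∏ _l : Fin n, α := by
            refine prod_le_prod (fun l _ => abs_nonneg _) fun l _ => ?_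
            rw [hM1 _ _ (Fin.succ_ne_zero l), hB1]
            · exact h1 _ _
            · rw [← hσ]
              exact fun e => Fin.succ_ne_zero l (σ.injective e)
        _ = α ^ n := by simp
    · refine le_add_of_nonneg_of_le (by positivity) ?_
      calc ∏ l, |M (σ l) l|
          ≤ ∏ l, ((if σ l = i0 then H / α else 1) * (if l = 0 then ε else α)) := by
            refine prod_le_prod (fun l _ => abs_nonneg _) fun l _ => ?_
            by_cases hl : l = 0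
            · subst hl
              rw [if_neg hσ, if_pos rfl, one_mul, hM0]
              simp_rw [hB1 _ _ hσ]
              exact h2 _
            · rw [if_neg hl, hM1 _ _ hl]
              by_cases hk : σ l = i0
              · rw [if_pos hk, hk, hB0, div_mul_cancel₀ _ hα.ne']
                exact h3 _
              · rw [if_neg hk, one_mul, hB1 _ _ hk]
                exact h1 _ _
        _ = H / α * (ε * α ^ n) := by
            rw [prod_mul_distrib, Equiv.prod_comp σ (fun k => if k = i0 then H / α else 1),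
              prod_ite_eq' univ i0, Fin.prod_univ_succ]
            simp
  calc (1 : ℝ) ≤ |M.det| := by rw [hM]; exact hB
    _ ≤ ∑ σ : Equiv.Perm (Fin (n + 1)), |((Equiv.Perm.sign σ : ℤ) : ℝ) * ∏ l, M (σ l) l| := by
        rw [Matrix.det_apply']
        exact abs_sum_le_sum_abs _ _
    _ ≤ ∑ _σ : Equiv.Perm (Fin (n + 1)),
        (|∑ j, (h j : ℝ) * v j| * α ^ n + H / α * (ε * α ^ n)) := by
        refine sum_le_sum fun σ _ => ?_
        rw [abs_mul]
        have : |((Equiv.Perm.sign σ : ℤ) : ℝ)| = 1 := by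
          rcases Int.units_eq_one_or (Equiv.Perm.sign σ) with e | e <;> simp [e]
        rw [this, one_mul]
        exact hterm σ
    _ = _ := by rw [sum_const, card_univ, Fintype.card_perm, Fintype.card_fin, nsmul_eq_mul]

theorem exists_root (d : ℕ) (hd : 1 ≤ d) (a : ℕ) (ha : 1 ≤ a) :
    ∃ γ : ℝ, 1 ≤ γ ∧ γ ≤ 2 ∧ (a : ℝ) * γ ^ d = a + 1 := by
  have ha' : (1 : ℝ) ≤ a := by exact_mod_cast ha
  have ha0 : (0 : ℝ) < a := by linarith
  have hy : (0 : ℝ) ≤ (a + 1) / a := by positivity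
  have e : (((a + 1) / a : ℝ) ^ ((d : ℝ)⁻¹)) ^ d = (a + 1) / a :=
    Real.rpow_inv_natCast_pow hy (by omega)
  refine ⟨((a + 1) / a : ℝ) ^ ((d : ℝ)⁻¹), ?_, ?_, ?_⟩
  · apply Real.one_le_rpow _ (by positivity)
    rw [le_div_iff₀ ha0]; linarith
  · by_contra hc
    push Not at hc
    have h1 : (2 : ℝ) ^ d < (((a + 1) / a : ℝ) ^ ((d : ℝ)⁻¹)) ^ d :=
      pow_lt_pow_left₀ hc (by norm_num) (by omega)
    have h2 : (2 : ℝ) ^ 1 ≤ 2 ^ d := pow_le_pow_right₀ (by norm_num) hd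
    have h3 : ((a + 1) / a : ℝ) ≤ 2 := by rw [div_le_iff₀ ha0]; linarith
    rw [e] at h1
    linarith
  · rw [e]; field_simp

theorem exists_good_root (d : ℕ) (hd : 1 ≤ d) : ∃ a : ℕ, 1 ≤ a ∧ ∃ γ : ℝ, 1 ≤ γ ∧ γ ≤ 2 ∧
    (a : ℝ) * γ ^ d = a + 1 ∧ ∀ n < d, ∃ c : ℝ, 0 < c ∧ ∀ h : Fin (n + 1) → ℤ, h ≠ 0 →
      ∀ H : ℝ, 1 ≤ H → (∀ j, |(h j : ℝ)| ≤ H) →
        c ≤ |∑ j, (h j : ℝ) * γ ^ (j : ℕ)| * H ^ (3 * n) := by
  obtain ⟨C, hC, hP⟩ := pade_matrix d
  obtain ⟨B, hB⟩ := exists_nat_gt (C ^ d)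
  have hCd : C ≤ C ^ d := by
    calc C = C ^ 1 := (pow_one C).symm
      _ ≤ C ^ d := pow_le_pow_right₀ hC hd
  have hB1 : (1 : ℝ) < B := by linarith
  have hB1' : 1 < B := by exact_mod_cast hB1
  have ha : 1 ≤ B ^ 2 := Nat.one_le_pow _ _ (by omega)
  obtain ⟨γ, hγ1, hγ2, hγ⟩ := exists_root d hd (B ^ 2) ha
  refine ⟨B ^ 2, ha, γ, hγ1, hγ2, hγ, fun n hn => ?_⟩
  have hN : (1 : ℝ) ≤ ((n + 1)! : ℝ) := by exact_mod_cast Nat.factorial_pos _
  set N : ℝ := ((n + 1)! : ℝ) with hNdef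
  refine ⟨1 / (2 * N * (2 * B * N) ^ (3 * n)), by positivity, fun h hh H hH hhH => ?_⟩
  obtain ⟨r, hr1, hr2⟩ := exists_nat_pow_near (x := 2 * N * H) (by nlinarith) hB1
  obtain ⟨A, hA0, hA1, hA2⟩ := hP n hn (B ^ 2) ha γ (by linarith) hγ r
  push_cast at hA1 hA2
  have hα : (0 : ℝ) < (C * B ^ 2) ^ (r + 1) := by positivity
  have key := linear_form_lower n A hA0 (fun j => γ ^ (j : ℕ)) (by simp) h hh
    ((C * B ^ 2) ^ (r + 1)) (C ^ (r + 1) / ((B : ℝ) ^ 2) ^ (n * (r + 1))) H hα (by positivity)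
    (by linarith) hA1 (fun i => by rw [le_div_iff₀ (by positivity)]; exact hA2 i) hhH
  rw [← hNdef] at key
  set T : ℝ := (B : ℝ) ^ (r + 1) with hT
  have hT0 : 0 < T := by positivity
  have e1 : H / (C * B ^ 2) ^ (r + 1) * (C ^ (r + 1) / ((B : ℝ) ^ 2) ^ (n * (r + 1)) *
      ((C * B ^ 2) ^ (r + 1)) ^ n) = H * (C ^ n) ^ (r + 1) / T ^ 2 := by
    rw [hT]
    simp only [mul_pow, ← pow_mul]
    field_simp
    ring
  have e2 : (C ^ n) ^ (r + 1) ≤ T :=
    pow_le_pow_left₀ (by positivity) ((pow_le_pow_right₀ hC hn.le).trans hB.le) _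
  have e3 : N * (H * (C ^ n) ^ (r + 1) / T ^ 2) ≤ 1 / 2 := by
    rw [← mul_div_assoc, div_le_iff₀ (by positivity)]
    have : N * (H * (C ^ n) ^ (r + 1)) ≤ N * (H * T) := by gcongr
    nlinarith
  have e4 : (C * B ^ 2) ^ (r + 1) ≤ (2 * B * N * H) ^ 3 := by
    calc (C * B ^ 2) ^ (r + 1) ≤ ((B : ℝ) ^ 3) ^ (r + 1) := by
          apply pow_le_pow_left₀ (by positivity)
          have : C ≤ B := by linarith
          nlinarith
      _ = T ^ 3 := by rw [hT, ← pow_mul, ← pow_mul, mul_comm]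
      _ ≤ (2 * B * N * H) ^ 3 := by
          apply pow_le_pow_left₀ hT0.le
          rw [hT, pow_succ]
          nlinarith
  have e5 : ((C * B ^ 2) ^ (r + 1)) ^ n ≤ (2 * B * N) ^ (3 * n) * H ^ (3 * n) := by
    rw [← mul_pow, pow_mul]
    exact pow_le_pow_left₀ hα.le e4 n
  rw [e1, mul_add] at key
  rw [div_le_iff₀ (by positivity)]
  have e6 : N * (|∑ j, (h j : ℝ) * γ ^ (j : ℕ)| * ((C * B ^ 2) ^ (r + 1)) ^ n)
      ≤ N * (|∑ j, (h j : ℝ) * γ ^ (j : ℕ)| * ((2 * B * N) ^ (3 * n) * H ^ (3 * n))) := by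
    gcongr
  nlinarith

end Pool.Agent.Lib.MP_0496af_nt
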