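import Mathlib
import Pool.Agent.Lib.MP_0496af_nt.LinForm

/-!
Lower bounds for integer polynomials at the points (c + gamma) / g.
-/

set_option autoImplicit false

namespace Pool.Agent.Lib.MP_0496af_nt

open Finset Polynomial
open scoped Nat

/-- The data attached to a degree `d`. -/
structure Good (d a : ℕ) (γ : ℝ) : Prop where
  d_pos : 1 ≤ d
  a_pos : 1 ≤ a
  one_le : 1 ≤ γ
  le_two : γ ≤ 2
  eqn : (a : ℝ) * γ ^ d = a + 1
  lower : ∀ n < d, ∃ c : ℝ, 0 < c ∧ ∀ h : Fin (n + 1) → ℤ, h ≠ 0 →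
      ∀ H : ℝ, 1 ≤ H → (∀ j, |(h j : ℝ)| ≤ H) →
        c ≤ |∑ j, (h j : ℝ) * γ ^ (j : ℕ)| * H ^ (3 * n)

theorem exists_good (d : ℕ) (hd : 1 ≤ d) : ∃ a γ, Good d a γ := by
  obtain ⟨a, h1, γ, h2, h3, h4, h5⟩ := exists_good_root d hd
  exact ⟨a, γ, hd, h1, h2, h3, h4, h5⟩

theorem aeval_eq_sum {n : ℕ} (R : ℤ[X]) (hR : R.natDegree ≤ n) (x : ℝ) :
    aeval x R = ∑ i ∈ range (n + 1), (R.coeff i : ℝ) * x ^ i := by
  rw [aeval_eq_sum_range' (n := n + 1) (by omega)]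
  simp

theorem Good.poly_ne_zero {d a : ℕ} {γ : ℝ} (G : Good d a γ) {n : ℕ} (hn : n < d) (R : ℤ[X])
    (hR : R.natDegree ≤ n) (h0 : R ≠ 0) : aeval γ R ≠ 0 := by
  obtain ⟨c, hc, hl⟩ := G.lower n hn
  have hne : (fun j : Fin (n + 1) => R.coeff j) ≠ 0 := by
    intro e
    have := congrFun e ⟨R.natDegree, by omega⟩
    exact h0 (leadingCoeff_eq_zero.1 this)
  have hb : ∀ j : Fin (n + 1), |(R.coeff j : ℝ)| ≤ 1 + ∑ j : Fin (n + 1), |(R.coeff j : ℝ)| := by
    intro j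
    have := single_le_sum (f := fun j : Fin (n + 1) => |(R.coeff j : ℝ)|)
      (fun i _ => abs_nonneg _) (mem_univ j)
    linarith
  have := hl _ hne _ (le_add_of_nonneg_right (sum_nonneg fun i _ => abs_nonneg _)) hb
  intro e
  rw [aeval_eq_sum R hR, ← Fin.sum_univ_eq_sum_range (fun i => (R.coeff i : ℝ) * γ ^ i)] at e
  rw [e] at this
  simp at this
  linarith

theorem Good.poly_lower {d a : ℕ} {γ : ℝ} (G : Good d a γ) (n : ℕ) :
    ∃ c : ℝ, 0 < c ∧ ∀ R : ℤ[X], R.natDegree ≤ n → ∀ H : ℝ, 1 ≤ H → (∀ i, |(R.coeff i : ℝ)| ≤ H) →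
      aeval γ R ≠ 0 → c ≤ |aeval γ R| * H ^ (3 * n) := by
  have hd := G.d_pos
  obtain ⟨m, hm1, hm2, hm3⟩ : ∃ m, m < d ∧ m ≤ n ∧ ∀ i ≤ n, i % d < m + 1 := by
    refine ⟨min n (d - 1), by omega, by omega, fun i hi => ?_⟩
    have h1 := Nat.mod_lt i (show d > 0 by omega)
    have h2 := Nat.mod_le i d
    omega
  obtain ⟨c, hc, hl⟩ := G.lower m hm1
  have ha : (1 : ℝ) ≤ a := by exact_mod_cast G.a_pos
  refine ⟨c / ((a : ℝ) ^ n * ((n + 1) * (a + 1) ^ n) ^ (3 * n)), by positivity,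
    fun R hR H hH hb h0 => ?_⟩
  let t : ℕ → ℤ := fun i => R.coeff i * ((a : ℤ) ^ (n - i / d) * ((a : ℤ) + 1) ^ (i / d))
  let h : Fin (m + 1) → ℤ := fun j => ∑ i ∈ range (n + 1), if i % d = j then t i else 0
  have e1 : ∑ j, (h j : ℝ) * γ ^ (j : ℕ) = (a : ℝ) ^ n * aeval γ R := by
    simp only [h]
    push_cast
    simp_rw [sum_mul]
    rw [sum_comm, aeval_eq_sum R hR, mul_sum]
    refine sum_congr rfl fun i hi => ?_
    have hi' : i ≤ n := by have := mem_range.1 hi; omega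
    rw [sum_eq_single ⟨i % d, hm3 i hi'⟩]
    · simp only [if_true, t]
      push_cast
      have hq : i / d ≤ n := (Nat.div_le_self i d).trans hi'
      rw [← G.eqn, mul_pow, ← pow_mul, show (a : ℝ) ^ n = a ^ (n - i / d) * a ^ (i / d) by
        rw [← pow_add, Nat.sub_add_cancel hq]]
      have e : γ ^ i = γ ^ (d * (i / d)) * γ ^ (i % d) := by rw [← pow_add, Nat.div_add_mod]
      rw [e]
      ring
    · intro j _ hj
      rw [if_neg, zero_mul]
      intro e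
      exact hj (Fin.ext e.symm)
    · simp
  have hne : h ≠ 0 := by
    intro e
    rw [e] at e1
    simp only [Pi.zero_apply, Int.cast_zero, zero_mul, sum_const_zero] at e1
    exact h0 ((mul_eq_zero.1 e1.symm).resolve_left (by positivity))
  have hK : (1 : ℝ) ≤ (n + 1) * (a + 1) ^ n := by
    have h1 : (1 : ℝ) ≤ (a + 1) ^ n := one_le_pow₀ (by linarith)
    have h2 : (0 : ℝ) ≤ n := by positivity
    nlinarith
  have hb' : ∀ j, |(h j : ℝ)| ≤ (n + 1) * (a + 1) ^ n * H := by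
    intro j
    simp only [h]
    push_cast
    calc |∑ i ∈ range (n + 1), if i % d = j then (t i : ℝ) else 0|
        ≤ ∑ i ∈ range (n + 1), |if i % d = j then (t i : ℝ) else 0| := abs_sum_le_sum_abs _ _
      _ ≤ ∑ _i ∈ range (n + 1), ((a : ℝ) + 1) ^ n * H := by
          refine sum_le_sum fun i hi => ?_
          have hi' : i ≤ n := by have := mem_range.1 hi; omega
          have hq : i / d ≤ n := (Nat.div_le_self i d).trans hi'
          split_ifs
          · simp only [t]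
            push_cast
            rw [abs_mul, mul_comm,
              abs_of_nonneg (by positivity : (0 : ℝ) ≤ a ^ (n - i / d) * (a + 1) ^ (i / d))]
            refine mul_le_mul ?_ (hb i) (abs_nonneg _) (by positivity)
            rw [show ((a : ℝ) + 1) ^ n = (a + 1) ^ (n - i / d) * (a + 1) ^ (i / d) by
              rw [← pow_add, Nat.sub_add_cancel hq]]
            gcongr
            linarith
          · rw [abs_zero]; positivity
      _ = (n + 1) * (a + 1) ^ n * H := by simp; ring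
  have hH' : (1 : ℝ) ≤ (n + 1) * (a + 1) ^ n * H := by nlinarith
  have key := hl h hne _ hH' hb'
  rw [e1, abs_mul, abs_of_pos (by positivity : (0 : ℝ) < (a : ℝ) ^ n)] at key
  rw [div_le_iff₀ (by positivity)]
  calc c ≤ (a : ℝ) ^ n * |aeval γ R| * ((n + 1) * (a + 1) ^ n * H) ^ (3 * m) := key
    _ ≤ (a : ℝ) ^ n * |aeval γ R| * ((n + 1) * (a + 1) ^ n * H) ^ (3 * n) := by
        gcongr
    _ = _ := by rw [mul_pow]; ring

/-- The polynomial `g ^ n * Q ((X + c) / g)`. -/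
noncomputable def shiftPoly (n g : ℕ) (c : ℤ) (Q : ℤ[X]) : ℤ[X] :=
  ∑ i ∈ range (n + 1), C (Q.coeff i * (g : ℤ) ^ (n - i)) * (X + C c) ^ i

theorem aeval_shiftPoly (n g : ℕ) (hg : 1 ≤ g) (c : ℤ) (Q : ℤ[X]) (hQ : Q.natDegree ≤ n) (t : ℝ) :
    aeval t (shiftPoly n g c Q) = (g : ℝ) ^ n * aeval ((c + t) / g) Q := by
  have hg0 : (g : ℝ) ≠ 0 := by positivity
  rw [aeval_eq_sum Q hQ, shiftPoly, map_sum, mul_sum]
  refine sum_congr rfl fun i hi => ?_
  have hi' : i ≤ n := by have := mem_range.1 hi; omega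
  rw [show (g : ℝ) ^ n = g ^ (n - i) * g ^ i by rw [← pow_add, Nat.sub_add_cancel hi'], div_pow]
  simp only [map_mul, map_pow, map_add, aeval_X, eq_intCast,
    map_natCast, map_intCast]
  field_simp
  ring

theorem natDegree_shiftPoly (n g : ℕ) (c : ℤ) (Q : ℤ[X]) : (shiftPoly n g c Q).natDegree ≤ n := by
  unfold shiftPoly
  refine natDegree_sum_le_of_forall_le _ _ fun i hi => ?_
  have hi' : i ≤ n := by have := mem_range.1 hi; omega
  refine (natDegree_C_mul_le _ _).trans ?_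
  rw [natDegree_pow_X_add_C]
  exact hi'

theorem coeff_shiftPoly_le (n g : ℕ) (hg : 1 ≤ g) (c : ℤ) (hc : |(c : ℝ)| ≤ g) (Q : ℤ[X]) (H : ℝ)
    (hH : ∀ i, |(Q.coeff i : ℝ)| ≤ H) (l : ℕ) :
    |((shiftPoly n g c Q).coeff l : ℝ)| ≤ (n + 1) * 2 ^ n * (g ^ n * H) := by
  have hg1 : (1 : ℝ) ≤ g := by exact_mod_cast hg
  have hH0 : 0 ≤ H := (abs_nonneg _).trans (hH 0)
  unfold shiftPoly
  rw [finsetSum_coeff]
  push_cast
  calc |∑ i ∈ range (n + 1), ((C (Q.coeff i * (g : ℤ) ^ (n - i)) * (X + C c) ^ i).coeff l : ℝ)|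
      ≤ ∑ i ∈ range (n + 1),
        |((C (Q.coeff i * (g : ℤ) ^ (n - i)) * (X + C c) ^ i).coeff l : ℝ)| :=
        abs_sum_le_sum_abs _ _
    _ ≤ ∑ _i ∈ range (n + 1), 2 ^ n * ((g : ℝ) ^ n * H) := by
        refine sum_le_sum fun i hi => ?_
        have hi' : i ≤ n := by have := mem_range.1 hi; omega
        rw [coeff_C_mul, coeff_X_add_C_pow]
        push_cast
        rw [abs_mul, abs_mul, abs_mul, abs_pow, abs_pow, Nat.abs_cast, Nat.abs_cast]
        have h1 : |(c : ℝ)| ^ (i - l) ≤ (g : ℝ) ^ i :=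
          (pow_le_pow_left₀ (abs_nonneg _) hc _).trans (pow_le_pow_right₀ hg1 (by omega))
        have h2 : (i.choose l : ℝ) ≤ 2 ^ n := by
          have : i.choose l ≤ 2 ^ n :=
            (Nat.choose_le_two_pow i l).trans (Nat.pow_le_pow_right (by norm_num) hi')
          exact_mod_cast this
        calc |(Q.coeff i : ℝ)| * (g : ℝ) ^ (n - i) * (|(c : ℝ)| ^ (i - l) * (i.choose l : ℝ))
            ≤ H * (g : ℝ) ^ (n - i) * ((g : ℝ) ^ i * 2 ^ n) := by
              have := hH i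
              gcongr
          _ = 2 ^ n * ((g : ℝ) ^ (n - i) * g ^ i * H) := by ring
          _ = 2 ^ n * ((g : ℝ) ^ n * H) := by rw [← pow_add, Nat.sub_add_cancel hi']
    _ = (n + 1) * 2 ^ n * (g ^ n * H) := by simp; ring

theorem eq_zero_of_aeval_eq_zero (Q : ℤ[X]) (h : ∀ x : ℝ, aeval x Q = 0) : Q = 0 := by
  have h1 : Q.map (Int.castRingHom ℝ) = 0 := by
    apply Polynomial.funext
    intro x
    rw [eval_zero, ← h x, aeval_def, eval₂_eq_eval_map]
    rfl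
  exact (Polynomial.map_eq_zero_iff (Int.castRingHom ℝ).injective_int).1 h1

theorem Good.center_ne_zero {d a : ℕ} {γ : ℝ} (G : Good d a γ) {n : ℕ} (hn : n < d) (g : ℕ)
    (hg : 1 ≤ g) (c : ℤ) (Q : ℤ[X]) (hQ : Q.natDegree ≤ n) (h0 : Q ≠ 0) :
    aeval ((c + γ) / g) Q ≠ 0 := by
  have hg0 : (g : ℝ) ≠ 0 := by positivity
  have h1 : shiftPoly n g c Q ≠ 0 := by
    intro e
    apply h0
    apply eq_zero_of_aeval_eq_zero
    intro x
    have := aeval_shiftPoly n g hg c Q hQ (g * x - c)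
    rw [e, map_zero, show ((c : ℝ) + (g * x - c)) / g = x by field_simp; ring] at this
    exact (mul_eq_zero.1 this.symm).resolve_left (by positivity)
  have := G.poly_ne_zero hn _ (natDegree_shiftPoly n g c Q) h1
  rw [aeval_shiftPoly n g hg c Q hQ] at this
  exact right_ne_zero_of_mul this

theorem Good.center_lower {d a : ℕ} {γ : ℝ} (G : Good d a γ) (n : ℕ) :
    ∃ c0 : ℝ, 0 < c0 ∧ ∀ g : ℕ, 1 ≤ g → ∀ c : ℤ, |(c : ℝ)| ≤ g → ∀ Q : ℤ[X], Q.natDegree ≤ n →
      ∀ H : ℝ, 1 ≤ H → (∀ i, |(Q.coeff i : ℝ)| ≤ H) → aeval ((c + γ) / g) Q ≠ 0 →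
        c0 ≤ |aeval ((c + γ) / g) Q| * g ^ n * (g ^ n * H) ^ (3 * n) := by
  obtain ⟨c1, hc1, hl⟩ := G.poly_lower n
  refine ⟨c1 / ((n + 1) * 2 ^ n) ^ (3 * n), by positivity, fun g hg c hc Q hQ H hH hb h0 => ?_⟩
  have hg1 : (1 : ℝ) ≤ g := by exact_mod_cast hg
  have h1 : (1 : ℝ) ≤ (n + 1) * 2 ^ n * (g ^ n * H) := by
    have a1 : (1 : ℝ) ≤ n + 1 := by have : (0 : ℝ) ≤ n := by positivity
                                    linarith
    have a2 : (1 : ℝ) ≤ 2 ^ n := one_le_pow₀ (by norm_num)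
    have a3 : (1 : ℝ) ≤ g ^ n := one_le_pow₀ hg1
    exact one_le_mul_of_one_le_of_one_le (one_le_mul_of_one_le_of_one_le a1 a2)
      (one_le_mul_of_one_le_of_one_le a3 hH)
  have key := hl _ (natDegree_shiftPoly n g c Q) _ h1 (coeff_shiftPoly_le n g hg c hc Q H hb) (by
    rw [aeval_shiftPoly n g hg c Q hQ]
    exact mul_ne_zero (by positivity) h0)
  rw [aeval_shiftPoly n g hg c Q hQ, abs_mul, abs_of_pos (by positivity : (0 : ℝ) < (g : ℝ) ^ n),
    mul_pow] at key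
  rw [div_le_iff₀ (by positivity)]
  linarith

end Pool.Agent.Lib.MP_0496af_nt
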