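import Mathlib
import Pool.Agent.Lib.MP_0496af_nt.Center

/-!
Heights, counting of integer polynomials, proximity to roots, and a Taylor lower bound.
-/

set_option autoImplicit false

namespace Pool.Agent.Lib.MP_0496af_nt

open Finset Polynomial
open scoped Nat

/-- The naive height of an integer polynomial. -/
def ht (P : ℤ[X]) : ℕ := P.support.sup (fun i => (P.coeff i).natAbs)

theorem natAbs_coeff_le_ht (P : ℤ[X]) (i : ℕ) : (P.coeff i).natAbs ≤ ht P := by
  by_cases h : P.coeff i = 0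
  · simp [h]
  · exact Finset.le_sup (f := fun i => (P.coeff i).natAbs) (mem_support_iff.2 h)

theorem abs_coeff_le_ht (P : ℤ[X]) (i : ℕ) : |(P.coeff i : ℝ)| ≤ ht P := by
  have := natAbs_coeff_le_ht P i
  rw [← Int.cast_abs, ← Nat.cast_natAbs]
  exact_mod_cast this

theorem one_le_ht {P : ℤ[X]} (h : P ≠ 0) : 1 ≤ ht P :=
  le_trans (Int.natAbs_pos.2 (leadingCoeff_ne_zero.2 h)) (natAbs_coeff_le_ht P P.natDegree)

theorem ht_le {P : ℤ[X]} {B : ℝ} (h : ∀ i, |(P.coeff i : ℝ)| ≤ B) : (ht P : ℝ) ≤ B := by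
  have hB : 0 ≤ B := (abs_nonneg _).trans (h 0)
  have : ht P ≤ ⌊B⌋₊ := by
    refine Finset.sup_le fun i _ => Nat.le_floor ?_
    rw [Nat.cast_natAbs, Int.cast_abs]
    exact h i
  exact (Nat.cast_le.2 this).trans (Nat.floor_le hB)

/-- A finite set containing the integer polynomials of degree at most `n` and height at most `H`. -/
noncomputable def box (n H : ℕ) : Finset ℤ[X] :=
  (Fintype.piFinset (fun _ : Fin (n + 1) => Icc (-(H : ℤ)) H)).image (ofFn (n + 1))

theorem mem_box {n H : ℕ} {P : ℤ[X]} (h1 : P.natDegree ≤ n) (h2 : ht P ≤ H) : P ∈ box n H := by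
  unfold box
  rw [mem_image]
  refine ⟨toFn (n + 1) P, ?_, ofFn_comp_toFn_eq_id_of_natDegree_lt (by omega)⟩
  rw [Fintype.mem_piFinset]
  intro i
  have := (natAbs_coeff_le_ht P i).trans h2
  have e : toFn (n + 1) P i = P.coeff i := by simp [toFn]
  rw [e, mem_Icc]
  omega

theorem card_box (n H : ℕ) : (box n H).card ≤ (2 * H + 1) ^ (n + 1) := by
  unfold box
  refine card_image_le.trans ?_
  rw [Fintype.card_piFinset]
  simp only [Int.card_Icc, prod_const, card_univ, Fintype.card_fin]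
  apply Nat.pow_le_pow_left
  omega

theorem finite_ht_le (n : ℕ) (B : ℝ) : {P : ℤ[X] | P.natDegree ≤ n ∧ (ht P : ℝ) ≤ B}.Finite := by
  refine (box n ⌊B⌋₊).finite_toSet.subset ?_
  rintro P ⟨h1, h2⟩
  exact mem_box h1 (Nat.le_floor h2)

theorem sum_inv_sq_le (M : ℕ) : ∑ H ∈ Icc 1 M, 1 / (H : ℝ) ^ 2 ≤ 2 := by
  have : ∀ M : ℕ, ∑ H ∈ Icc 1 (M + 1), 1 / (H : ℝ) ^ 2 ≤ 2 - 1 / (M + 1 : ℝ) := by
    intro M
    induction M with
    | zero => norm_num
    | succ M ih =>
      rw [sum_Icc_succ_top (by omega)]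
      have h1 : (0 : ℝ) < M + 1 := by positivity
      have : 1 / ((M + 1 + 1 : ℕ) : ℝ) ^ 2 ≤ 1 / (M + 1 : ℝ) - 1 / ((M + 1 : ℕ) + 1 : ℝ) := by
        push_cast
        rw [div_sub_div _ _ (by positivity) (by positivity), div_le_div_iff₀ (by positivity)
          (by positivity)]
        nlinarith
      linarith
  rcases M with _ | M
  · simp
  · have h := this M
    have : (0 : ℝ) ≤ 1 / (M + 1 : ℝ) := by positivity
    linarith

theorem sum_inv_ht_le (n : ℕ) (T : Finset ℤ[X]) (hT : ∀ P ∈ T, P ≠ 0 ∧ P.natDegree ≤ n) :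
    ∑ P ∈ T, 1 / (ht P : ℝ) ^ (n + 3) ≤ 2 * 3 ^ (n + 1) := by
  rw [← sum_fiberwise_of_maps_to (g := ht) (t := Icc 1 (T.sup ht))
    (fun P hP => mem_Icc.2 ⟨one_le_ht (hT P hP).1, le_sup hP⟩)]
  calc ∑ H ∈ Icc 1 (T.sup ht), ∑ P ∈ T with ht P = H, 1 / (ht P : ℝ) ^ (n + 3)
      ≤ ∑ H ∈ Icc 1 (T.sup ht), 3 ^ (n + 1) * (1 / (H : ℝ) ^ 2) := by
        refine sum_le_sum fun H hH => ?_
        have hH1 : 1 ≤ H := (mem_Icc.1 hH).1
        have hH1' : (1 : ℝ) ≤ H := by exact_mod_cast hH1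
        rw [sum_congr rfl (g := fun _ => 1 / (H : ℝ) ^ (n + 3))
          (fun P hP => by rw [(mem_filter.1 hP).2]), sum_const, nsmul_eq_mul]
        have h1 : (T.filter (fun P => ht P = H)).card ≤ (3 * H) ^ (n + 1) := by
          refine (card_le_card (t := box n H) fun P hP => ?_).trans ((card_box n H).trans ?_)
          · rw [mem_filter] at hP
            exact mem_box (hT P hP.1).2 hP.2.le
          · exact Nat.pow_le_pow_left (by omega) _
        have h2 : ((T.filter (fun P => ht P = H)).card : ℝ) ≤ (3 * H) ^ (n + 1) := by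
          exact_mod_cast h1
        calc ((T.filter (fun P => ht P = H)).card : ℝ) * (1 / (H : ℝ) ^ (n + 3))
            ≤ (3 * H) ^ (n + 1) * (1 / (H : ℝ) ^ (n + 3)) := by gcongr
          _ = 3 ^ (n + 1) * (1 / (H : ℝ) ^ 2) := by
              rw [mul_pow]; field_simp; ring
    _ = 3 ^ (n + 1) * ∑ H ∈ Icc 1 (T.sup ht), 1 / (H : ℝ) ^ 2 := by rw [mul_sum]
    _ ≤ 3 ^ (n + 1) * 2 := by gcongr; exact sum_inv_sq_le _
    _ = 2 * 3 ^ (n + 1) := by ring

theorem near_root (n : ℕ) (P : ℤ[X]) (h0 : P ≠ 0) (hP : P.natDegree ≤ n) :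
    ∃ T : Finset ℝ, T.card ≤ n ∧ ∀ x r : ℝ, 0 ≤ r → r ≤ 1 → |aeval x P| < r ^ n →
      ∃ α ∈ T, |x - α| ≤ r := by
  let Pc : ℂ[X] := P.map (Int.castRingHom ℂ)
  have hc : Multiset.card Pc.roots ≤ n :=
    (card_roots' _).trans (natDegree_map_le.trans hP)
  refine ⟨(Pc.roots.map Complex.re).toFinset, ?_, ?_⟩
  · exact (Multiset.toFinset_card_le _).trans (by simpa using hc)
  · intro x r hr0 hr1 hx
    by_contra hcon
    push Not at hcon
    have h1 : Pc.eval (x : ℂ) = ((aeval x P : ℝ) : ℂ) := by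
      rw [aeval_eq_sum P hP, eval_eq_sum_range' (n := n + 1)
        (lt_of_le_of_lt (natDegree_map_le.trans hP) (by omega))]
      simp
    have h2 := (IsAlgClosed.splits Pc).eval_eq_prod_roots (x : ℂ)
    have h3 : (1 : ℝ) ≤ ‖Pc.leadingCoeff‖ := by
      simp only [Pc]
      rw [leadingCoeff_map_of_injective (Int.castRingHom ℂ).injective_int, eq_intCast,
        Complex.norm_intCast]
      exact_mod_cast Int.one_le_abs (leadingCoeff_ne_zero.2 h0)
    have h4 : r ^ Multiset.card Pc.roots ≤ ‖(Pc.roots.map ((x : ℂ) - ·)).prod‖ := by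
      have e1 : ‖(Pc.roots.map ((x : ℂ) - ·)).prod‖
          = (Pc.roots.map (fun α => ‖(x : ℂ) - α‖)).prod := by
        have := map_multiset_prod (normHom : ℂ →*₀ ℝ) (Pc.roots.map ((x : ℂ) - ·))
        rw [Multiset.map_map] at this
        exact this
      rw [e1, ← Multiset.prod_replicate, ← Multiset.map_const]
      refine Multiset.prod_map_le_prod_map₀ _ _ (fun _ _ => hr0) fun α hα => ?_
      have := hcon α.re (Multiset.mem_toFinset.2 (Multiset.mem_map_of_mem _ hα))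
      refine this.le.trans ?_
      have := Complex.abs_re_le_norm ((x : ℂ) - α)
      simpa using this
    have h5 : r ^ n ≤ r ^ Multiset.card Pc.roots := pow_le_pow_of_le_one hr0 hr1 hc
    have h6 : ‖Pc.eval (x : ℂ)‖ = |aeval x P| := by rw [h1, Complex.norm_real, Real.norm_eq_abs]
    rw [h2, norm_mul] at h6
    have h7 : 0 ≤ ‖(Pc.roots.map ((x : ℂ) - ·)).prod‖ := norm_nonneg _
    nlinarith

theorem card_le_of_subset_interval (S : Finset ℕ) (lo w : ℝ) (hw : 0 ≤ w)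
    (h : ∀ t ∈ S, lo ≤ t ∧ (t : ℝ) ≤ lo + w) : (S.card : ℝ) ≤ w + 1 := by
  have h1 : S.map Nat.castEmbedding ⊆ Icc ⌈lo⌉ ⌊lo + w⌋ := by
    intro z hz
    rw [mem_map] at hz
    obtain ⟨t, ht, rfl⟩ := hz
    rw [mem_Icc, Int.ceil_le, Int.le_floor]
    simpa using h t ht
  have h2 := card_le_card h1
  rw [card_map, Int.card_Icc] at h2
  have h3 : (S.card : ℤ) ≤ max (⌊lo + w⌋ + 1 - ⌈lo⌉) 0 := by
    rw [← Int.toNat_eq_max]; exact_mod_cast h2
  have h4 : (S.card : ℝ) ≤ max ((⌊lo + w⌋ : ℝ) + 1 - ⌈lo⌉) 0 := by exact_mod_cast h3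
  refine h4.trans (max_le ?_ (by linarith))
  have := Int.floor_le (lo + w)
  have := Int.le_ceil lo
  linarith

/-- Few of the points `(c + t) / g` make a given polynomial small. -/
theorem card_small_le (n : ℕ) (P : ℤ[X]) (h0 : P ≠ 0) (hP : P.natDegree ≤ n) (c g r : ℝ)
    (hg : 0 < g) (hr0 : 0 ≤ r) (hr1 : r ≤ 1) (S : Finset ℕ)
    (hS : ∀ t ∈ S, |aeval ((c + t) / g) P| < r ^ n) : (S.card : ℝ) ≤ n * (2 * r * g + 1) := by
  classical
  obtain ⟨T, hT1, hT2⟩ := near_root n P h0 hP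
  have h1 : S ⊆ T.biUnion (fun α => S.filter (fun t : ℕ => |(c + t) / g - α| ≤ r)) := by
    intro t ht
    obtain ⟨α, hα, h⟩ := hT2 _ r hr0 hr1 (hS t ht)
    exact mem_biUnion.2 ⟨α, hα, mem_filter.2 ⟨ht, h⟩⟩
  have h2 := (card_le_card h1).trans card_biUnion_le
  have h3 : (S.card : ℝ) ≤ ∑ α ∈ T, ((S.filter (fun t : ℕ => |(c + t) / g - α| ≤ r)).card : ℝ) := by
    exact_mod_cast h2
  refine h3.trans ?_
  calc ∑ α ∈ T, ((S.filter (fun t : ℕ => |(c + t) / g - α| ≤ r)).card : ℝ)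
      ≤ ∑ _α ∈ T, (2 * r * g + 1) := by
        refine sum_le_sum fun α _ => ?_
        refine card_le_of_subset_interval _ ((α - r) * g - c) (2 * r * g) (by positivity)
          fun t ht => ?_
        have := abs_le.1 (mem_filter.1 ht).2
        have a1 : α - r ≤ (c + t) / g := by linarith
        have a2 : (c + t) / g ≤ α + r := by linarith
        rw [le_div_iff₀ hg] at a1
        rw [div_le_iff₀ hg] at a2
        constructor <;> linarith
    _ = T.card * (2 * r * g + 1) := by rw [sum_const, nsmul_eq_mul]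
    _ ≤ n * (2 * r * g + 1) := by
        gcongr

theorem coeff_hasseDeriv_le (n : ℕ) (P : ℤ[X]) (hP : P.natDegree ≤ n) (H : ℝ)
    (hH : ∀ i, |(P.coeff i : ℝ)| ≤ H) (e i : ℕ) :
    |((hasseDeriv e P).coeff i : ℝ)| ≤ 2 ^ n * H := by
  have hH0 : 0 ≤ H := (abs_nonneg _).trans (hH 0)
  rw [hasseDeriv_coeff]
  by_cases h : i + e ≤ n
  · push_cast
    rw [abs_mul, Nat.abs_cast]
    refine mul_le_mul ?_ (hH _) (abs_nonneg _) (by positivity)
    have : (i + e).choose e ≤ 2 ^ n :=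
      (Nat.choose_le_two_pow _ _).trans (Nat.pow_le_pow_right (by norm_num) h)
    exact_mod_cast this
  · rw [coeff_eq_zero_of_natDegree_lt (by omega)]
    simp only [mul_zero, Int.cast_zero, abs_zero]
    positivity

theorem abs_aeval_le (n : ℕ) (P : ℤ[X]) (hP : P.natDegree ≤ n) (H : ℝ)
    (hH : ∀ i, |(P.coeff i : ℝ)| ≤ H) (x : ℝ) (hx : |x| ≤ 1) : |aeval x P| ≤ (n + 1) * H := by
  rw [aeval_eq_sum P hP]
  calc |∑ i ∈ range (n + 1), (P.coeff i : ℝ) * x ^ i|
      ≤ ∑ i ∈ range (n + 1), |(P.coeff i : ℝ) * x ^ i| := abs_sum_le_sum_abs _ _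
    _ ≤ ∑ _i ∈ range (n + 1), H := by
        refine sum_le_sum fun i _ => ?_
        rw [abs_mul, abs_pow]
        exact (mul_le_of_le_one_right (abs_nonneg _) (pow_le_one₀ (abs_nonneg _) hx)).trans (hH i)
    _ = (n + 1) * H := by simp

theorem aeval_add_eq (n : ℕ) (P : ℤ[X]) (hP : P.natDegree ≤ n) (x s : ℝ) :
    aeval (x + s) P = ∑ j ∈ range (n + 1), aeval x (hasseDeriv j P) * s ^ j := by
  have e1 : ∀ (Q : ℤ[X]) (y : ℝ), aeval y Q = (Q.map (Int.castRingHom ℝ)).eval y := by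
    intro Q y
    rw [aeval_def, eval₂_eq_eval_map]
    rfl
  have e2 : ∀ j, (hasseDeriv j P).map (Int.castRingHom ℝ)
      = hasseDeriv j (P.map (Int.castRingHom ℝ)) := by
    intro j
    ext i
    simp [hasseDeriv_coeff]
  rw [e1, add_comm, ← taylor_eval, eval_eq_sum_range' (n := n + 1)
    (by rw [natDegree_taylor]; exact lt_of_le_of_lt (natDegree_map_le.trans hP) (by omega))]
  refine sum_congr rfl fun j _ => ?_
  rw [taylor_coeff, e1, e2]

theorem taylor_lower (n : ℕ) (P : ℤ[X]) (h0 : P ≠ 0) (hP : P.natDegree ≤ n) (H : ℝ)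
    (hH : ∀ i, |(P.coeff i : ℝ)| ≤ H) (x s : ℝ) (hx : |x| ≤ 1) (hs0 : 0 ≤ s) (hs1 : s ≤ 1) :
    ∃ e ≤ n, aeval x (hasseDeriv e P) ≠ 0 ∧ (aeval x P ≠ 0 → e = 0) ∧
      s ^ e * (|aeval x (hasseDeriv e P)| - (n + 1) ^ 2 * 2 ^ n * H * s) ≤ |aeval (x + s) P| := by
  classical
  have hH0 : 0 ≤ H := (abs_nonneg _).trans (hH 0)
  have hex : ∃ e, aeval x (hasseDeriv e P) ≠ 0 := by
    refine ⟨P.natDegree, ?_⟩
    rw [hasseDeriv_natDegree_eq_C, aeval_C, eq_intCast]
    exact_mod_cast leadingCoeff_ne_zero.2 h0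
  have he1 := Nat.find_spec hex
  have he2 : ∀ j < Nat.find hex, aeval x (hasseDeriv j P) = 0 := fun j hj => by
    simpa using Nat.find_min hex hj
  have he3 : Nat.find hex ≤ n := by
    by_contra hc
    rw [hasseDeriv_eq_zero_of_lt_natDegree P _ (by omega)] at he1
    simp at he1
  refine ⟨Nat.find hex, he3, he1, ?_, ?_⟩
  · intro h
    rw [Nat.find_eq_zero]
    simpa using h
  · generalize Nat.find hex = e at he1 he2 he3
    rw [aeval_add_eq n P hP, ← add_sum_erase _ _ (mem_range.2 (Nat.lt_succ_of_le he3))]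
    have hb : |∑ j ∈ (range (n + 1)).erase e, aeval x (hasseDeriv j P) * s ^ j|
        ≤ s ^ e * ((n + 1) ^ 2 * 2 ^ n * H * s) := by
      calc |∑ j ∈ (range (n + 1)).erase e, aeval x (hasseDeriv j P) * s ^ j|
          ≤ ∑ j ∈ (range (n + 1)).erase e, |aeval x (hasseDeriv j P) * s ^ j| :=
            abs_sum_le_sum_abs _ _
        _ ≤ ∑ _j ∈ (range (n + 1)).erase e, (n + 1) * (2 ^ n * H) * s ^ (e + 1) := by
            refine sum_le_sum fun j hj => ?_
            rcases lt_or_gt_of_ne (ne_of_mem_erase hj) with h | h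
            · rw [he2 j h, zero_mul, abs_zero]; positivity
            · rw [abs_mul, abs_of_nonneg (pow_nonneg hs0 j)]
              refine mul_le_mul ?_ (pow_le_pow_of_le_one hs0 hs1 h) (by positivity) (by positivity)
              exact abs_aeval_le n _ ((natDegree_hasseDeriv_le P j).trans (by omega)) _
                (coeff_hasseDeriv_le n P hP H hH j) x hx
        _ = ((range (n + 1)).erase e).card * ((n + 1) * (2 ^ n * H) * s ^ (e + 1)) := by simp
        _ ≤ (n + 1 : ℕ) * ((n + 1) * (2 ^ n * H) * s ^ (e + 1)) := by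
            gcongr
            exact card_erase_le.trans (card_range _).le
        _ = s ^ e * ((n + 1) ^ 2 * 2 ^ n * H * s) := by push_cast; ring
    have h1 := abs_sub_abs_le_abs_sub (aeval x (hasseDeriv e P) * s ^ e)
      (-∑ j ∈ (range (n + 1)).erase e, aeval x (hasseDeriv j P) * s ^ j)
    rw [abs_neg, sub_neg_eq_add, abs_mul, abs_of_nonneg (pow_nonneg hs0 e)] at h1
    nlinarith

end Pool.Agent.Lib.MP_0496af_nt
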