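import Mathlib
import Pool.Agent.Lib.MP_0496af_nt.PolyTools

/-!
The Diophantine part of one step of the nested interval construction.
-/

set_option autoImplicit false

namespace Pool.Agent.Lib.MP_0496af_nt

open Finset Polynomial
open scoped Nat

/-- Order of approximation used with degree `d`. -/
def tau (d : ℕ) : ℕ := (d + 1) * d ^ 2 + 2
/-- Strong exponent. -/
def Wst (n : ℕ) : ℕ := (n + 4) * n * (3 * n + 1) + 3 * n + 1
/-- Threshold exponent. -/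
def Vth (n : ℕ) : ℕ := Wst n + 2
/-- Auxiliary exponent. -/
def Eex (n : ℕ) : ℕ := n + 4 + 3 * Vth n + (n + 4) * tau n + Vth n
/-- Final exponent. -/
def Wfin (n : ℕ) : ℕ := n * Eex n

theorem tau_mono {d n : ℕ} (h : d ≤ n) : tau d ≤ tau n := by unfold tau; gcongr

theorem Vth_mono {d n : ℕ} (h : d ≤ n) : Vth d ≤ Vth n := by unfold Vth Wst; gcongr

theorem Wfin_mono {d n : ℕ} (h : d ≤ n) : Wfin d ≤ Wfin n := by
  unfold Wfin Eex
  have := tau_mono h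
  have := Vth_mono h
  gcongr

theorem Eex_le_Wfin {n : ℕ} (hn : 1 ≤ n) : Eex n ≤ Wfin n := Nat.le_mul_of_pos_left _ hn

theorem Wfin_ge {n : ℕ} (hn : 1 ≤ n) : Wst n + (n + 4) * (tau n * n) + 1 ≤ Wfin n := by
  have : Vth n ≤ n * Vth n := Nat.le_mul_of_pos_left _ hn
  have e : Wfin n = n * (n + 4 + 3 * Vth n) + (n + 4) * (tau n * n) + n * Vth n := by
    unfold Wfin Eex; ring
  have : Vth n = Wst n + 2 := rfl
  omega

/-- The exponent used to define the bad centres. -/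
def Fex (n g H : ℕ) : ℕ := if H ^ (Wfin n + 2) ≤ g then Eex n else n + 4

theorem good_point {d a : ℕ} {γ : ℝ} (G : Good d a γ) (n : ℕ) (hn : 1 ≤ n) (c0 : ℝ)
    (g : ℕ) (hg : 2 ≤ g) (c : ℤ)
    (hc0 : ∀ Q : ℤ[X], Q.natDegree ≤ n →
      ∀ H : ℝ, 1 ≤ H → (∀ i, |(Q.coeff i : ℝ)| ≤ H) → aeval ((c + γ) / g) Q ≠ 0 →
        c0 ≤ |aeval ((c + γ) / g) Q| * g ^ n * (g ^ n * H) ^ (3 * n))
    (hξ : |(c + γ) / g| ≤ 1) (s : ℝ) (hs1 : 1 / (g : ℝ) ^ tau d ≤ s) (hs2 : s ≤ 2 / (g : ℝ) ^ tau d)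
    (P : ℤ[X]) (hP0 : P ≠ 0) (hPn : P.natDegree ≤ n)
    (hH1 : 2 * ((n + 1) ^ 2 * 2 ^ n) ≤ (ht P : ℝ))
    (hH2 : 2 * (2 ^ n) ^ (3 * n) ≤ c0 * (ht P : ℝ))
    (hV : (ht P : ℝ) ^ Vth n * (1 / (g : ℝ) ^ tau d) ≤ 1)
    (hgood : ht P ^ (n + 4) ≤ g →
      (3 / (ht P : ℝ) ^ Fex n g (ht P)) ^ n ≤ |aeval ((c + γ) / g) P|) :
    1 < |aeval ((c + γ) / g + s) P| * (ht P : ℝ) ^ Wfin n := by
  have hg2 : (2 : ℝ) ≤ g := by exact_mod_cast hg
  have hgτ : (g : ℝ) ≤ (g : ℝ) ^ tau d := by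
    calc (g : ℝ) = g ^ 1 := (pow_one _).symm
      _ ≤ (g : ℝ) ^ tau d := pow_le_pow_right₀ (by linarith) (by unfold tau; omega)
  have hgτ0 : (0 : ℝ) < (g : ℝ) ^ tau d := by positivity
  have hs0 : 0 < s := lt_of_lt_of_le (by positivity) hs1
  have hsle : s ≤ 1 := hs2.trans (by rw [div_le_one hgτ0]; linarith)
  obtain ⟨e, he1, he2, he3, he4⟩ := taylor_lower n P hP0 hPn (ht P) (abs_coeff_le_ht P)
    ((c + γ) / g) s hξ hs0.le hsle
  set Cn : ℝ := (n + 1) ^ 2 * 2 ^ n with hCn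
  have hCn1 : 1 ≤ Cn := by
    have a1 : (1 : ℝ) ≤ (n + 1) ^ 2 := one_le_pow₀ (by
      have : (0 : ℝ) ≤ n := by positivity
      linarith)
    exact one_le_mul_of_one_le_of_one_le a1 (one_le_pow₀ (by norm_num))
  set H : ℝ := (ht P : ℝ) with hHdef
  have hH : 2 ≤ H := by linarith
  have hH0 : 0 < H := by linarith
  have hH1' : 1 ≤ H := by linarith
  have hWW : Wst n + 1 ≤ Wfin n := le_trans (by omega) (Wfin_ge hn)
  -- the error term when the threshold is used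
  have herr : ∀ w : ℕ, s * H ^ (w + 2) ≤ 2 → Cn * H * s * H ^ w ≤ 1 := by
    intro w hw
    have h1 : Cn * H * s * H ^ w * H = Cn * (s * H ^ (w + 2)) := by ring
    have h2 : Cn * (s * H ^ (w + 2)) ≤ Cn * 2 := by gcongr
    have h3 : Cn * H * s * H ^ w * H ≤ 1 * H := by linarith
    exact le_of_mul_le_mul_right h3 hH0
  have hsV : s * H ^ (Wst n + 2) ≤ 2 := by
    have : s * H ^ Vth n ≤ 2 / (g : ℝ) ^ tau d * H ^ Vth n := by gcongr
    have e : 2 / (g : ℝ) ^ tau d * H ^ Vth n = 2 * (H ^ Vth n * (1 / (g : ℝ) ^ tau d)) := by ring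
    have e' : Wst n + 2 = Vth n := rfl
    rw [e']
    linarith
  have h3n : ∀ F : ℕ, 3 ≤ (3 / H ^ F) ^ n * H ^ (n * F) := by
    intro F
    rw [div_pow, ← pow_mul, mul_comm F n, div_mul_cancel₀ _ (by positivity)]
    calc (3 : ℝ) = 3 ^ 1 := by norm_num
      _ ≤ 3 ^ n := pow_le_pow_right₀ (by norm_num) hn
  by_cases hab : ht P ^ (n + 4) ≤ g
  · have hg' := hgood hab
    have hne : aeval ((c + γ) / g) P ≠ 0 := by
      intro e0
      rw [e0, abs_zero] at hg'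
      have : (0 : ℝ) < (3 / H ^ Fex n g (ht P)) ^ n := by positivity
      linarith
    have e0 := he3 hne
    subst e0
    rw [pow_zero, one_mul, hasseDeriv_zero'] at he4
    by_cases ha : ht P ^ (Wfin n + 2) ≤ g
    · have hF : Fex n g (ht P) = Eex n := if_pos ha
      rw [hF] at hg'
      have ha' : H ^ (Wfin n + 2) ≤ g := by rw [hHdef]; exact_mod_cast ha
      have h1 : s * H ^ (Wfin n + 2) ≤ 2 := by
        calc s * H ^ (Wfin n + 2) ≤ 2 / (g : ℝ) ^ tau d * (g : ℝ) ^ tau d := by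
              gcongr; exact ha'.trans hgτ
          _ = 2 := div_mul_cancel₀ _ hgτ0.ne'
      have h2 := herr _ h1
      have h3 := h3n (Eex n)
      have h4 : (3 / H ^ Eex n) ^ n * H ^ (n * Eex n)
          ≤ |aeval ((c + γ) / g) P| * H ^ Wfin n := by
        unfold Wfin; gcongr
      have h5 : (|aeval ((c + γ) / g) P| - Cn * H * s) * H ^ Wfin n
          ≤ |aeval ((c + γ) / g + s) P| * H ^ Wfin n := by gcongr
      nlinarith
    · have hF : Fex n g (ht P) = n + 4 := if_neg ha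
      rw [hF] at hg'
      have h2 := herr _ hsV
      have h3 := h3n (n + 4)
      have h4 : (3 / H ^ (n + 4)) ^ n * H ^ (n * (n + 4))
          ≤ |aeval ((c + γ) / g) P| * H ^ Wst n := by
        gcongr
        unfold Wst
        nlinarith [Nat.zero_le ((n + 4) * n * n)]
      have h5 : (|aeval ((c + γ) / g) P| - Cn * H * s) * H ^ Wst n
          ≤ |aeval ((c + γ) / g + s) P| * H ^ Wst n := by gcongr
      have h6 : |aeval ((c + γ) / g + s) P| * H ^ Wst n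
          ≤ |aeval ((c + γ) / g + s) P| * H ^ Wfin n := by
        gcongr; omega
      nlinarith
  · have hgH : (g : ℝ) ≤ H ^ (n + 4) := by
      rw [hHdef]; exact_mod_cast (not_le.1 hab).le
    have hq := hc0 (hasseDeriv e P) ((natDegree_hasseDeriv_le P e).trans (by omega)) (2 ^ n * H)
      (one_le_mul_of_one_le_of_one_le (one_le_pow₀ (by norm_num)) hH1')
      (coeff_hasseDeriv_le n P hPn H (abs_coeff_le_ht P) e) he2
    set q : ℝ := |aeval ((c + γ) / g) (hasseDeriv e P)| with hqdef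
    have hq0 : 0 ≤ q := abs_nonneg _
    have h1 : c0 ≤ q * H ^ ((n + 4) * n * (3 * n + 1) + 3 * n) * (2 ^ n) ^ (3 * n) := by
      calc c0 ≤ q * g ^ n * (g ^ n * (2 ^ n * H)) ^ (3 * n) := hq
        _ ≤ q * (H ^ (n + 4)) ^ n * ((H ^ (n + 4)) ^ n * (2 ^ n * H)) ^ (3 * n) := by gcongr
        _ = _ := by
          simp only [mul_pow, ← pow_mul]
          ring
    have h2 : 2 ≤ q * H ^ Wst n := by
      have e1 : q * H ^ Wst n * (2 ^ n) ^ (3 * n)
          = q * H ^ ((n + 4) * n * (3 * n + 1) + 3 * n) * (2 ^ n) ^ (3 * n) * H := by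
        unfold Wst; ring
      have e2 : c0 * H ≤ q * H ^ ((n + 4) * n * (3 * n + 1) + 3 * n) * (2 ^ n) ^ (3 * n) * H := by
        gcongr
      have e3 : 2 * (2 ^ n) ^ (3 * n) ≤ q * H ^ Wst n * (2 ^ n) ^ (3 * n) := by linarith
      exact le_of_mul_le_mul_right e3 (by positivity)
    have h3 := herr _ hsV
    have h4 : s ^ e ≤ |aeval ((c + γ) / g + s) P| * H ^ Wst n := by
      calc s ^ e = s ^ e * 1 := (mul_one _).symm
        _ ≤ s ^ e * ((q - Cn * H * s) * H ^ Wst n) := by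
            gcongr; nlinarith
        _ = s ^ e * (q - Cn * H * s) * H ^ Wst n := by ring
        _ ≤ |aeval ((c + γ) / g + s) P| * H ^ Wst n := by gcongr
    have h5 : 1 ≤ s ^ e * H ^ ((n + 4) * (tau n * n)) := by
      rcases Nat.eq_zero_or_pos e with e0 | e0
      · rw [e0, pow_zero, one_mul]; exact one_le_pow₀ hH1'
      · have hz : aeval ((c + γ) / g) P = 0 := by
          by_contra hc
          have := he3 hc
          omega
        have hdn : d ≤ n := by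
          by_contra hc
          exact G.center_ne_zero (not_le.1 hc) g (by omega) c P hPn hP0 hz
        have a1 : 1 ≤ s * (g : ℝ) ^ tau d := by rwa [div_le_iff₀ hgτ0] at hs1
        have a2 : (g : ℝ) ^ tau d ≤ (H ^ (n + 4)) ^ tau n :=
          (pow_le_pow_right₀ (by linarith) (tau_mono hdn)).trans
            (pow_le_pow_left₀ (by positivity) hgH _)
        calc (1 : ℝ) ≤ (s * (H ^ (n + 4)) ^ tau n) ^ n := one_le_pow₀ (by nlinarith)
          _ = s ^ n * H ^ ((n + 4) * (tau n * n)) := by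
              rw [mul_pow, ← pow_mul, ← pow_mul]
          _ ≤ s ^ e * H ^ ((n + 4) * (tau n * n)) := by
              gcongr ?_ * _
              exact pow_le_pow_of_le_one hs0.le hsle he1
    calc (1 : ℝ) < 1 * H := by linarith
      _ ≤ s ^ e * H ^ ((n + 4) * (tau n * n)) * H := by gcongr
      _ ≤ |aeval ((c + γ) / g + s) P| * H ^ Wst n * H ^ ((n + 4) * (tau n * n)) * H := by gcongr
      _ = |aeval ((c + γ) / g + s) P| * H ^ (Wst n + (n + 4) * (tau n * n) + 1) := by ring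
      _ ≤ |aeval ((c + γ) / g + s) P| * H ^ Wfin n := by
          gcongr; exact Wfin_ge hn

theorem count_single (n : ℕ) (hn : 1 ≤ n) (g : ℕ) (P : ℤ[X]) (hP0 : P ≠ 0)
    (hPn : P.natDegree ≤ n) (H1 δ0 δ c : ℝ) (hH1 : 3 ≤ H1) (hδ0 : 0 < δ0) (hδ : δ0 ^ 3 ≤ δ)
    (hH : H1 ≤ ht P) (hV : 1 < (ht P : ℝ) ^ Vth n * δ0) (hg : ht P ^ (n + 4) ≤ g)
    (hg2 : (H1 / δ) ^ (Wfin n + 2) ≤ g) (S : Finset ℕ)
    (hS : ∀ t ∈ S, |aeval ((c + t) / g) P| < (3 / (ht P : ℝ) ^ Fex n g (ht P)) ^ n) :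
    (S.card : ℝ) ≤ 7 * n * g * δ / H1 * (1 / (ht P : ℝ) ^ (n + 3)) := by
  have hδpos : 0 < δ := lt_of_lt_of_le (by positivity) hδ
  set H : ℝ := (ht P : ℝ) with hHdef
  have hH3 : 3 ≤ H := hH1.trans hH
  have hH0 : 0 < H := by linarith
  have hg' : H ^ (n + 4) ≤ g := by rw [hHdef]; exact_mod_cast hg
  have hg0 : (0 : ℝ) < g := lt_of_lt_of_le (by positivity) hg'
  have key : ∀ F : ℕ, 1 ≤ F → H ^ F ≤ g → H1 * H ^ (n + 3) ≤ δ * H ^ F →
      (∀ t ∈ S, |aeval ((c + t) / g) P| < (3 / H ^ F) ^ n) →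
      (S.card : ℝ) ≤ 7 * n * g * δ / H1 * (1 / H ^ (n + 3)) := by
    intro F hF h1 h2 h3
    have hHF : H ≤ H ^ F := by
      calc H = H ^ 1 := (pow_one _).symm
        _ ≤ H ^ F := pow_le_pow_right₀ (by linarith) hF
    have hF0 : 0 < H ^ F := by positivity
    have := card_small_le n P hP0 hPn c g (3 / H ^ F) hg0 (by positivity)
      (by rw [div_le_one hF0]; linarith) S h3
    refine this.trans ?_
    have a1 : (1 : ℝ) ≤ g / H ^ F := by rwa [le_div_iff₀ hF0, one_mul]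
    have a2 : 1 / H ^ F ≤ δ / H1 * (1 / H ^ (n + 3)) := by
      rw [div_mul_div_comm, div_le_div_iff₀ hF0 (by positivity)]
      linarith
    calc (n : ℝ) * (2 * (3 / H ^ F) * g + 1) ≤ n * (2 * (3 / H ^ F) * g + g / H ^ F) := by gcongr
      _ = 7 * n * g * (1 / H ^ F) := by ring
      _ ≤ 7 * n * g * (δ / H1 * (1 / H ^ (n + 3))) := by gcongr
      _ = _ := by ring
  by_cases ha : ht P ^ (Wfin n + 2) ≤ g
  · have hF : Fex n g (ht P) = Eex n := if_pos ha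
    rw [hF] at hS
    have ha' : H ^ (Wfin n + 2) ≤ g := by rw [hHdef]; exact_mod_cast ha
    refine key (Eex n) (by unfold Eex; omega) ?_ ?_ hS
    · exact (pow_le_pow_right₀ (by linarith) (by have := Eex_le_Wfin hn; omega)).trans ha'
    · have a1 : 1 ≤ (H ^ Vth n) ^ 3 * δ := by
        calc (1 : ℝ) ≤ (H ^ Vth n * δ0) ^ 3 := one_le_pow₀ hV.le
          _ = (H ^ Vth n) ^ 3 * δ0 ^ 3 := mul_pow _ _ _
          _ ≤ (H ^ Vth n) ^ 3 * δ := by gcongr
      calc H1 * H ^ (n + 3) ≤ H * H ^ (n + 3) * ((H ^ Vth n) ^ 3 * δ) := by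
            refine le_trans ?_ (le_mul_of_one_le_right (by positivity) a1)
            gcongr
        _ = δ * H ^ (n + 4 + 3 * Vth n) := by ring
        _ ≤ δ * H ^ Eex n := by
            gcongr
            · linarith
            · unfold Eex; omega
  · have hF : Fex n g (ht P) = n + 4 := if_neg ha
    rw [hF] at hS
    have ha' : (g : ℝ) < H ^ (Wfin n + 2) := by rw [hHdef]; exact_mod_cast not_le.1 ha
    refine key (n + 4) (by omega) hg' ?_ hS
    have a1 : H1 / δ < H := lt_of_pow_lt_pow_left₀ _ hH0.le (hg2.trans_lt ha')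
    rw [div_lt_iff₀ hδpos] at a1
    calc H1 * H ^ (n + 3) ≤ H * δ * H ^ (n + 3) := by gcongr
      _ = δ * H ^ (n + 4) := by ring

theorem dioph_step {d a : ℕ} {γ : ℝ} (G : Good d a γ) (k : ℕ) : ∃ ε : ℝ, 0 < ε ∧
    ∀ δ0 δ : ℝ, 0 < δ0 → δ0 ≤ ε → δ0 ^ 3 ≤ δ → ∃ G0 : ℕ, ∀ g : ℕ, G0 ≤ g → ∀ (c : ℤ) (N : ℕ),
      ∃ B : Finset ℕ, (B.card : ℝ) ≤ g * δ / 16 ∧ ∀ t < N, t ∉ B →
        |((c + t : ℤ) : ℝ)| ≤ g → |(((c + t : ℤ) : ℝ) + γ) / g| ≤ 1 →
        ∀ s : ℝ, 1 / (g : ℝ) ^ tau d ≤ s → s ≤ 2 / (g : ℝ) ^ tau d →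
        ∀ n, 1 ≤ n → n ≤ k → ∀ P : ℤ[X], P ≠ 0 → P.natDegree ≤ n →
          1 < (ht P : ℝ) ^ Vth n * δ0 → (ht P : ℝ) ^ Vth n * (1 / (g : ℝ) ^ tau d) ≤ 1 →
          1 < |aeval ((((c + t : ℤ) : ℝ) + γ) / g + s) P| * (ht P : ℝ) ^ Wfin n := by
  classical
  choose c0 hc0 hc1 using G.center_lower
  obtain ⟨H1, hA, hB, hC, hD⟩ : ∃ H1 : ℝ, 3 ≤ H1 ∧ 224 * k ^ 2 * 3 ^ (k + 1) ≤ H1 ∧
      (∀ n ≤ k, 2 * (((n : ℝ) + 1) ^ 2 * 2 ^ n) ≤ H1) ∧
      ∀ n ≤ k, 2 * (2 ^ n) ^ (3 * n) ≤ c0 n * H1 := by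
    have hs : ∀ n ≤ k, 2 * (2 ^ n) ^ (3 * n) / c0 n
        ≤ ∑ n ∈ range (k + 1), 2 * (2 ^ n) ^ (3 * n) / c0 n := fun n hn =>
      single_le_sum (f := fun n => 2 * (2 ^ n) ^ (3 * n) / c0 n)
        (fun i _ => by have := hc0 i; positivity) (mem_range.2 (by omega))
    have hs0 : 0 ≤ ∑ n ∈ range (k + 1), 2 * (2 ^ n) ^ (3 * n) / c0 n :=
      sum_nonneg fun i _ => by have := hc0 i; positivity
    have p1 : (0 : ℝ) ≤ 224 * k ^ 2 * 3 ^ (k + 1) := by positivity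
    have p2 : (0 : ℝ) ≤ 2 * (((k : ℝ) + 1) ^ 2 * 2 ^ k) := by positivity
    refine ⟨3 + 224 * k ^ 2 * 3 ^ (k + 1) + 2 * (((k : ℝ) + 1) ^ 2 * 2 ^ k)
      + ∑ n ∈ range (k + 1), 2 * (2 ^ n) ^ (3 * n) / c0 n, by linarith, by linarith, ?_, ?_⟩
    · intro n hn
      have : 2 * (((n : ℝ) + 1) ^ 2 * 2 ^ n) ≤ 2 * (((k : ℝ) + 1) ^ 2 * 2 ^ k) := by
        gcongr
        norm_num
      linarith
    · intro n hn
      rw [mul_comm (c0 n), ← div_le_iff₀ (hc0 n)]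
      linarith [hs n hn]
  have hH10 : 0 < H1 := by linarith
  refine ⟨1 / H1 ^ Vth k, by positivity, fun δ0 δ hδ0 hε hδ => ?_⟩
  have hδpos : 0 < δ := lt_of_lt_of_le (by positivity) hδ
  have hbig : ∀ n ≤ k, ∀ P : ℤ[X], 1 < (ht P : ℝ) ^ Vth n * δ0 → H1 ≤ ht P := by
    intro n hn P h
    have a1 : δ0 * H1 ^ Vth k ≤ 1 := by rwa [le_div_iff₀ (by positivity)] at hε
    have a2 : H1 ^ Vth n ≤ H1 ^ Vth k := pow_le_pow_right₀ (by linarith) (Vth_mono hn)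
    have a3 : H1 ^ Vth n * δ0 < (ht P : ℝ) ^ Vth n * δ0 := by nlinarith
    exact (lt_of_pow_lt_pow_left₀ _ (by positivity) (lt_of_mul_lt_mul_right a3 hδ0.le)).le
  refine ⟨2 + ⌈(H1 / δ + 1) ^ (Wfin k + 2)⌉₊, fun g hg c N => ?_⟩
  have hg2 : ∀ n ≤ k, (H1 / δ) ^ (Wfin n + 2) ≤ g := by
    intro n hn
    have p : 0 ≤ H1 / δ := by positivity
    calc (H1 / δ) ^ (Wfin n + 2) ≤ (H1 / δ + 1) ^ (Wfin n + 2) := by gcongr; linarith
      _ ≤ (H1 / δ + 1) ^ (Wfin k + 2) :=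
          pow_le_pow_right₀ (by linarith) (by have := Wfin_mono hn; omega)
      _ ≤ ⌈(H1 / δ + 1) ^ (Wfin k + 2)⌉₊ := Nat.le_ceil _
      _ ≤ g := by exact_mod_cast (by omega)
  let T : ℕ → Finset ℤ[X] := fun n => (box n g).filter (fun P => P ≠ 0 ∧ P.natDegree ≤ n ∧
    1 < (ht P : ℝ) ^ Vth n * δ0 ∧ ht P ^ (n + 4) ≤ g)
  let S : ℕ → ℤ[X] → Finset ℕ := fun n P => (range N).filter (fun t : ℕ =>
    |aeval (((c + γ) + t) / g) P| < (3 / (ht P : ℝ) ^ Fex n g (ht P)) ^ n)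
  refine ⟨(Icc 1 k).biUnion fun n => (T n).biUnion (S n), ?_, ?_⟩
  · have h1 : ((Icc 1 k).biUnion fun n => (T n).biUnion (S n)).card
        ≤ ∑ n ∈ Icc 1 k, ∑ P ∈ T n, (S n P).card :=
      card_biUnion_le.trans (sum_le_sum fun n _ => card_biUnion_le)
    have h2 : (((Icc 1 k).biUnion fun n => (T n).biUnion (S n)).card : ℝ)
        ≤ ∑ n ∈ Icc 1 k, ∑ P ∈ T n, ((S n P).card : ℝ) := by exact_mod_cast h1
    refine h2.trans ?_
    calc ∑ n ∈ Icc 1 k, ∑ P ∈ T n, ((S n P).card : ℝ)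
        ≤ ∑ _n ∈ Icc 1 k, 7 * k * g * δ / H1 * (2 * 3 ^ (k + 1)) := by
          refine sum_le_sum fun n hn => ?_
          obtain ⟨hn1, hnk⟩ := mem_Icc.1 hn
          calc ∑ P ∈ T n, ((S n P).card : ℝ)
              ≤ ∑ P ∈ T n, 7 * n * g * δ / H1 * (1 / (ht P : ℝ) ^ (n + 3)) := by
                refine sum_le_sum fun P hP => ?_
                obtain ⟨-, p1, p2, p3, p4⟩ := mem_filter.1 hP
                exact count_single n hn1 g P p1 p2 H1 δ0 δ (c + γ) hA hδ0 hδ (hbig n hnk P p3)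
                  p3 p4 (hg2 n hnk) _ (fun t ht => (mem_filter.1 ht).2)
            _ = 7 * n * g * δ / H1 * ∑ P ∈ T n, 1 / (ht P : ℝ) ^ (n + 3) := by rw [mul_sum]
            _ ≤ 7 * k * g * δ / H1 * (2 * 3 ^ (k + 1)) := by
                have := sum_inv_ht_le n (T n) (fun P hP =>
                  ⟨(mem_filter.1 hP).2.1, (mem_filter.1 hP).2.2.1⟩)
                have p0 : 0 ≤ ∑ P ∈ T n, 1 / (ht P : ℝ) ^ (n + 3) :=
                  sum_nonneg fun P _ => by positivity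
                have p1 : (2 : ℝ) * 3 ^ (n + 1) ≤ 2 * 3 ^ (k + 1) := by
                  gcongr; norm_num
                gcongr
                exact this.trans p1
      _ = g * δ / 16 * (224 * k ^ 2 * 3 ^ (k + 1) / H1) := by
          rw [sum_const, Nat.card_Icc, nsmul_eq_mul, Nat.add_sub_cancel]
          ring
      _ ≤ g * δ / 16 * 1 := by
          gcongr
          rwa [div_le_one hH10]
      _ = g * δ / 16 := mul_one _
  · intro t ht htB hc hξ s hs1 hs2 n hn1 hnk P hP0 hPn hV1 hV2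
    have hH := hbig n hnk P hV1
    refine good_point G n hn1 (c0 n) g (by omega) (c + t) (hc1 n g (by omega) (c + t) hc) hξ s
      hs1 hs2 P hP0 hPn ((hC n hnk).trans hH) ((hD n hnk).trans ?_) hV2 ?_
    · have := hc0 n
      gcongr
    · intro hg'
      by_contra hcon
      apply htB
      refine mem_biUnion.2 ⟨n, mem_Icc.2 ⟨hn1, hnk⟩, mem_biUnion.2 ⟨P, ?_, ?_⟩⟩
      · refine mem_filter.2 ⟨mem_box hPn ?_, hP0, hPn, hV1, hg'⟩
        exact le_trans (Nat.le_self_pow (by omega) _) hg'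
      · refine mem_filter.2 ⟨mem_range.2 ht, ?_⟩
        rw [show ((c : ℝ) + γ + t) = ((c + t : ℤ) : ℝ) + γ by push_cast; ring]
        exact not_le.1 hcon

end Pool.Agent.Lib.MP_0496af_nt
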