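import Mathlib
import Pool.Agent.Lib.MP_0496af_nt.DiophStep

/-!
The approximating polynomials, and the passage from the stagewise estimates to the T-number
property of the limit point.
-/

set_option autoImplicit false

namespace Pool.Agent.Lib.MP_0496af_nt

open Finset Polynomial Filter Topology
open scoped Nat

theorem approx_poly {d a : ℕ} {γ : ℝ} (G : Good d a γ) (k : ℕ) : ∃ G0 : ℕ, ∀ g : ℕ, G0 ≤ g →
    ∀ c : ℤ, |(c : ℝ)| ≤ g → ∀ s : ℝ, 1 / (g : ℝ) ^ tau d ≤ s → s ≤ 2 / (g : ℝ) ^ tau d →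
      ∃ P : ℤ[X], P.natDegree ≤ d ∧ 0 < |aeval ((c + γ) / g + s) P| ∧
        |aeval ((c + γ) / g + s) P| * (ht P : ℝ) ^ (d ^ 2) ≤ 1 ∧ k ≤ ht P := by
  refine ⟨2 + k + (a * 2 ^ d + a + 1) + 2 * a * d * 3 ^ d, fun g hg c hc s hs1 hs2 => ?_⟩
  have hd := G.d_pos
  have ha : (1 : ℝ) ≤ a := by exact_mod_cast G.a_pos
  have hg2 : (2 : ℝ) ≤ g := by exact_mod_cast (by omega : 2 ≤ g)
  have hg3 : (a : ℝ) * 2 ^ d + a + 1 ≤ g := by
    exact_mod_cast (by omega : a * 2 ^ d + a + 1 ≤ g)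
  have hg4 : 2 * (a : ℝ) * d * 3 ^ d ≤ g := by
    exact_mod_cast (by omega : 2 * a * d * 3 ^ d ≤ g)
  have hg0 : (0 : ℝ) < g := by linarith
  have hg1 : (1 : ℝ) ≤ g := by linarith
  have hs0 : 0 < s := lt_of_lt_of_le (by positivity) hs1
  let P : ℤ[X] := (C (a : ℤ) * (X + C (-c)) ^ d - C ((a : ℤ) + 1)).comp (C (g : ℤ) * X)
  have hcoeff : ∀ i, P.coeff i = ((a : ℤ) * ((-c) ^ (d - i) * (d.choose i : ℤ))
      - (if i = 0 then (a : ℤ) + 1 else 0)) * (g : ℤ) ^ i := by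
    intro i
    simp only [P]
    rw [comp_C_mul_X_coeff, coeff_sub, coeff_C_mul, coeff_X_add_C_pow, coeff_C]
  have hval : aeval ((c + γ) / g + s) P = a * ((γ + g * s) ^ d - γ ^ d) := by
    simp only [P, aeval_comp, map_sub, map_mul, map_pow, map_add, aeval_X, eq_intCast,
      map_natCast, map_intCast, map_neg, map_one]
    rw [show (g : ℝ) * ((c + γ) / g + s) + -c = γ + g * s by field_simp; ring, mul_sub, G.eqn]
  have hγ1 := G.one_le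
  have hγ2 := G.le_two
  have hu0 : 0 < g * s := by positivity
  have hu : g * s * (g : ℝ) ^ ((d + 1) * d ^ 2) * g ≤ 2 := by
    rw [le_div_iff₀ (by positivity)] at hs2
    calc g * s * (g : ℝ) ^ ((d + 1) * d ^ 2) * g = s * (g : ℝ) ^ tau d := by unfold tau; ring
      _ ≤ 2 := hs2
  have hu1 : g * s ≤ 1 := by
    have a1 : (1 : ℝ) ≤ (g : ℝ) ^ ((d + 1) * d ^ 2) := one_le_pow₀ hg1
    have a2 : g * s * 1 * 2 ≤ g * s * (g : ℝ) ^ ((d + 1) * d ^ 2) * g := by gcongr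
    linarith
  have hpos : 0 < (γ + g * s) ^ d - γ ^ d :=
    sub_pos.2 (pow_lt_pow_left₀ (by linarith) (by linarith) (by omega))
  have hht : (ht P : ℝ) ≤ (g : ℝ) ^ (d + 1) := by
    apply ht_le
    intro i
    rw [hcoeff]
    have hgd : (1 : ℝ) ≤ (g : ℝ) ^ d := one_le_pow₀ hg1
    by_cases hi : i ≤ d
    · have a1 : |(a : ℝ) * ((-c) ^ (d - i) * (d.choose i : ℝ))| * (g : ℝ) ^ i
          ≤ a * 2 ^ d * (g : ℝ) ^ d := by
        rw [abs_mul, abs_mul, abs_pow, abs_neg, Nat.abs_cast, Nat.abs_cast]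
        have b1 : (d.choose i : ℝ) ≤ 2 ^ d := by exact_mod_cast Nat.choose_le_two_pow d i
        calc (a : ℝ) * (|(c : ℝ)| ^ (d - i) * (d.choose i : ℝ)) * (g : ℝ) ^ i
            ≤ a * ((g : ℝ) ^ (d - i) * 2 ^ d) * (g : ℝ) ^ i := by gcongr
          _ = a * 2 ^ d * ((g : ℝ) ^ (d - i) * (g : ℝ) ^ i) := by ring
          _ = a * 2 ^ d * (g : ℝ) ^ d := by rw [← pow_add, Nat.sub_add_cancel hi]
      have a2 : |((if i = 0 then (a : ℤ) + 1 else 0 : ℤ) : ℝ)| * (g : ℝ) ^ i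
          ≤ (a + 1) * (g : ℝ) ^ d := by
        refine mul_le_mul ?_ (pow_le_pow_right₀ hg1 hi) (by positivity) (by positivity)
        split_ifs
        · push_cast; rw [abs_of_nonneg (by positivity)]
        · simp only [Int.cast_zero, abs_zero]; positivity
      rw [Int.cast_mul, Int.cast_sub, abs_mul, Int.cast_pow, Int.cast_natCast,
        abs_of_nonneg (by positivity : (0 : ℝ) ≤ (g : ℝ) ^ i)]
      have a3 := abs_sub (((a : ℤ) * ((-c) ^ (d - i) * (d.choose i : ℤ)) : ℤ) : ℝ)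
        ((if i = 0 then (a : ℤ) + 1 else 0 : ℤ) : ℝ)
      have a4 : (((a : ℤ) * ((-c) ^ (d - i) * (d.choose i : ℤ)) : ℤ) : ℝ)
          = (a : ℝ) * ((-c) ^ (d - i) * (d.choose i : ℝ)) := by push_cast; ring
      rw [a4] at a3 ⊢
      have a5 : (0 : ℝ) ≤ (g : ℝ) ^ i := by positivity
      calc _ ≤ (|(a : ℝ) * ((-c) ^ (d - i) * (d.choose i : ℝ))|
            + |((if i = 0 then (a : ℤ) + 1 else 0 : ℤ) : ℝ)|) * (g : ℝ) ^ i := by gcongr
        _ ≤ a * 2 ^ d * (g : ℝ) ^ d + (a + 1) * (g : ℝ) ^ d := by rw [add_mul]; linarith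
        _ = (a * 2 ^ d + a + 1) * (g : ℝ) ^ d := by ring
        _ ≤ g * (g : ℝ) ^ d := by gcongr
        _ = (g : ℝ) ^ (d + 1) := by ring
    · rw [Nat.choose_eq_zero_of_lt (by omega), if_neg (by omega)]
      simp
  refine ⟨P, ?_, ?_, ?_, ?_⟩
  · rw [natDegree_le_iff_coeff_eq_zero]
    intro i hi
    rw [hcoeff, Nat.choose_eq_zero_of_lt hi, if_neg (by omega)]
    simp
  · rw [hval]; positivity
  · rw [hval, abs_mul, Nat.abs_cast]
    have a1 := abs_pow_sub_pow_le (γ + g * s) γ d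
    rw [add_sub_cancel_left, abs_of_pos hu0] at a1
    have a2 : max |γ + g * s| |γ| ^ (d - 1) ≤ 3 ^ d := by
      have : max |γ + g * s| |γ| ≤ 3 := by
        rw [abs_of_pos (by linarith), abs_of_pos (by linarith)]
        exact max_le (by linarith) (by linarith)
      exact (pow_le_pow_left₀ (le_max_of_le_left (abs_nonneg _)) this _).trans
        (pow_le_pow_right₀ (by norm_num) (by omega))
    have a3 : |(γ + g * s) ^ d - γ ^ d| ≤ g * s * d * 3 ^ d := a1.trans (by gcongr)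
    have a4 : (ht P : ℝ) ^ (d ^ 2) ≤ (g : ℝ) ^ ((d + 1) * d ^ 2) := by
      rw [pow_mul]; gcongr
    have a5 : a * |(γ + g * s) ^ d - γ ^ d| * (ht P : ℝ) ^ (d ^ 2) * g ≤ 1 * g := by
      calc a * |(γ + g * s) ^ d - γ ^ d| * (ht P : ℝ) ^ (d ^ 2) * g
          ≤ a * (g * s * d * 3 ^ d) * (g : ℝ) ^ ((d + 1) * d ^ 2) * g := by gcongr
        _ = a * d * 3 ^ d * (g * s * (g : ℝ) ^ ((d + 1) * d ^ 2) * g) := by ring
        _ ≤ a * d * 3 ^ d * 2 := by gcongr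
        _ ≤ 1 * g := by linarith
    exact le_of_mul_le_mul_right a5 hg0
  · have a1 := natAbs_coeff_le_ht P d
    rw [hcoeff, if_neg (by omega)] at a1
    simp only [Nat.sub_self, pow_zero, Nat.choose_self, Nat.cast_one, mul_one, sub_zero,
      Int.natAbs_mul, Int.natAbs_natCast, Int.natAbs_pow] at a1
    have a2 : g ≤ g ^ d := Nat.le_self_pow (by omega) _
    have a3 : g ^ d ≤ a * g ^ d := Nat.le_mul_of_pos_left _ G.a_pos
    omega

/-- The set of polynomials in the definition of the exponent `w_n`. -/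
def approxSet (ξ : ℝ) (n : ℕ) (w : ℝ) : Set ℤ[X] :=
  {P : ℤ[X] | P.natDegree ≤ n ∧ 0 < |aeval ξ P| ∧ |aeval ξ P| ≤ (ht P : ℝ) ^ (-w)}

/-- The degree used at stage `k`. -/
def stageDeg (k : ℕ) : ℕ := (Nat.unpair k).1 + 2

theorem exists_stage (d m : ℕ) (hd : 2 ≤ d) : ∃ k, m ≤ k ∧ stageDeg k = d :=
  ⟨Nat.pair (d - 2) m, Nat.right_le_pair _ _, by simp [stageDeg]; omega⟩

theorem tnumber_of_stages (ξ : ℝ) (δ : ℕ → ℝ) (hδ0 : ∀ k, 0 < δ k) (hδ : Tendsto δ atTop (𝓝 0))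
    (h1 : ∀ k n, 1 ≤ n → n ≤ k → ∀ P : ℤ[X], P ≠ 0 → P.natDegree ≤ n →
      1 < (ht P : ℝ) ^ Vth n * δ k → (ht P : ℝ) ^ Vth n * δ (k + 1) ≤ 1 →
      1 < |aeval ξ P| * (ht P : ℝ) ^ Wfin n)
    (h2 : ∀ k, ∃ P : ℤ[X], P.natDegree ≤ stageDeg k ∧ 0 < |aeval ξ P| ∧
      |aeval ξ P| * (ht P : ℝ) ^ (stageDeg k ^ 2) ≤ 1 ∧ k ≤ ht P) :
    Transcendental ℤ ξ ∧ (∀ n : ℕ, 1 ≤ n → ∃ W : ℝ, (approxSet ξ n W).Finite) ∧
      (∀ d : ℕ, 2 ≤ d → (approxSet ξ d ((d ^ 2 : ℕ) : ℝ)).Infinite) := by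
  classical
  have key : ∀ n, 1 ≤ n → ∀ P : ℤ[X], P ≠ 0 → P.natDegree ≤ n → 1 / δ n < ht P →
      1 < |aeval ξ P| * (ht P : ℝ) ^ Wfin n := by
    intro n hn P hP0 hPn hH
    have hH1 : (1 : ℝ) ≤ ht P := by exact_mod_cast one_le_ht hP0
    have a0 : 1 < (ht P : ℝ) ^ Vth n * δ n := by
      rw [div_lt_iff₀ (hδ0 n)] at hH
      refine hH.trans_le ?_
      have := hδ0 n
      gcongr
      exact le_self_pow₀ hH1 (by unfold Vth; omega)
    have hex : ∃ j, (ht P : ℝ) ^ Vth n * δ (n + j + 1) ≤ 1 := by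
      have t1 : Tendsto (fun k => (ht P : ℝ) ^ Vth n * δ k) atTop (𝓝 0) := by
        simpa using hδ.const_mul ((ht P : ℝ) ^ Vth n)
      obtain ⟨K, hK⟩ := eventually_atTop.1 (t1.eventually (ge_mem_nhds zero_lt_one))
      exact ⟨K, hK _ (by omega)⟩
    refine h1 (n + Nat.find hex) n hn (by omega) P hP0 hPn ?_ (Nat.find_spec hex)
    rcases Nat.eq_zero_or_pos (Nat.find hex) with e | e
    · rw [e]; exact a0
    · have := Nat.find_min hex (m := Nat.find hex - 1) (by omega)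
      rw [show n + (Nat.find hex - 1) + 1 = n + Nat.find hex by omega] at this
      exact not_le.1 this
  refine ⟨?_, ?_, ?_⟩
  · rintro ⟨P, hP0, hP⟩
    obtain ⟨t, ht0⟩ := exists_nat_gt (1 / δ (P.natDegree + 1))
    have htpos : 0 < t := by
      have := hδ0 (P.natDegree + 1)
      exact_mod_cast (lt_trans (by positivity) ht0 : (0 : ℝ) < t)
    have hQ0 : C (t : ℤ) * P ≠ 0 := mul_ne_zero (C_ne_zero.2 (by omega)) hP0
    have := key (P.natDegree + 1) (by omega) (C (t : ℤ) * P) hQ0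
      ((natDegree_C_mul_le _ _).trans (by omega)) (ht0.trans_le (by
        have a1 := natAbs_coeff_le_ht (C (t : ℤ) * P) P.natDegree
        rw [coeff_C_mul, Int.natAbs_mul, Int.natAbs_natCast] at a1
        have a2 : 0 < (P.coeff P.natDegree).natAbs :=
          Int.natAbs_pos.2 (leadingCoeff_ne_zero.2 hP0)
        have a3 : t ≤ t * (P.coeff P.natDegree).natAbs := Nat.le_mul_of_pos_right _ a2
        exact_mod_cast a3.trans a1))
    rw [map_mul, hP] at this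
    simp at this
    linarith
  · intro n hn
    refine ⟨Wfin n, (finite_ht_le n (1 / δ n)).subset ?_⟩
    rintro P ⟨p1, p2, p3⟩
    refine ⟨p1, ?_⟩
    by_contra hc
    have hP0 : P ≠ 0 := by rintro rfl; simp at p2
    have := key n hn P hP0 p1 (not_le.1 hc)
    have hH1 : (0 : ℝ) < ht P := by exact_mod_cast one_le_ht hP0
    rw [Real.rpow_neg hH1.le, Real.rpow_natCast, ← one_div, le_div_iff₀ (by positivity)] at p3
    linarith
  · intro d hd2 hfin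
    obtain ⟨m, hm⟩ := (hfin.image ht).bddAbove
    obtain ⟨k, hk1, hk2⟩ := exists_stage d (m + 1) hd2
    obtain ⟨P, p1, p2, p3, p4⟩ := h2 k
    rw [hk2] at p1 p3
    have hH1 : (0 : ℝ) < ht P := by exact_mod_cast (by omega : 0 < ht P)
    have : ht P ≤ m := hm ⟨P, ⟨p1, p2, by
      rw [Real.rpow_neg hH1.le, Real.rpow_natCast, ← one_div, le_div_iff₀ (by positivity)]
      exact p3⟩, rfl⟩
    omega

/-- Lower bounds gained at stage `k`. -/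
def Dio (k : ℕ) (δ0 δ1 x : ℝ) : Prop :=
  ∀ n, 1 ≤ n → n ≤ k → ∀ P : ℤ[X], P ≠ 0 → P.natDegree ≤ n →
    1 < (ht P : ℝ) ^ Vth n * δ0 → (ht P : ℝ) ^ Vth n * δ1 ≤ 1 →
    1 < |aeval x P| * (ht P : ℝ) ^ Wfin n

/-- The good approximation gained at stage `k`. -/
def App (k : ℕ) (x : ℝ) : Prop :=
  ∃ P : ℤ[X], P.natDegree ≤ stageDeg k ∧ 0 < |aeval x P| ∧
    |aeval x P| * (ht P : ℝ) ^ (stageDeg k ^ 2) ≤ 1 ∧ k ≤ ht P

theorem t_step (k : ℕ) : ∃ γ ε : ℝ, 0 < ε ∧ ∀ δ0 δ u : ℝ, 0 < δ0 → δ0 ≤ ε → δ0 ^ 3 ≤ δ → 0 ≤ u →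
    u + δ ≤ 1 → ∃ G0 : ℕ, ∀ g : ℕ, G0 ≤ g → ∀ B' : Finset ℕ, (B'.card : ℝ) ≤ g * δ / 4 →
      ∃ t < ⌊(g : ℝ) * δ / 2⌋₊, t ∉ B' ∧
        u ≤ (⌈g * u⌉ + γ + t) / g + 1 / (g : ℝ) ^ tau (stageDeg k) ∧
        (⌈g * u⌉ + γ + t) / g + 2 / (g : ℝ) ^ tau (stageDeg k) ≤ u + δ ∧
        ∀ s : ℝ, 1 / (g : ℝ) ^ tau (stageDeg k) ≤ s → s ≤ 2 / (g : ℝ) ^ tau (stageDeg k) →
          Dio k δ0 (1 / (g : ℝ) ^ tau (stageDeg k)) ((⌈g * u⌉ + γ + t) / g + s) ∧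
          App k ((⌈g * u⌉ + γ + t) / g + s) := by
  classical
  obtain ⟨a, γ, G⟩ := exists_good (stageDeg k) (by unfold stageDeg; omega)
  obtain ⟨ε, hε, hD⟩ := dioph_step G k
  obtain ⟨G1, hA⟩ := approx_poly G k
  refine ⟨γ, ε, hε, fun δ0 δ u h0 h1 h2 hu0 hu1 => ?_⟩
  have hδ : 0 < δ := lt_of_lt_of_le (by positivity) h2
  obtain ⟨G2, hD'⟩ := hD δ0 δ h0 h1 h2
  refine ⟨G1 + G2 + ⌈10 / δ⌉₊ + 1, fun g hg B' hB' => ?_⟩
  have hg0 : (0 : ℝ) < g := by exact_mod_cast (by omega : 0 < g)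
  have hg1 : (1 : ℝ) ≤ g := by exact_mod_cast (by omega : 1 ≤ g)
  have hgδ : 10 ≤ g * δ := by
    rw [← div_le_iff₀ hδ]
    exact (Nat.le_ceil _).trans (by exact_mod_cast (by omega))
  obtain ⟨B, hB1, hB2⟩ := hD' g (by omega) ⌈g * u⌉ ⌊(g : ℝ) * δ / 2⌋₊
  obtain ⟨t, ht1, ht2⟩ : ∃ t ∈ range ⌊(g : ℝ) * δ / 2⌋₊, t ∉ B ∪ B' := by
    apply exists_mem_notMem_of_card_lt_card
    rw [card_range]
    have a1 : ((B ∪ B').card : ℝ) ≤ B.card + B'.card := by exact_mod_cast card_union_le B B'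
    have a2 := Nat.lt_floor_add_one ((g : ℝ) * δ / 2)
    have : ((B ∪ B').card : ℝ) < ⌊(g : ℝ) * δ / 2⌋₊ := by linarith
    exact_mod_cast this
  rw [mem_range] at ht1
  rw [notMem_union] at ht2
  have c1 := Int.le_ceil ((g : ℝ) * u)
  have c2 := Int.ceil_lt_add_one ((g : ℝ) * u)
  have c3 : (t : ℝ) + 1 ≤ g * δ / 2 :=
    le_trans (by exact_mod_cast ht1) (Nat.floor_le (by positivity))
  have c4 : (0 : ℝ) ≤ t := by positivity
  have c5 : 0 ≤ (g : ℝ) * u := by positivity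
  have hγ1 := G.one_le
  have hγ2 := G.le_two
  have hgτ : (g : ℝ) ≤ (g : ℝ) ^ tau (stageDeg k) := le_self_pow₀ hg1 (by unfold tau; omega)
  have c6 : 2 / (g : ℝ) ^ tau (stageDeg k) ≤ 2 / g := by gcongr
  have c7 : ((⌈g * u⌉ : ℝ) + γ + t) / g + 2 / g ≤ u + δ := by
    rw [← add_div, div_le_iff₀ hg0]; nlinarith
  have c8 : u ≤ ((⌈g * u⌉ : ℝ) + γ + t) / g := by
    rw [le_div_iff₀ hg0]; nlinarith
  have c9 : (0 : ℝ) < 2 / g := by positivity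
  have e : ((⌈g * u⌉ : ℝ) + γ + t) = ((⌈g * u⌉ + t : ℤ) : ℝ) + γ := by push_cast; ring
  have hξ : |(((⌈g * u⌉ + t : ℤ) : ℝ) + γ) / g| ≤ 1 := by
    rw [← e, abs_le]; constructor <;> linarith
  have hc : |((⌈g * u⌉ + t : ℤ) : ℝ)| ≤ g := by
    have := (abs_le.1 hξ).2
    rw [div_le_one hg0] at this
    rw [abs_le]
    constructor
    · push_cast; linarith
    · linarith
  refine ⟨t, ht1, ht2.2, le_add_of_le_of_nonneg c8 (by positivity), by linarith,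
    fun s hs1 hs2 => ?_⟩
  rw [e]
  exact ⟨hB2 t ht1 ht2.1 hc hξ s hs1 hs2, hA g (by omega) _ hc s hs1 hs2⟩

theorem nested (Inv : ℕ → ℝ → ℕ → Prop) (R : ℕ → ℕ → ℕ → ℝ → Prop) (h0 : ∃ u D, Inv 0 u D)
    (step : ∀ k u D, Inv k u D → ∃ u' D', Inv (k + 1) u' D' ∧ u ≤ u' ∧
      u' + 1 / (D' : ℝ) ≤ u + 1 / (D : ℝ) ∧ ∀ x, u' ≤ x → x ≤ u' + 1 / (D' : ℝ) → R k D D' x) :
    ∃ (ξ : ℝ) (u : ℕ → ℝ) (D : ℕ → ℕ), ∀ k, Inv k (u k) (D k) ∧ R k (D k) (D (k + 1)) ξ := by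
  choose! fu fD hf using step
  obtain ⟨u0, D0, h0⟩ := h0
  let s : ℕ → ℝ × ℕ := fun k =>
    Nat.rec (u0, D0) (fun k p => (fu k p.1 p.2, fD k p.1 p.2)) k
  have hs : ∀ k, s (k + 1) = (fu k (s k).1 (s k).2, fD k (s k).1 (s k).2) := fun k => rfl
  have hI : ∀ k, Inv k (s k).1 (s k).2 := by
    intro k
    induction k with
    | zero => exact h0
    | succ k ih => rw [hs]; exact (hf k _ _ ih).1
  have hmono : Monotone fun k => (s k).1 :=
    monotone_nat_of_le_succ fun k => by rw [hs]; exact (hf k _ _ (hI k)).2.1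
  have hanti : Antitone fun k => (s k).1 + 1 / ((s k).2 : ℝ) :=
    antitone_nat_of_succ_le fun k => by rw [hs]; exact (hf k _ _ (hI k)).2.2.1
  have hle : ∀ j k, (s j).1 ≤ (s k).1 + 1 / ((s k).2 : ℝ) := by
    intro j k
    have a1 : (s j).1 ≤ (s (max j k)).1 := hmono (le_max_left j k)
    have a2 : (s (max j k)).1 + 1 / ((s (max j k)).2 : ℝ) ≤ (s k).1 + 1 / ((s k).2 : ℝ) :=
      hanti (le_max_right j k)
    have a3 : (0 : ℝ) ≤ 1 / ((s (max j k)).2 : ℝ) := by positivity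
    linarith
  refine ⟨⨆ j, (s j).1, fun k => (s k).1, fun k => (s k).2, fun k => ⟨hI k, ?_⟩⟩
  exact (hf k _ _ (hI k)).2.2.2 _
    (le_ciSup (f := fun j => (s j).1) ⟨_, by rintro _ ⟨j, rfl⟩; exact hle j 0⟩ (k + 1))
    (ciSup_le fun j => hle j (k + 1))

theorem tendsto_one_div_of_le (D : ℕ → ℕ) (h : ∀ k, k + 1 ≤ D k) :
    Tendsto (fun k => 1 / (D k : ℝ)) atTop (𝓝 0) := by
  refine squeeze_zero (fun k => by positivity) (fun k => ?_) tendsto_one_div_add_atTop_nhds_zero_nat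
  have : (k : ℝ) + 1 ≤ D k := by exact_mod_cast h k
  gcongr

end Pool.Agent.Lib.MP_0496af_nt
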