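import Mathlib

/-!
Exponential sums: geometric sums, a second moment bound, and the choice of the denominator.
-/

set_option autoImplicit false

namespace Pool.Agent.Lib.MP_0496af_nt

open Finset Filter Topology
open scoped Nat Real

/-- The character `x ↦ exp (2 π i x)`. -/
noncomputable def ee (x : ℝ) : ℂ := Complex.exp (Complex.I * ((2 * π * x : ℝ) : ℂ))

theorem ee_add (x y : ℝ) : ee (x + y) = ee x * ee y := by
  unfold ee; rw [← Complex.exp_add]; congr 1; push_cast; ring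

theorem ee_zero : ee 0 = 1 := by simp [ee]

theorem norm_ee (x : ℝ) : ‖ee x‖ = 1 := by
  unfold ee; rw [mul_comm]; exact Complex.norm_exp_ofReal_mul_I _

theorem ee_int (n : ℤ) : ee n = 1 := by
  unfold ee
  rw [← Complex.exp_int_mul_two_pi_mul_I n]; congr 1; push_cast; ring

theorem ee_nat_mul (n : ℕ) (x : ℝ) : ee (n * x) = ee x ^ n := by
  unfold ee; rw [← Complex.exp_nat_mul]; congr 1; push_cast; ring

theorem conj_ee (x : ℝ) : (starRingEnd ℂ) (ee x) = ee (-x) := by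
  unfold ee
  rw [← Complex.exp_conj, map_mul, Complex.conj_I, Complex.conj_ofReal]
  congr 1; push_cast; ring

theorem norm_ee_sub_one_le (x : ℝ) : ‖ee x - 1‖ ≤ 2 * π * |x| := by
  unfold ee
  refine Real.norm_exp_I_mul_ofReal_sub_one_le.trans ?_
  rw [Real.norm_eq_abs, abs_mul, abs_of_pos (by positivity : 0 < 2 * π)]

theorem norm_ee_sub_le (x y : ℝ) : ‖ee x - ee y‖ ≤ 2 * π * |x - y| := by
  have : ee x - ee y = ee y * (ee (x - y) - 1) := by
    rw [mul_sub, ← ee_add]; simp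
  rw [this, norm_mul, norm_ee, one_mul]
  exact norm_ee_sub_one_le _

theorem le_norm_ee_sub_one (x : ℝ) (hx : |x| ≤ 1 / 2) : 4 * |x| ≤ ‖ee x - 1‖ := by
  unfold ee
  rw [Complex.norm_exp_I_mul_ofReal_sub_one, Real.norm_eq_abs, abs_mul,
    show 2 * π * x / 2 = π * x by ring]
  have h := Real.mul_abs_le_abs_sin (x := π * x) (by
    rw [abs_mul, abs_of_pos Real.pi_pos]; nlinarith [Real.pi_pos])
  rw [abs_mul, abs_of_pos Real.pi_pos] at h
  have e : 2 / π * (π * |x|) = 2 * |x| := by field_simp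
  rw [e] at h
  rw [abs_of_pos (by norm_num : (0 : ℝ) < 2)]
  linarith

theorem norm_geom_le (M : ℕ) (x : ℝ) (hx : |x| ≤ 1 / 2) (h0 : x ≠ 0) :
    ‖∑ t ∈ range M, ee (t * x)‖ ≤ 1 / (2 * |x|) := by
  have h1 := le_norm_ee_sub_one x hx
  have h2 : 0 < |x| := abs_pos.2 h0
  have h3 : ee x ≠ 1 := by
    intro e; rw [e, sub_self, norm_zero] at h1; linarith
  simp_rw [ee_nat_mul]
  rw [geom_sum_eq h3, norm_div, div_le_div_iff₀ (by linarith) (by positivity)]
  have : ‖ee x ^ M - 1‖ ≤ 2 := by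
    refine (norm_sub_le _ _).trans ?_
    rw [norm_pow, norm_ee, one_pow, norm_one]; norm_num
  nlinarith

theorem norm_geom_div_le (M g T : ℕ) (hg : 0 < g) (hT : 0 < T) (m : ℤ) (hm : m ≠ 0)
    (h : ∀ r : ℤ, |r| ≤ T → (g : ℤ) ∣ m - r → r = m) :
    ‖∑ t ∈ range M, ee (t * ((m : ℝ) / g))‖ ≤ g / (2 * |(m : ℝ)|) + g / (2 * T) := by
  obtain ⟨q, hq⟩ := Int.dvd_self_sub_bmod (x := m) (m := g)
  have b1 := Int.le_bmod (x := m) hg
  have b2 := Int.bmod_le (x := m) hg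
  set r := Int.bmod m g with hr
  have hg0 : (0 : ℝ) < g := by exact_mod_cast hg
  have hT0 : (0 : ℝ) < T := by exact_mod_cast hT
  have hm0 : (0 : ℝ) < |(m : ℝ)| := abs_pos.2 (by exact_mod_cast hm)
  have hcase : r = m ∨ (T : ℤ) < |r| := by
    by_cases hc : |r| ≤ T
    · exact Or.inl (h r hc ⟨q, hq⟩)
    · exact Or.inr (not_le.1 hc)
  have hr0 : r ≠ 0 := by
    rcases hcase with e | e
    · rwa [e]
    · intro e0; rw [e0] at e; simp at e; omega
  have hr0' : (0 : ℝ) < |(r : ℝ)| := abs_pos.2 (by exact_mod_cast hr0)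
  have e1 : ∀ t : ℕ, ee (t * ((m : ℝ) / g)) = ee (t * ((r : ℝ) / g)) := by
    intro t
    have : (m : ℝ) = r + g * q := by
      have : m = r + g * q := by linarith
      exact_mod_cast this
    rw [this, show (t : ℝ) * ((r + g * q) / g) = t * ((r : ℝ) / g) + ((t * q : ℤ) : ℝ) by
      push_cast; field_simp, ee_add, ee_int, mul_one]
  simp_rw [e1]
  have hx : |(r : ℝ) / g| ≤ 1 / 2 := by
    rw [abs_div, abs_of_pos hg0, div_le_iff₀ hg0]
    have : 2 * |r| ≤ g := by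
      rcases abs_cases r with ⟨e, -⟩ | ⟨e, -⟩ <;> omega
    have : 2 * |(r : ℝ)| ≤ g := by exact_mod_cast this
    linarith
  refine (norm_geom_le M _ hx (div_ne_zero (by exact_mod_cast hr0) hg0.ne')).trans ?_
  rw [abs_div, abs_of_pos hg0, show 1 / (2 * (|(r : ℝ)| / g)) = g / (2 * |(r : ℝ)|) by field_simp]
  rcases hcase with e | e
  · rw [e]
    exact le_add_of_nonneg_right (by positivity)
  · refine le_add_of_nonneg_of_le (by positivity) ?_
    have : (T : ℝ) ≤ |(r : ℝ)| := by exact_mod_cast e.le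
    gcongr

theorem sum_inv_pow_le (b N0 N : ℕ) (hb : 2 ≤ b) :
    ∑ j ∈ Ico N0 N, 1 / (b : ℝ) ^ j ≤ 2 / (b : ℝ) ^ N0 := by
  have hb' : (2 : ℝ) ≤ b := by exact_mod_cast hb
  rw [sum_Ico_eq_sum_range]
  calc ∑ i ∈ range (N - N0), 1 / (b : ℝ) ^ (N0 + i)
      ≤ ∑ i ∈ range (N - N0), 1 / (b : ℝ) ^ N0 * (1 / 2) ^ i := by
        refine sum_le_sum fun i _ => ?_
        rw [pow_add, one_div_pow, div_mul_div_comm, one_mul]
        gcongr
    _ = 1 / (b : ℝ) ^ N0 * ∑ i ∈ range (N - N0), (1 / 2 : ℝ) ^ i := by rw [mul_sum]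
    _ ≤ 1 / (b : ℝ) ^ N0 * 2 := by gcongr; exact sum_geometric_two_le _
    _ = 2 / (b : ℝ) ^ N0 := by ring

theorem abs_freq_ge (b h j j' : ℕ) (hb : 2 ≤ b) (hh : 1 ≤ h) (hj : j ≠ j') :
    (b : ℝ) ^ j' ≤ 2 * |(((h : ℤ) * ((b : ℤ) ^ j - (b : ℤ) ^ j') : ℤ) : ℝ)| := by
  have hb' : (2 : ℝ) ≤ b := by exact_mod_cast hb
  have hh' : (1 : ℝ) ≤ h := by exact_mod_cast hh
  push_cast
  rw [abs_mul, Nat.abs_cast]
  have key : (b : ℝ) ^ j' ≤ 2 * |(b : ℝ) ^ j - (b : ℝ) ^ j'| := by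
    have step : ∀ i i' : ℕ, i < i' → 2 * (b : ℝ) ^ i ≤ (b : ℝ) ^ i' := by
      intro i i' hi
      calc 2 * (b : ℝ) ^ i ≤ b * (b : ℝ) ^ i := by gcongr
        _ = (b : ℝ) ^ (i + 1) := by ring
        _ ≤ (b : ℝ) ^ i' := pow_le_pow_right₀ (by linarith) hi
    have p1 : (0 : ℝ) < (b : ℝ) ^ j := by positivity
    have p2 : (0 : ℝ) < (b : ℝ) ^ j' := by positivity
    rcases lt_or_gt_of_ne hj with e | e
    · have := step _ _ e
      rw [abs_of_neg (by linarith)]; linarith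
    · have := step _ _ e
      rw [abs_of_pos (by linarith)]; linarith
  have : |(b : ℝ) ^ j - (b : ℝ) ^ j'| ≤ h * |(b : ℝ) ^ j - (b : ℝ) ^ j'| :=
    le_mul_of_one_le_left (abs_nonneg _) hh'
  linarith

theorem second_moment (M g T b h N0 N : ℕ) (hg : 0 < g) (hT : 0 < T) (hb : 2 ≤ b) (hh : 1 ≤ h)
    (y : ℝ) (H : ∀ j < N, ∀ j' < N, ∀ r : ℤ, |r| ≤ T →
      (g : ℤ) ∣ (h : ℤ) * ((b : ℤ) ^ j - (b : ℤ) ^ j') - r →
        r = (h : ℤ) * ((b : ℤ) ^ j - (b : ℤ) ^ j')) :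
    ∑ t ∈ range M, ‖∑ j ∈ Ico N0 N, ee (h * (b : ℝ) ^ j * ((y + t) / g))‖ ^ 2
      ≤ N * (M + 2 * g / (b : ℝ) ^ N0 + N * (g / (2 * T))) := by
  have hg0 : (0 : ℝ) < g := by exact_mod_cast hg
  have hT0 : (0 : ℝ) < T := by exact_mod_cast hT
  have hb0 : (0 : ℝ) < b := by exact_mod_cast (by omega : 0 < b)
  let m : ℕ → ℕ → ℤ := fun j j' => (h : ℤ) * ((b : ℤ) ^ j - (b : ℤ) ^ j')
  have e1 : ((∑ t ∈ range M, ‖∑ j ∈ Ico N0 N, ee (h * (b : ℝ) ^ j * ((y + t) / g))‖ ^ 2 : ℝ) : ℂ)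
      = ∑ j ∈ Ico N0 N, ∑ j' ∈ Ico N0 N,
        ee (m j j' * (y / g)) * ∑ t ∈ range M, ee (t * ((m j j' : ℝ) / g)) := by
    push_cast
    simp_rw [← Complex.mul_conj', map_sum, sum_mul_sum, conj_ee, ← ee_add, mul_sum, ← ee_add]
    rw [sum_comm]
    refine sum_congr rfl fun j _ => ?_
    rw [sum_comm]
    refine sum_congr rfl fun j' _ => sum_congr rfl fun t _ => ?_
    congr 1
    simp only [m]
    push_cast
    ring
  have e2 : ∑ t ∈ range M, ‖∑ j ∈ Ico N0 N, ee (h * (b : ℝ) ^ j * ((y + t) / g))‖ ^ 2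
      ≤ ∑ j ∈ Ico N0 N, ∑ j' ∈ Ico N0 N, ‖∑ t ∈ range M, ee (t * ((m j j' : ℝ) / g))‖ := by
    refine (le_abs_self _).trans ?_
    rw [← Real.norm_eq_abs, ← Complex.norm_real, e1]
    refine (norm_sum_le _ _).trans (sum_le_sum fun j _ => (norm_sum_le _ _).trans ?_)
    refine sum_le_sum fun j' _ => ?_
    rw [norm_mul, norm_ee, one_mul]
  refine e2.trans ?_
  have hcard : ((Ico N0 N).card : ℝ) ≤ N := by
    rw [Nat.card_Ico]; exact_mod_cast Nat.sub_le _ _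
  calc ∑ j ∈ Ico N0 N, ∑ j' ∈ Ico N0 N, ‖∑ t ∈ range M, ee (t * ((m j j' : ℝ) / g))‖
      ≤ ∑ _j ∈ Ico N0 N, (M + 2 * g / (b : ℝ) ^ N0 + N * (g / (2 * T))) := by
        refine sum_le_sum fun j hj => ?_
        calc ∑ j' ∈ Ico N0 N, ‖∑ t ∈ range M, ee (t * ((m j j' : ℝ) / g))‖
            ≤ ∑ j' ∈ Ico N0 N, ((if j' = j then (M : ℝ) else 0)
              + g * (1 / (b : ℝ) ^ j') + g / (2 * T)) := by
              refine sum_le_sum fun j' hj' => ?_
              by_cases hc : j' = j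
              · rw [if_pos hc]
                have : ‖∑ t ∈ range M, ee (t * ((m j j' : ℝ) / g))‖ ≤ M := by
                  refine (norm_sum_le _ _).trans ?_
                  simp [norm_ee]
                have p1 : (0 : ℝ) ≤ g * (1 / (b : ℝ) ^ j') := by positivity
                have p2 : (0 : ℝ) ≤ g / (2 * T) := by positivity
                linarith
              · rw [if_neg hc, zero_add]
                have a1 := abs_freq_ge b h j j' hb hh (Ne.symm hc)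
                have p1 : (0 : ℝ) < (b : ℝ) ^ j' := by positivity
                have a2 : m j j' ≠ 0 := by
                  intro e0
                  simp only [m] at e0
                  rw [e0] at a1
                  simp at a1
                  linarith
                refine (norm_geom_div_le M g T hg hT (m j j') a2
                  (H j (mem_Ico.1 hj).2 j' (mem_Ico.1 hj').2)).trans ?_
                rw [mul_one_div]
                gcongr
          _ = M + g * ∑ j' ∈ Ico N0 N, 1 / (b : ℝ) ^ j' + (Ico N0 N).card * (g / (2 * T)) := by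
              rw [sum_add_distrib, sum_add_distrib, sum_ite_eq' _ j, if_pos hj, ← mul_sum,
                sum_const, nsmul_eq_mul]
          _ ≤ M + g * (2 / (b : ℝ) ^ N0) + N * (g / (2 * T)) := by
              gcongr
              exact sum_inv_pow_le b N0 N hb
          _ = _ := by ring
    _ = (Ico N0 N).card * (M + 2 * g / (b : ℝ) ^ N0 + N * (g / (2 * T))) := by
        rw [sum_const, nsmul_eq_mul]
    _ ≤ _ := by gcongr

theorem exists_not_dvd (p A : ℕ) (F : Finset ℤ) (h0 : ∀ z ∈ F, z ≠ 0) (hA : ∀ z ∈ F, |z| ≤ 2 ^ A)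
    (hK : (p + 2) + A * F.card < 2 ^ (p + 1)) :
    ∃ g : ℕ, 2 ^ p < g ∧ g ≤ 2 ^ (p + 1) ∧ ∀ z ∈ F, ¬ (g : ℤ) ∣ z := by
  by_contra hcon
  push Not at hcon
  have hP0 : 0 < ∏ z ∈ F, z.natAbs := prod_pos fun z hz => Int.natAbs_pos.2 (h0 z hz)
  have hdvd : Nat.lcmUpto (2 ^ (p + 1)) ∣ ∏ z ∈ F, z.natAbs := by
    unfold Nat.lcmUpto
    refine Finset.lcm_dvd fun m hm => ?_
    obtain ⟨hm1, hm2⟩ := mem_Icc.1 hm
    have a1 := Nat.div_add_mod (2 ^ (p + 1)) m
    have a2 := Nat.mod_lt (2 ^ (p + 1)) (show m > 0 by omega)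
    have a3 : 1 ≤ 2 ^ (p + 1) / m := Nat.div_pos hm2 (by omega)
    have a4 : m ≤ m * (2 ^ (p + 1) / m) := Nat.le_mul_of_pos_right _ a3
    have a5 : 2 ^ (p + 1) = 2 * 2 ^ p := by ring
    obtain ⟨z, hz, hd⟩ := hcon (m * (2 ^ (p + 1) / m)) (by omega) (by omega)
    have a6 : m * (2 ^ (p + 1) / m) ∣ z.natAbs := Int.natCast_dvd.1 hd
    exact ((Dvd.intro _ rfl).trans a6).trans (dvd_prod_of_mem _ hz)
  have h1 := Nat.le_of_dvd hP0 hdvd
  have h2 := Chebyshev.two_pow_le_mul_lcmUpto (2 ^ (p + 1))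
  have h3 : ∏ z ∈ F, z.natAbs ≤ (2 ^ A) ^ F.card := by
    refine prod_le_pow_card _ _ _ fun z hz => ?_
    have := hA z hz
    rw [← Int.natCast_natAbs] at this
    exact_mod_cast this
  have h4 : 2 ^ (p + 1) + 1 ≤ 2 ^ (p + 2) := by
    have : 1 ≤ 2 ^ (p + 1) := Nat.one_le_two_pow
    have : 2 ^ (p + 2) = 2 * 2 ^ (p + 1) := by ring
    omega
  have h5 : 2 ^ 2 ^ (p + 1) ≤ 2 ^ ((p + 2) + A * F.card) := by
    rw [pow_add 2 (p + 2), pow_mul]
    exact h2.trans (Nat.mul_le_mul h4 (h1.trans h3))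
  have := (Nat.pow_le_pow_iff_right (by norm_num : 1 < 2)).1 h5
  omega

theorem exists_good_den (k τ D G0 : ℕ) : ∃ g L : ℕ, G0 ≤ g ∧ g ^ τ ≤ 2 ^ L ∧
    ∀ h ≤ k, ∀ b ≤ k, ∀ j < L, ∀ j' < L, ∀ r : ℤ, |r| ≤ (L * D : ℕ) →
      (g : ℤ) ∣ (h : ℤ) * ((b : ℤ) ^ j - (b : ℤ) ^ j') - r →
        r = (h : ℤ) * ((b : ℤ) ^ j - (b : ℤ) ^ j') := by
  classical
  set C : ℕ := (k * τ + k + τ * D + 1) * ((k + 1) * (k + 1) * τ * τ * (2 * τ * D + 1)) + 2 with hC
  obtain ⟨q, hq1, hq2⟩ : ∃ q : ℕ, G0 + 1 ≤ q ∧ C * q ^ 4 < 2 ^ q := by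
    have t1 := (tendsto_pow_const_div_const_pow_of_one_lt 4 (r := 2) (by norm_num)).const_mul (C : ℝ)
    rw [mul_zero] at t1
    obtain ⟨q, h1, h2⟩ := ((eventually_ge_atTop (G0 + 1)).and
      (t1.eventually (gt_mem_nhds zero_lt_one))).exists
    refine ⟨q, h1, ?_⟩
    rw [← mul_div_assoc, div_lt_one (by positivity)] at h2
    exact_mod_cast h2
  obtain ⟨p, rfl⟩ : ∃ p, q = p + 1 := ⟨q - 1, by omega⟩
  set L : ℕ := τ * (p + 1) with hL
  let f : ℕ × ℕ × ℕ × ℕ × ℤ → ℤ := fun w =>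
    (w.1 : ℤ) * ((w.2.1 : ℤ) ^ w.2.2.1 - (w.2.1 : ℤ) ^ w.2.2.2.1) - w.2.2.2.2
  let I : Finset (ℕ × ℕ × ℕ × ℕ × ℤ) := range (k + 1) ×ˢ range (k + 1) ×ˢ range L ×ˢ range L ×ˢ
    Icc (-((L * D : ℕ) : ℤ)) (L * D : ℕ)
  have hcard : ((I.image f).erase 0).card ≤ (k + 1) * (k + 1) * L * L * (2 * L * D + 1) := by
    refine card_erase_le.trans (card_image_le.trans ?_)
    simp only [I, card_product, card_range, Int.card_Icc]
    have : ((L * D : ℕ) + 1 - -((L * D : ℕ) : ℤ)).toNat = 2 * L * D + 1 := by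
      rw [mul_assoc 2 L D]
      generalize L * D = x
      omega
    rw [this]
    exact le_of_eq (by ring)
  obtain ⟨g, hg1, hg2, hg3⟩ := exists_not_dvd p (k * (L + 1) + L * D + 1) ((I.image f).erase 0)
    (fun z hz => ne_of_mem_erase hz) (by
      intro z hz
      obtain ⟨⟨h, b, j, j', r⟩, hw, rfl⟩ := mem_image.1 (mem_of_mem_erase hz)
      simp only [I, mem_product, mem_range, mem_Icc] at hw
      obtain ⟨w1, w2, w3, w4, w5⟩ := hw
      simp only [f]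
      have k2 : k ≤ 2 ^ k := Nat.lt_two_pow_self.le
      have b1 : ∀ i < L, (b : ℤ) ^ i ≤ (2 ^ k) ^ L := by
        intro i hi
        have : b ^ i ≤ (2 ^ k) ^ L := (Nat.pow_le_pow_left (by omega : b ≤ 2 ^ k) i).trans
          (Nat.pow_le_pow_right (by positivity) hi.le)
        exact_mod_cast this
      have b2 : |(b : ℤ) ^ j - (b : ℤ) ^ j'| ≤ (2 ^ k) ^ L := by
        have p1 : (0 : ℤ) ≤ (b : ℤ) ^ j := by positivity
        have p2 : (0 : ℤ) ≤ (b : ℤ) ^ j' := by positivity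
        have := b1 j w3
        have := b1 j' w4
        rw [abs_le]; constructor <;> linarith
      have b3 : |(h : ℤ) * ((b : ℤ) ^ j - (b : ℤ) ^ j')| ≤ 2 ^ (k * (L + 1)) := by
        rw [abs_mul, Nat.abs_cast, pow_mul, pow_succ']
        refine mul_le_mul ?_ b2 (abs_nonneg _) (by positivity)
        exact_mod_cast (by omega : h ≤ 2 ^ k)
      have b4 : |r| ≤ 2 ^ (L * D) := by
        have : ((L * D : ℕ) : ℤ) ≤ 2 ^ (L * D) := by exact_mod_cast Nat.lt_two_pow_self.le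
        exact (abs_le.2 w5).trans this
      have b5 : (2 : ℤ) ^ (k * (L + 1)) ≤ 2 ^ (k * (L + 1) + L * D) :=
        pow_le_pow_right₀ (by norm_num) (by omega)
      have b6 : (2 : ℤ) ^ (L * D) ≤ 2 ^ (k * (L + 1) + L * D) :=
        pow_le_pow_right₀ (by norm_num) (by omega)
      have b7 := abs_sub ((h : ℤ) * ((b : ℤ) ^ j - (b : ℤ) ^ j')) r
      rw [pow_succ]
      linarith) (by
      refine lt_of_le_of_lt ?_ hq2
      have c1 : k * (L + 1) + L * D + 1 ≤ (k * τ + k + τ * D + 1) * (p + 1) := by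
        rw [hL]; nlinarith [Nat.zero_le (k * p), Nat.zero_le p]
      have c2 : (k + 1) * (k + 1) * L * L * (2 * L * D + 1)
          ≤ ((k + 1) * (k + 1) * τ * τ * (2 * τ * D + 1)) * (p + 1) ^ 3 := by
        have : 2 * L * D + 1 ≤ (2 * τ * D + 1) * (p + 1) := by rw [hL]; nlinarith
        calc (k + 1) * (k + 1) * L * L * (2 * L * D + 1)
            ≤ (k + 1) * (k + 1) * L * L * ((2 * τ * D + 1) * (p + 1)) := by gcongr
          _ = _ := by rw [hL]; ring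
      have c3 : p + 2 ≤ 2 * (p + 1) ^ 4 := by
        have : p + 1 ≤ (p + 1) ^ 4 := Nat.le_self_pow (by norm_num) _
        omega
      have c4 := Nat.mul_le_mul c1 (hcard.trans c2)
      rw [hC]
      nlinarith)
  refine ⟨g, L, ?_, ?_, ?_⟩
  · have : p < 2 ^ p := Nat.lt_two_pow_self
    omega
  · rw [hL, mul_comm, pow_mul]
    exact Nat.pow_le_pow_left hg2 _
  · intro h hh b hb j hj j' hj' r hr hd
    by_contra hne
    refine hg3 _ (mem_erase.2 ⟨sub_ne_zero.2 (Ne.symm hne), mem_image.2 ⟨(h, b, j, j', r), ?_, rfl⟩⟩) hd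
    simp only [I, mem_product, mem_range, mem_Icc]
    exact ⟨by omega, by omega, hj, hj', abs_le.1 hr⟩

end Pool.Agent.Lib.MP_0496af_nt
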