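import Mathlib
import Pool.Agent.Lib.MP_0496af_nt.WeylSum

/-!
The criterion of Weyl, and normality in a base from the decay of exponential sums.
-/

set_option autoImplicit false

namespace Pool.Agent.Lib.MP_0496af_nt

open Finset Filter Topology MeasureTheory
open scoped Nat Real

theorem fourier_eq_ee (n : ℤ) (x : ℝ) : fourier n (x : UnitAddCircle) = ee (n * x) := by
  rw [fourier_coe_apply]
  unfold ee
  congr 1
  push_cast
  ring

theorem vol_univ : (volume : Measure UnitAddCircle).real Set.univ = 1 := by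
  simp [measureReal_def]

theorem integrable_cont (f : C(UnitAddCircle, ℂ)) : Integrable f volume :=
  f.continuous.integrable_of_hasCompactSupport (HasCompactSupport.of_compactSpace _)

theorem weyl_cont (x : ℕ → ℝ)
    (hW : ∀ h : ℕ, 1 ≤ h → Tendsto (fun N : ℕ => (∑ j ∈ range N, ee (h * x j)) / N) atTop (𝓝 0))
    (f : C(UnitAddCircle, ℂ)) :
    Tendsto (fun N : ℕ => (∑ j ∈ range N, f (x j)) / N) atTop (𝓝 (∫ y, f y)) := by
  have hspan : ∀ g ∈ Submodule.span ℂ (Set.range (@fourier 1)),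
      Tendsto (fun N : ℕ => (∑ j ∈ range N, g (x j)) / N) atTop (𝓝 (∫ y, g y)) := by
    intro g hg
    induction hg using Submodule.span_induction with
    | mem g hg =>
      obtain ⟨n, rfl⟩ := hg
      rcases eq_or_ne n 0 with rfl | hn
      · simp only [fourier_zero, sum_const, card_range, nsmul_eq_mul, mul_one, integral_const,
          vol_univ, one_smul]
        refine tendsto_const_nhds.congr' ?_
        filter_upwards [eventually_gt_atTop 0] with N hN
        rw [div_self (by exact_mod_cast hN.ne')]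
      · rw [integral_eq_zero_of_add_right_eq_neg (μ := volume)
          (fourier_add_half_inv_index hn one_pos)]
        simp_rw [fourier_eq_ee]
        obtain ⟨h, rfl | rfl⟩ := Int.eq_nat_or_neg n
        · simpa using hW h (by omega)
        · have := (Complex.continuous_conj.tendsto 0).comp (hW h (by omega))
          rw [map_zero] at this
          refine this.congr fun N => ?_
          simp [conj_ee]
    | zero => simp
    | add g g' _ _ h1 h2 =>
      simp only [ContinuousMap.add_apply]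
      rw [integral_add (integrable_cont g) (integrable_cont g')]
      refine (h1.add h2).congr fun N => ?_
      rw [sum_add_distrib, add_div]
    | smul c g _ h1 =>
      simp only [ContinuousMap.smul_apply, smul_eq_mul]
      rw [integral_const_mul]
      refine (h1.const_mul c).congr fun N => ?_
      rw [← mul_sum, mul_div_assoc]
  rw [Metric.tendsto_atTop]
  intro ε hε
  have hf : f ∈ closure (Submodule.span ℂ (Set.range (@fourier 1)) : Set C(UnitAddCircle, ℂ)) := by
    rw [← Submodule.topologicalClosure_coe, span_fourier_closure_eq_top]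
    trivial
  obtain ⟨g, hg, hfg⟩ := Metric.mem_closure_iff.1 hf (ε / 3) (by positivity)
  obtain ⟨N0, hN0⟩ := Metric.tendsto_atTop.1 (hspan g hg) (ε / 3) (by positivity)
  refine ⟨N0 + 1, fun N hN => ?_⟩
  have hpt : ∀ y, ‖f y - g y‖ ≤ dist f g := fun y => by
    rw [← dist_eq_norm]; exact ContinuousMap.dist_apply_le_dist y
  have hN' : (0 : ℝ) < N := by exact_mod_cast (by omega : 0 < N)
  have h1 : dist ((∑ j ∈ range N, f (x j)) / N) ((∑ j ∈ range N, g (x j)) / N) ≤ dist f g := by
    rw [dist_eq_norm, ← sub_div, ← sum_sub_distrib, norm_div, Complex.norm_natCast,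
      div_le_iff₀ hN']
    refine (norm_sum_le _ _).trans ((sum_le_sum fun j _ => hpt _).trans ?_)
    simp [mul_comm]
  have h2 : dist (∫ y, g y) (∫ y, f y) ≤ dist f g := by
    rw [dist_comm, dist_eq_norm, ← integral_sub (integrable_cont f) (integrable_cont g)]
    have := norm_integral_le_of_norm_le_const (μ := (volume : Measure UnitAddCircle))
      (f := fun y => f y - g y) (C := dist f g) (Eventually.of_forall hpt)
    rwa [vol_univ, mul_one] at this
  have h3 := hN0 N (by omega)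
  have h4 := dist_triangle4 ((∑ j ∈ range N, f (x j)) / N) ((∑ j ∈ range N, g (x j)) / N)
    (∫ y, g y) (∫ y, f y)
  linarith

theorem weyl_upper (x : ℕ → ℝ)
    (hW : ∀ h : ℕ, 1 ≤ h → Tendsto (fun N : ℕ => (∑ j ∈ range N, ee (h * x j)) / N) atTop (𝓝 0))
    (c r ε : ℝ) (hr : 0 ≤ r) (hε : 0 < ε) (p : ℕ → Prop) [DecidablePred p]
    (hp : ∀ j, p j → ∃ z : ℤ, |x j - z - c| ≤ r) :
    ∀ᶠ N : ℕ in atTop, (((range N).filter p).card : ℝ) / N < 2 * r + ε := by
  let f : UnitAddCircle → ℝ := fun y => max 0 (min 1 ((r + ε / 4 - dist y c) / (ε / 4)))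
  have hf : Continuous f := by simp only [f]; fun_prop
  have hf0 : ∀ y, 0 ≤ f y := fun y => le_max_left _ _
  have h1 := weyl_cont x hW ⟨fun y => (f y : ℂ), Complex.continuous_ofReal.comp hf⟩
  simp only [ContinuousMap.coe_mk] at h1
  rw [integral_complex_ofReal] at h1
  have h2 : Tendsto (fun N : ℕ => (∑ j ∈ range N, f (x j)) / N) atTop (𝓝 (∫ y, f y)) := by
    have := (Complex.continuous_re.tendsto _).comp h1
    rw [Complex.ofReal_re] at this
    refine this.congr fun N => ?_
    simp only [Function.comp]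
    rw [← Complex.ofReal_sum, ← Complex.ofReal_natCast, ← Complex.ofReal_div, Complex.ofReal_re]
  have h3 : ∫ y, f y ≤ 2 * r + ε / 2 := by
    have a1 : ∫ y, f y ≤ ∫ y, (Metric.closedBall (c : UnitAddCircle) (r + ε / 4)).indicator
        (fun _ => (1 : ℝ)) y := by
      refine integral_mono (hf.integrable_of_hasCompactSupport (HasCompactSupport.of_compactSpace _))
        ((integrable_const _).indicator measurableSet_closedBall) fun y => ?_
      by_cases hy : y ∈ Metric.closedBall (c : UnitAddCircle) (r + ε / 4)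
      · rw [Set.indicator_of_mem hy]
        exact max_le zero_le_one (min_le_left _ _)
      · rw [Set.indicator_of_notMem hy]
        refine max_le le_rfl ((min_le_right _ _).trans ?_)
        rw [Metric.mem_closedBall, not_le] at hy
        exact div_nonpos_of_nonpos_of_nonneg (by linarith) (by positivity)
    rw [integral_indicator measurableSet_closedBall, setIntegral_const, smul_eq_mul, mul_one,
      measureReal_def, AddCircle.volume_closedBall,
      ENNReal.toReal_ofReal (le_min zero_le_one (by positivity))] at a1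
    have := min_le_right (1 : ℝ) (2 * (r + ε / 4))
    linarith
  filter_upwards [h2.eventually (gt_mem_nhds (show ∫ y, f y < 2 * r + ε by linarith))] with N hN
  refine lt_of_le_of_lt ?_ hN
  gcongr
  rw [card_filter]
  push_cast
  refine sum_le_sum fun j _ => ?_
  split_ifs with hj
  · obtain ⟨z, hz⟩ := hp j hj
    have : dist (x j : UnitAddCircle) c ≤ r := by
      rw [dist_eq_norm, ← AddCircle.coe_sub, UnitAddCircle.norm_eq]
      refine (round_le _ z).trans ?_
      rwa [show x j - c - z = x j - z - c by ring]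
    refine le_max_of_le_right (le_min le_rfl ?_)
    rw [le_div_iff₀ (by positivity)]
    linarith
  · exact hf0 _

theorem digits_value (b : ℕ) (hb : 1 ≤ b) (d : ℕ → ℤ) (k : ℕ) : ∃ D : ℤ, ∀ y : ℝ,
    (∀ i < k, ⌊y * (b : ℝ) ^ (i + 1)⌋ % (b : ℤ) = d i) → ⌊y * (b : ℝ) ^ k⌋ = ⌊y⌋ * b ^ k + D := by
  induction k with
  | zero => exact ⟨0, fun y _ => by simp⟩
  | succ k ih =>
    obtain ⟨D, hD⟩ := ih
    refine ⟨b * D + d k, fun y hy => ?_⟩
    have h1 := hD y fun i hi => hy i (by omega)
    have h2 := hy k (by omega)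
    have h3 : ⌊y * (b : ℝ) ^ (k + 1)⌋ / (b : ℤ) = ⌊y * (b : ℝ) ^ k⌋ := by
      rw [← Int.floor_div_natCast, pow_succ, ← mul_assoc, mul_div_cancel_right₀]
      exact_mod_cast (by omega : b ≠ 0)
    rw [← Int.mul_ediv_add_emod ⌊y * (b : ℝ) ^ (k + 1)⌋ b, h3, h1, h2]
    ring

theorem normal_of_weyl (ξ : ℝ) (b : ℕ) (hb : 2 ≤ b)
    (hW : ∀ h : ℕ, 1 ≤ h →
      Tendsto (fun N : ℕ => (∑ j ∈ range N, ee (h * (b : ℝ) ^ j * ξ)) / N) atTop (𝓝 0))
    (k : ℕ) (d : Fin k → Fin b) :
    Tendsto (fun N : ℕ => (((range N).filter (fun j : ℕ => ∀ i : Fin k,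
        ⌊ξ * (b : ℝ) ^ (j + 1 + (i : ℕ))⌋ % (b : ℤ) = (((d i : ℕ)) : ℤ))).card : ℝ) / (N : ℝ))
      atTop (𝓝 (1 / (b : ℝ) ^ k)) := by
  have hb0 : (0 : ℝ) < b := by exact_mod_cast (by omega : 0 < b)
  have hbk : (0 : ℝ) < (b : ℝ) ^ k := by positivity
  let cnt : (Fin k → Fin b) → ℕ → ℝ := fun d N => (((range N).filter (fun j : ℕ => ∀ i : Fin k,
        ⌊ξ * (b : ℝ) ^ (j + 1 + (i : ℕ))⌋ % (b : ℤ) = (((d i : ℕ)) : ℤ))).card : ℝ) / (N : ℝ)
  have hup : ∀ (d : Fin k → Fin b) (ε : ℝ), 0 < ε →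
      ∀ᶠ N : ℕ in atTop, cnt d N < 1 / (b : ℝ) ^ k + ε := by
    intro d ε hε
    obtain ⟨D, hD⟩ := digits_value b (by omega)
      (fun i => if h : i < k then ((d ⟨i, h⟩ : ℕ) : ℤ) else 0) k
    have := weyl_upper (fun j => (b : ℝ) ^ j * ξ) (by simpa [mul_assoc] using hW)
      ((D + 1 / 2) / (b : ℝ) ^ k) (1 / (b : ℝ) ^ k / 2) ε (by positivity) hε
      (fun j : ℕ => ∀ i : Fin k,
        ⌊ξ * (b : ℝ) ^ (j + 1 + (i : ℕ))⌋ % (b : ℤ) = (((d i : ℕ)) : ℤ)) (by
        intro j hj
        have h1 := hD ((b : ℝ) ^ j * ξ) (by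
          intro i hi
          rw [dif_pos hi, ← hj ⟨i, hi⟩]
          congr 2
          ring)
        refine ⟨⌊(b : ℝ) ^ j * ξ⌋, ?_⟩
        have h2 := Int.floor_le ((b : ℝ) ^ j * ξ * (b : ℝ) ^ k)
        have h3 := Int.lt_floor_add_one ((b : ℝ) ^ j * ξ * (b : ℝ) ^ k)
        rw [h1] at h2 h3
        push_cast at h2 h3
        rw [show (b : ℝ) ^ j * ξ - ⌊(b : ℝ) ^ j * ξ⌋ - (D + 1 / 2) / (b : ℝ) ^ k
          = (((b : ℝ) ^ j * ξ - ⌊(b : ℝ) ^ j * ξ⌋) * (b : ℝ) ^ k - (D + 1 / 2)) / (b : ℝ) ^ k by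
            field_simp, abs_div, abs_of_pos hbk, div_div, mul_comm _ (2 : ℝ), ← div_div]
        gcongr
        rw [abs_le]
        constructor <;> nlinarith)
    rwa [mul_div_cancel₀ _ (by norm_num : (2 : ℝ) ≠ 0)] at this
  have hsum : ∀ N : ℕ, 0 < N → ∑ d, cnt d N = 1 := by
    intro N hN
    simp only [cnt]
    rw [← sum_div, div_eq_one_iff_eq (by exact_mod_cast hN.ne')]
    let dig : ℕ → Fin k → Fin b := fun j i =>
      ⟨(⌊ξ * (b : ℝ) ^ (j + 1 + (i : ℕ))⌋ % (b : ℤ)).toNat, by
        have h1 := Int.emod_lt_of_pos ⌊ξ * (b : ℝ) ^ (j + 1 + (i : ℕ))⌋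
          (show (0 : ℤ) < b by omega)
        omega⟩
    have h1 := card_eq_sum_card_fiberwise (f := dig) (s := range N) (t := univ) (by simp)
    rw [card_range] at h1
    have h2 : ∀ d : Fin k → Fin b, (range N).filter (fun j : ℕ => ∀ i : Fin k,
        ⌊ξ * (b : ℝ) ^ (j + 1 + (i : ℕ))⌋ % (b : ℤ) = (((d i : ℕ)) : ℤ))
        = (range N).filter (fun j => dig j = d) := by
      intro d
      refine filter_congr fun j _ => ?_
      rw [funext_iff]
      refine forall_congr' fun i => ?_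
      have h1 := Int.emod_nonneg ⌊ξ * (b : ℝ) ^ (j + 1 + (i : ℕ))⌋ (show (b : ℤ) ≠ 0 by omega)
      rw [Fin.ext_iff]
      simp only [dig]
      omega
    simp_rw [h2]
    exact_mod_cast h1.symm
  change Tendsto (cnt d) atTop (𝓝 (1 / (b : ℝ) ^ k))
  rw [tendsto_order]
  constructor
  · intro a ha
    have hε : 0 < (1 / (b : ℝ) ^ k - a) / (b : ℝ) ^ k := div_pos (by linarith) hbk
    have h1 : ∀ᶠ N : ℕ in atTop, ∀ d', cnt d' N
        < 1 / (b : ℝ) ^ k + (1 / (b : ℝ) ^ k - a) / (b : ℝ) ^ k :=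
      eventually_all.2 fun d' => hup d' _ hε
    filter_upwards [h1, eventually_gt_atTop 0] with N hN hN0
    have h2 := hsum N hN0
    rw [← add_sum_erase _ _ (mem_univ d)] at h2
    have h3 : ∑ d' ∈ univ.erase d, cnt d' N ≤ ((b : ℝ) ^ k - 1) *
        (1 / (b : ℝ) ^ k + (1 / (b : ℝ) ^ k - a) / (b : ℝ) ^ k) := by
      refine (sum_le_sum fun d' _ => (hN d').le).trans ?_
      rw [sum_const, nsmul_eq_mul, card_erase_of_mem (mem_univ d), card_univ, Fintype.card_fun,
        Fintype.card_fin, Fintype.card_fin, Nat.cast_sub (Nat.one_le_pow _ _ (by omega))]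
      push_cast
      exact le_rfl
    have h4 : ((b : ℝ) ^ k - 1) * (1 / (b : ℝ) ^ k + (1 / (b : ℝ) ^ k - a) / (b : ℝ) ^ k)
        = 1 - a - (1 / (b : ℝ) ^ k - a) / (b : ℝ) ^ k := by field_simp; ring
    linarith
  · intro a ha
    filter_upwards [hup d (a - 1 / (b : ℝ) ^ k) (by linarith)] with N hN
    linarith

end Pool.Agent.Lib.MP_0496af_nt
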