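import Mathlib
import Pool.Agent.Lib.MP_0496af_nt.WeylSum

/-!
The exponential sum part of one step of the nested interval construction.
-/

set_option autoImplicit false

namespace Pool.Agent.Lib.MP_0496af_nt

open Finset Filter Topology
open scoped Nat Real

theorem cheb_count (M : ℕ) (f : ℕ → ℝ) (lam : ℝ) (hl : 0 ≤ lam) :
    (((range M).filter (fun t => lam < f t)).card : ℝ) * lam ^ 2 ≤ ∑ t ∈ range M, f t ^ 2 := by
  calc (((range M).filter (fun t => lam < f t)).card : ℝ) * lam ^ 2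
      = ∑ _t ∈ (range M).filter (fun t => lam < f t), lam ^ 2 := by rw [sum_const, nsmul_eq_mul]
    _ ≤ ∑ t ∈ (range M).filter (fun t => lam < f t), f t ^ 2 :=
        sum_le_sum fun t ht => pow_le_pow_left₀ hl (mem_filter.1 ht).2.le 2
    _ ≤ ∑ t ∈ range M, f t ^ 2 :=
        sum_le_sum_of_subset_of_nonneg (filter_subset _ _) fun t _ _ => by positivity

theorem norm_sum_ee_le (s : Finset ℕ) (f : ℕ → ℝ) : ‖∑ j ∈ s, ee (f j)‖ ≤ s.card := by
  refine (norm_sum_le _ _).trans ?_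
  simp [norm_ee]

theorem norm_sum_Ico_le (f : ℕ → ℝ) (N0 N1 N : ℕ) (h : N1 ≤ N) :
    ‖∑ j ∈ Ico N0 N, ee (f j)‖ ≤ ‖∑ j ∈ Ico N0 N1, ee (f j)‖ + ((N - N1 : ℕ) : ℝ) := by
  rcases le_total N0 N1 with h1 | h1
  · rw [← sum_Ico_consecutive _ h1 h]
    refine (norm_add_le _ _).trans ?_
    have := norm_sum_ee_le (Ico N1 N) f
    rw [Nat.card_Ico] at this
    linarith
  · have := norm_sum_ee_le (Ico N0 N) f
    rw [Nat.card_Ico] at this
    have h2 : ((N - N0 : ℕ) : ℝ) ≤ ((N - N1 : ℕ) : ℝ) := by exact_mod_cast (by omega)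
    have := norm_nonneg (∑ j ∈ Ico N0 N1, ee (f j))
    linarith

theorem norm_sum_perturb (b h N0 N : ℕ) (hb : 2 ≤ b) (x s : ℝ) (hs : 0 ≤ s) :
    ‖∑ j ∈ Ico N0 N, ee (h * (b : ℝ) ^ j * (x + s))‖
      ≤ ‖∑ j ∈ Ico N0 N, ee (h * (b : ℝ) ^ j * x)‖ + 2 * π * h * s * (b : ℝ) ^ N := by
  have h1 := norm_sub_norm_le (∑ j ∈ Ico N0 N, ee (h * (b : ℝ) ^ j * (x + s)))
    (∑ j ∈ Ico N0 N, ee (h * (b : ℝ) ^ j * x))
  rw [← sum_sub_distrib] at h1
  have h2 : ‖∑ j ∈ Ico N0 N, (ee (h * (b : ℝ) ^ j * (x + s)) - ee (h * (b : ℝ) ^ j * x))‖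
      ≤ 2 * π * h * s * (b : ℝ) ^ N := by
    refine (norm_sum_le _ _).trans ?_
    calc ∑ j ∈ Ico N0 N, ‖ee (h * (b : ℝ) ^ j * (x + s)) - ee (h * (b : ℝ) ^ j * x)‖
        ≤ ∑ j ∈ Ico N0 N, 2 * π * h * s * (b : ℝ) ^ j := by
          refine sum_le_sum fun j _ => (norm_ee_sub_le _ _).trans ?_
          rw [show h * (b : ℝ) ^ j * (x + s) - h * (b : ℝ) ^ j * x = h * s * (b : ℝ) ^ j by ring,
            abs_of_nonneg (by positivity)]
          exact le_of_eq (by ring)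
      _ = 2 * π * h * s * ∑ j ∈ Ico N0 N, (b : ℝ) ^ j := by rw [mul_sum]
      _ ≤ 2 * π * h * s * (b : ℝ) ^ N := by
          gcongr
          have := Nat.geomSum_lt (s := Ico N0 N) (n := N) hb (fun j hj => (mem_Ico.1 hj).2)
          exact_mod_cast this.le
  linarith

theorem weyl_step (k τ : ℕ) : ∃ D0 : ℕ, ∀ D : ℕ, D0 ≤ D → ∀ G0 : ℕ, ∃ g : ℕ, G0 ≤ g ∧
    ∀ y : ℝ, ∃ B : Finset ℕ, (B.card : ℝ) ≤ g * (1 / D) / 4 ∧
      ∀ t < ⌊(g : ℝ) * (1 / D) / 2⌋₊, t ∉ B → ∀ s : ℝ, 0 ≤ s → s ≤ 2 / (g : ℝ) ^ τ →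
        ∀ b, 2 ≤ b → b ≤ k → ∀ h, 1 ≤ h → h ≤ k → ∀ N ≤ Nat.log b (g ^ τ),
          ‖∑ j ∈ Ico (Nat.log b D) N, ee ((h : ℕ) * (b : ℝ) ^ j * ((y + t) / g + s))‖
            ≤ N / (k + 1) := by
  classical
  set s0 : ℕ := 108 * k ^ 3 * (k + 1) ^ 2 + 39 * (k + 1) ^ 2 with hs0
  refine ⟨k ^ ((s0 + 1) ^ 2) + 1, fun D hD G0 => ?_⟩
  obtain ⟨g, L, hg1, hg2, hg3⟩ := exists_good_den k τ D (G0 + 1)
  refine ⟨g, by omega, fun y => ?_⟩
  have hD0 : (0 : ℝ) < D := by exact_mod_cast (by omega : 0 < D)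
  have hg0 : (0 : ℝ) < g := by exact_mod_cast (by omega : 0 < g)
  have hs0pos : 0 < s0 := by positivity
  set M : ℕ := ⌊(g : ℝ) * (1 / D) / 2⌋₊ with hM
  have hMle : (M : ℝ) ≤ g * (1 / D) / 2 := Nat.floor_le (by positivity)
  let S : ℕ → ℕ → ℕ → Finset ℕ := fun b h s => (range M).filter (fun t : ℕ =>
    ((s ^ 2 : ℕ) : ℝ) / (3 * (k + 1)) <
      ‖∑ j ∈ Ico (Nat.log b D) (s ^ 2), ee ((h : ℕ) * (b : ℝ) ^ j * ((y + t) / g))‖)
  let I : Finset ℕ := (Ioc s0 (s0 + L)).filter (fun s => s ^ 2 ≤ L)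
  refine ⟨(Icc 2 k).biUnion fun b => (Icc 1 k).biUnion fun h => I.biUnion (S b h), ?_, ?_⟩
  · have h1 : ((Icc 2 k).biUnion fun b => (Icc 1 k).biUnion fun h => I.biUnion (S b h)).card
        ≤ ∑ b ∈ Icc 2 k, ∑ h ∈ Icc 1 k, ∑ s ∈ I, (S b h s).card :=
      card_biUnion_le.trans (sum_le_sum fun b _ =>
        card_biUnion_le.trans (sum_le_sum fun h _ => card_biUnion_le))
    have h2 : (((Icc 2 k).biUnion fun b => (Icc 1 k).biUnion fun h => I.biUnion (S b h)).card : ℝ)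
        ≤ ∑ b ∈ Icc 2 k, ∑ h ∈ Icc 1 k, ∑ s ∈ I, ((S b h s).card : ℝ) := by exact_mod_cast h1
    refine h2.trans ?_
    have h3 : ∀ b ∈ Icc 2 k, ∀ h ∈ Icc 1 k, ∀ s ∈ I, ((S b h s).card : ℝ)
        ≤ 27 * k * (k + 1) ^ 2 * (g * (1 / D)) * ((s : ℝ) ^ 2)⁻¹ := by
      intro b hb h hh s hs
      obtain ⟨hb1, hb2⟩ := mem_Icc.1 hb
      obtain ⟨hh1, hh2⟩ := mem_Icc.1 hh
      obtain ⟨hs1, hs2⟩ := mem_filter.1 hs
      have hs3 : 0 < s := by have := (mem_Ioc.1 hs1).1; omega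
      have hs4 : 0 < s ^ 2 := by positivity
      have hL : 0 < L := by omega
      have hs5 : (0 : ℝ) < (s : ℝ) ^ 2 := by positivity
      have a1 := cheb_count M (fun t : ℕ => ‖∑ j ∈ Ico (Nat.log b D) (s ^ 2),
        ee ((h : ℕ) * (b : ℝ) ^ j * ((y + t) / g))‖) (((s ^ 2 : ℕ) : ℝ) / (3 * (k + 1)))
        (by positivity)
      have a2 := second_moment M g (L * D) b h (Nat.log b D) (s ^ 2) (by omega)
        (Nat.mul_pos hL (by omega)) hb1 hh1 y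
        (fun j hj j' hj' r hr => hg3 h hh2 b hb2 j (by omega) j' (by omega) r hr)
      have a3 : 2 * (g : ℝ) / (b : ℝ) ^ Nat.log b D ≤ 2 * k * (g * (1 / D)) := by
        have c1 : D < b ^ (Nat.log b D + 1) := Nat.lt_pow_succ_log_self (by omega) D
        have c2 : (D : ℝ) ≤ (b : ℝ) ^ Nat.log b D * k := by
          have : D ≤ b ^ Nat.log b D * k := by
            rw [pow_succ] at c1
            exact c1.le.trans (Nat.mul_le_mul_left _ hb2)
          exact_mod_cast this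
        have c3 : (0 : ℝ) < (b : ℝ) ^ Nat.log b D := by positivity
        rw [div_le_iff₀ c3, show 2 * k * (g * (1 / (D : ℝ))) * (b : ℝ) ^ Nat.log b D
          = 2 * g * ((b : ℝ) ^ Nat.log b D * k / D) by ring]
        refine le_mul_of_one_le_right (by positivity) ?_
        rwa [le_div_iff₀ hD0, one_mul]
      have a4 : ((s ^ 2 : ℕ) : ℝ) * (g / (2 * ((L * D : ℕ) : ℝ))) ≤ g * (1 / D) / 2 := by
        have c1 : ((s ^ 2 : ℕ) : ℝ) ≤ L := by exact_mod_cast hs2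
        have c2 : (0 : ℝ) < L := by exact_mod_cast hL
        calc ((s ^ 2 : ℕ) : ℝ) * (g / (2 * ((L * D : ℕ) : ℝ)))
            ≤ L * (g / (2 * ((L * D : ℕ) : ℝ))) := by gcongr
          _ = g * (1 / D) / 2 := by push_cast; field_simp
      have hk : (1 : ℝ) ≤ k := by exact_mod_cast (by omega : 1 ≤ k)
      have p0 : (0 : ℝ) ≤ g * (1 / D) := by positivity
      have a5 : (M : ℝ) + 2 * g / (b : ℝ) ^ Nat.log b D
          + ((s ^ 2 : ℕ) : ℝ) * (g / (2 * ((L * D : ℕ) : ℝ))) ≤ 3 * k * (g * (1 / D)) := by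
        nlinarith
      have a6 : ((S b h s).card : ℝ) * (((s ^ 2 : ℕ) : ℝ) / (3 * (k + 1))) ^ 2
          ≤ ((s ^ 2 : ℕ) : ℝ) * (3 * k * (g * (1 / D))) :=
        a1.trans (a2.trans (by gcongr))
      push_cast at a6
      rw [← div_eq_mul_inv, le_div_iff₀ hs5]
      rw [div_pow, ← mul_div_assoc, div_le_iff₀ (by positivity)] at a6
      refine le_of_mul_le_mul_right ?_ hs5
      nlinarith
    calc ∑ b ∈ Icc 2 k, ∑ h ∈ Icc 1 k, ∑ s ∈ I, ((S b h s).card : ℝ)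
        ≤ ∑ _b ∈ Icc 2 k, ∑ _h ∈ Icc 1 k, 27 * k * (k + 1) ^ 2 * (g * (1 / D)) * (s0 : ℝ)⁻¹ := by
          refine sum_le_sum fun b hb => sum_le_sum fun h hh => ?_
          refine (sum_le_sum (h3 b hb h hh)).trans ?_
          rw [← mul_sum]
          gcongr
          calc ∑ s ∈ I, ((s : ℝ) ^ 2)⁻¹ ≤ ∑ s ∈ Ioc s0 (s0 + L), ((s : ℝ) ^ 2)⁻¹ :=
                sum_le_sum_of_subset_of_nonneg (filter_subset _ _) fun _ _ _ => by positivity
            _ ≤ (s0 : ℝ)⁻¹ - ((s0 + L : ℕ) : ℝ)⁻¹ :=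
                sum_Ioc_inv_sq_le_sub hs0pos.ne' (Nat.le_add_right _ _)
            _ ≤ (s0 : ℝ)⁻¹ := sub_le_self _ (by positivity)
      _ = ((Icc 2 k).card : ℝ) * ((Icc 1 k).card *
            (27 * k * (k + 1) ^ 2 * (g * (1 / D)) * (s0 : ℝ)⁻¹)) := by
          rw [sum_const, sum_const, nsmul_eq_mul, nsmul_eq_mul]
      _ ≤ k * (k * (27 * k * (k + 1) ^ 2 * (g * (1 / D)) * (s0 : ℝ)⁻¹)) := by
          gcongr
          · rw [Nat.card_Icc]; omega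
          · rw [Nat.card_Icc]; omega
      _ = g * (1 / D) / 4 * (((108 * k ^ 3 * (k + 1) ^ 2 : ℕ) : ℝ) / s0) := by
          push_cast; ring
      _ ≤ g * (1 / D) / 4 * 1 := by
          gcongr
          rw [div_le_one (by exact_mod_cast hs0pos)]
          exact_mod_cast (by omega)
      _ = _ := mul_one _
  · intro t ht htB s' hs1 hs2 b hb1 hb2 h hh1 hh2 N hN
    rcases le_or_gt N (Nat.log b D) with hle | hlt
    · rw [Ico_eq_empty (by omega), sum_empty, norm_zero]; positivity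
    have hNL : N ≤ L := by
      refine hN.trans ((Nat.log_anti_left (by norm_num : 1 < 2) hb1).trans ?_)
      exact (Nat.log_mono_right hg2).trans (Nat.log_pow (by norm_num) L).le
    have hN0 : (s0 + 1) ^ 2 ≤ Nat.log b D := by
      refine Nat.le_log_of_pow_le (by omega) ?_
      have := Nat.pow_le_pow_left hb2 ((s0 + 1) ^ 2)
      omega
    set s := Nat.sqrt N with hs
    have c1 : s0 + 1 ≤ s := Nat.le_sqrt'.2 (by omega)
    have c2 : s ^ 2 ≤ N := Nat.sqrt_le' N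
    have c3 : N < (s + 1) ^ 2 := Nat.lt_succ_sqrt' N
    have c4 : s ≤ s ^ 2 := Nat.le_self_pow (by norm_num) s
    have hsI : s ∈ I := mem_filter.2 ⟨mem_Ioc.2 ⟨by omega, by omega⟩, by omega⟩
    have c5 : ‖∑ j ∈ Ico (Nat.log b D) (s ^ 2), ee ((h : ℕ) * (b : ℝ) ^ j * ((y + t) / g))‖
        ≤ ((s ^ 2 : ℕ) : ℝ) / (3 * (k + 1)) := by
      by_contra hc
      exact htB (mem_biUnion.2 ⟨b, mem_Icc.2 ⟨hb1, hb2⟩, mem_biUnion.2 ⟨h, mem_Icc.2 ⟨hh1, hh2⟩,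
        mem_biUnion.2 ⟨s, hsI, mem_filter.2 ⟨mem_range.2 ht, not_le.1 hc⟩⟩⟩⟩)
    have c6 := norm_sum_Ico_le (fun j => (h : ℕ) * (b : ℝ) ^ j * ((y + t) / g)) (Nat.log b D)
      (s ^ 2) N c2
    have c7 := norm_sum_perturb b h (Nat.log b D) N hb1 ((y + t) / g) s' hs1
    have hk1 : (0 : ℝ) < k + 1 := by positivity
    have d1 : ((s ^ 2 : ℕ) : ℝ) / (3 * (k + 1)) ≤ N / (k + 1) / 3 := by
      rw [div_div, mul_comm]
      gcongr
    have hs0' : 39 * (k + 1) ^ 2 ≤ s := by omega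
    have d2 : ((N - s ^ 2 : ℕ) : ℝ) ≤ N / (k + 1) / 3 := by
      rw [div_div, le_div_iff₀ (by positivity)]
      have e1 : N - s ^ 2 ≤ 2 * s := by
        have : (s + 1) ^ 2 = s ^ 2 + 2 * s + 1 := by ring
        omega
      have e2 : (N - s ^ 2) * ((k + 1) * 3) ≤ N := by
        calc (N - s ^ 2) * ((k + 1) * 3) ≤ 2 * s * ((k + 1) * 3) := by gcongr
          _ = s * (6 * (k + 1)) := by ring
          _ ≤ s * s := by gcongr; nlinarith
          _ ≤ N := by rw [← sq]; exact c2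
      exact_mod_cast e2
    have d3 : 2 * π * h * s' * (b : ℝ) ^ N ≤ N / (k + 1) / 3 := by
      have e1 : (b : ℝ) ^ N ≤ (g : ℝ) ^ τ := by
        have : b ^ N ≤ g ^ τ := (Nat.pow_le_pow_right (by omega) hN).trans
          (Nat.pow_log_le_self b (pow_ne_zero _ (by omega)))
        exact_mod_cast this
      have e2 : s' * (b : ℝ) ^ N ≤ 2 := by
        calc s' * (b : ℝ) ^ N ≤ 2 / (g : ℝ) ^ τ * (g : ℝ) ^ τ := by gcongr
          _ = 2 := div_mul_cancel₀ _ (by positivity)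
      have e3 : (h : ℝ) ≤ k + 1 := by exact_mod_cast (by omega : h ≤ k + 1)
      have e4 : π ≤ 3.25 := by linarith [Real.pi_lt_d2]
      have e5 : 39 * ((k : ℝ) + 1) ^ 2 ≤ N := by exact_mod_cast (by omega : 39 * (k + 1) ^ 2 ≤ N)
      rw [div_div, le_div_iff₀ (by positivity)]
      calc 2 * π * h * s' * (b : ℝ) ^ N * ((k + 1) * 3)
          = 2 * π * h * (s' * (b : ℝ) ^ N) * ((k + 1) * 3) := by ring
        _ ≤ 2 * 3.25 * (k + 1) * 2 * ((k + 1) * 3) := by gcongr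
        _ = 39 * ((k : ℝ) + 1) ^ 2 := by ring
        _ ≤ N := e5
    linarith

end Pool.Agent.Lib.MP_0496af_nt
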