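import Mathlib
import Pool.Agent.Lib.MP_0496af_nt.TNumber
import Pool.Agent.Lib.MP_0496af_nt.WeylStep
import Pool.Agent.Lib.MP_0496af_nt.WeylCrit

/-!
The two constructions: a T-number normal in every base, and a T-number simply normal in no base.
-/

set_option autoImplicit false

namespace Pool.Agent.Lib.MP_0496af_nt

open Finset Polynomial Filter Topology
open scoped Nat

/-- The strong form of the T-number property produced by the construction. -/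
def StrongT (ξ : ℝ) : Prop :=
  Transcendental ℤ ξ ∧ (∀ n : ℕ, 1 ≤ n → ∃ W : ℝ, (approxSet ξ n W).Finite) ∧
    (∀ d : ℕ, 2 ≤ d → (approxSet ξ d ((d ^ 2 : ℕ) : ℝ)).Infinite)

theorem weyl_assemble (f : ℕ → ℝ) (l : ℕ → ℕ) (K0 : ℕ) (h1 : ∀ k, (k + 1) * l k ≤ l (k + 1))
    (h2 : ∀ N, ∃ k, N ≤ l k)
    (h3 : ∀ k, K0 ≤ k → ∀ N ≤ l (k + 1), ‖∑ j ∈ Ico (l k) N, ee (f j)‖ ≤ N / (k + 1)) :
    Tendsto (fun N : ℕ => (∑ j ∈ range N, ee (f j)) / N) atTop (𝓝 0) := by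
  classical
  have hmono : Monotone l := monotone_nat_of_le_succ fun k =>
    le_trans (Nat.le_mul_of_pos_left _ (by omega)) (h1 k)
  rw [Metric.tendsto_atTop]
  intro ε hε
  obtain ⟨K, hK⟩ := exists_nat_gt (max (3 / ε) K0)
  have hK1 : 3 / ε < K := lt_of_le_of_lt (le_max_left _ _) hK
  have hK2 : K0 ≤ K := by exact_mod_cast (lt_of_le_of_lt (le_max_right _ _) hK).le
  refine ⟨l (K + 1) + 1, fun N hN => ?_⟩
  have a1 := Nat.find_spec (h2 N)
  obtain ⟨m, hm⟩ : ∃ m, Nat.find (h2 N) = K + m + 2 := by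
    refine ⟨Nat.find (h2 N) - K - 2, ?_⟩
    by_contra hc
    have := hmono (show Nat.find (h2 N) ≤ K + 1 by omega)
    omega
  have a2 := Nat.find_min (h2 N) (m := K + m + 1) (by omega)
  rw [hm] at a1
  have a3 : l (K + m + 1) ≤ N := by omega
  have a4 : l (K + m) ≤ l (K + m + 1) := hmono (by omega)
  have hN0 : (0 : ℝ) < N := by exact_mod_cast (by omega : 0 < N)
  rw [dist_zero_right, norm_div, Complex.norm_natCast, div_lt_iff₀ hN0, range_eq_Ico,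
    ← sum_Ico_consecutive _ (Nat.zero_le _) a3, ← sum_Ico_consecutive _ (Nat.zero_le _) a4]
  have b1 := norm_sum_ee_le (Ico 0 (l (K + m))) f
  rw [Nat.card_Ico, Nat.sub_zero] at b1
  have b2 := h3 (K + m) (by omega) _ le_rfl
  have b3 := h3 (K + m + 1) (by omega) N a1
  have p0 : (0 : ℝ) < K + 1 := by positivity
  have a3' : (l (K + m + 1) : ℝ) ≤ N := by exact_mod_cast a3
  have c1 : (l (K + m) : ℝ) ≤ N / (K + 1) := by
    rw [le_div_iff₀ p0]
    have : l (K + m) * (K + 1) ≤ N := by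
      calc l (K + m) * (K + 1) ≤ l (K + m) * (K + m + 1) := by gcongr; omega
        _ ≤ l (K + m + 1) := by rw [mul_comm]; exact h1 _
        _ ≤ N := a3
    exact_mod_cast this
  have c2 : (l (K + m + 1) : ℝ) / ((K + m : ℕ) + 1) ≤ N / (K + 1) := by
    gcongr; omega
  have c3 : (N : ℝ) / ((K + m + 1 : ℕ) + 1) ≤ N / (K + 1) := by
    gcongr; omega
  have c4 : 3 * ((N : ℝ) / (K + 1)) < ε * N := by
    rw [div_lt_iff₀ hε] at hK1
    rw [← mul_div_assoc, div_lt_iff₀ p0]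
    nlinarith
  refine lt_of_le_of_lt (norm_add₃_le) ?_
  linarith

theorem exists_normal_T : ∃ ξ : ℝ, StrongT ξ ∧ ∀ b : ℕ, 2 ≤ b → ∀ h : ℕ, 1 ≤ h →
    Tendsto (fun N : ℕ => (∑ j ∈ range N, ee (h * (b : ℝ) ^ j * ξ)) / N) atTop (𝓝 0) := by
  choose γ ε hε hT using t_step
  choose D0 hW using fun k => weyl_step k (tau (stageDeg k))
  let Dmin : ℕ → ℕ := fun k => ⌈1 / ε k⌉₊ + D0 k + k + 1
  obtain ⟨ξ, u, D, hD⟩ := nested (fun k u D => 0 ≤ u ∧ u + 1 / (D : ℝ) ≤ 1 ∧ Dmin k ≤ D)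
    (fun k D D' x => Dio k (1 / (D : ℝ)) (1 / (D' : ℝ)) x ∧ App k x ∧ D ^ (k + 1) ≤ D' ∧
      ∀ b, 2 ≤ b → b ≤ k → ∀ h, 1 ≤ h → h ≤ k → ∀ N ≤ Nat.log b D',
        ‖∑ j ∈ Ico (Nat.log b D) N, ee ((h : ℕ) * (b : ℝ) ^ j * x)‖ ≤ N / (k + 1))
    ⟨0, Dmin 0, le_rfl, by
      rw [zero_add, div_le_one (by simp only [Dmin]; positivity)]
      exact_mod_cast (by simp only [Dmin]; omega : 1 ≤ Dmin 0), le_rfl⟩ (by
      rintro k u D ⟨h1, h2, h3⟩
      simp only [Dmin] at h3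
      have hD1 : (1 : ℝ) ≤ D := by exact_mod_cast (by omega : 1 ≤ D)
      have hD0 : (0 : ℝ) < 1 / D := by positivity
      have hDε : 1 / (D : ℝ) ≤ ε k := by
        rw [one_div_le (by linarith) (hε k)]
        exact (Nat.le_ceil _).trans (by exact_mod_cast (by omega))
      obtain ⟨G0, hG⟩ := hT k (1 / D) (1 / D) u hD0 hDε
        (pow_le_of_le_one hD0.le (by rw [div_le_one (by linarith)]; exact hD1) (by norm_num)) h1 h2
      obtain ⟨g, hg, hB⟩ := hW k D (by omega) (G0 + Dmin (k + 1) + D ^ (k + 1))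
      obtain ⟨B, hB1, hB2⟩ := hB (⌈g * u⌉ + γ k)
      obtain ⟨t, ht1, ht2, ht3, ht4, ht5⟩ := hG g (by omega) B hB1
      have hgτ : g ≤ g ^ tau (stageDeg k) := Nat.le_self_pow (by unfold tau; omega) _
      have e2 : 2 / (g : ℝ) ^ tau (stageDeg k)
          = 1 / (g : ℝ) ^ tau (stageDeg k) + 1 / (g : ℝ) ^ tau (stageDeg k) := by ring
      refine ⟨(⌈g * u⌉ + γ k + t) / g + 1 / (g : ℝ) ^ tau (stageDeg k), g ^ tau (stageDeg k),
        ⟨by linarith, by push_cast; linarith, by omega⟩, ht3, by push_cast; linarith,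
        fun x hx1 hx2 => ?_⟩
      push_cast at hx2 ⊢
      obtain ⟨s, rfl⟩ : ∃ s, x = (⌈g * u⌉ + γ k + t) / g + s :=
        ⟨x - (⌈g * u⌉ + γ k + t) / g, by ring⟩
      have hs1 : 1 / (g : ℝ) ^ tau (stageDeg k) ≤ s := by linarith
      have hs2 : s ≤ 2 / (g : ℝ) ^ tau (stageDeg k) := by linarith
      exact ⟨(ht5 s hs1 hs2).1, (ht5 s hs1 hs2).2, by omega,
        hB2 t ht1 ht2 s (le_trans (by positivity) hs1) hs2⟩)
  have hk : ∀ k, k + 1 ≤ D k := fun k => by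
    have := (hD k).1.2.2
    simp only [Dmin] at this
    omega
  refine ⟨ξ, tnumber_of_stages ξ (fun k => 1 / (D k : ℝ)) (fun k => by
    have : (0 : ℝ) < D k := by exact_mod_cast (by have := hk k; omega : 0 < D k)
    positivity) (tendsto_one_div_of_le D hk) (fun k => (hD k).2.1) (fun k => (hD k).2.2.1), ?_⟩
  intro b hb h hh
  refine weyl_assemble (fun j => h * (b : ℝ) ^ j * ξ) (fun k => Nat.log b (D k)) (b + h) ?_ ?_ ?_
  · intro k
    refine Nat.le_log_of_pow_le (by omega) (le_trans ?_ (hD k).2.2.2.1)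
    rw [mul_comm, pow_mul]
    exact Nat.pow_le_pow_left (Nat.pow_log_le_self b (by have := hk k; omega)) _
  · intro N
    exact ⟨b ^ N, Nat.le_log_of_pow_le (by omega) (by have := hk (b ^ N); omega)⟩
  · intro k hk' N hN
    exact (hD k).2.2.2.2 b hb (by omega) h hh (by omega) N hN

theorem zero_run (b N : ℕ) (hb : 2 ≤ b) (p : ℤ) (x : ℝ) (h1 : p / (b : ℝ) ^ N ≤ x)
    (h2 : x ≤ p / (b : ℝ) ^ N + 1 / (2 * ((b : ℝ) ^ N) ^ 2)) (j : ℕ) (hj1 : N ≤ j) (hj2 : j < 2 * N) :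
    ⌊x * (b : ℝ) ^ (j + 1)⌋ % (b : ℤ) = 0 := by
  obtain ⟨i, rfl⟩ := Nat.exists_eq_add_of_le hj1
  have hb1 : (1 : ℝ) ≤ b := by exact_mod_cast (by omega : 1 ≤ b)
  have hN : (0 : ℝ) < (b : ℝ) ^ N := by positivity
  have hi : (b : ℝ) ^ (i + 1) ≤ (b : ℝ) ^ N := pow_le_pow_right₀ hb1 (by omega)
  have hi0 : (0 : ℝ) < (b : ℝ) ^ (i + 1) := by positivity
  have : ⌊x * (b : ℝ) ^ (N + i + 1)⌋ = p * (b : ℤ) ^ (i + 1) := by
    rw [Int.floor_eq_iff, add_assoc N, pow_add (b : ℝ) N, ← mul_assoc]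
    push_cast
    rw [div_le_iff₀ hN] at h1
    have h3 : x * (b : ℝ) ^ N ≤ p + 1 / (2 * (b : ℝ) ^ N) := by
      calc x * (b : ℝ) ^ N ≤ (p / (b : ℝ) ^ N + 1 / (2 * ((b : ℝ) ^ N) ^ 2)) * (b : ℝ) ^ N := by
            gcongr
        _ = p + 1 / (2 * (b : ℝ) ^ N) := by field_simp
    have h4 : 1 / (2 * (b : ℝ) ^ N) * (b : ℝ) ^ (i + 1) ≤ 1 / 2 := by
      calc 1 / (2 * (b : ℝ) ^ N) * (b : ℝ) ^ (i + 1) ≤ 1 / (2 * (b : ℝ) ^ N) * (b : ℝ) ^ N := by
            gcongr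
        _ = 1 / 2 := by field_simp
    constructor
    · gcongr
    · have : x * (b : ℝ) ^ N * (b : ℝ) ^ (i + 1)
          ≤ (p + 1 / (2 * (b : ℝ) ^ N)) * (b : ℝ) ^ (i + 1) := by gcongr
      nlinarith
  rw [this, pow_succ, ← mul_assoc, Int.mul_emod_left]

theorem exists_abnormal_T : ∃ ξ : ℝ, StrongT ξ ∧ ∀ b : ℕ, 2 ≤ b → ∀ m : ℕ, ∃ N, m ≤ N ∧
    ∀ j, N ≤ j → j < 2 * N → ⌊ξ * (b : ℝ) ^ (j + 1)⌋ % (b : ℤ) = 0 := by
  classical
  choose γ ε hε hT using t_step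
  let Dmin : ℕ → ℕ := fun k => ⌈1 / ε k⌉₊ + 8 * stageDeg k ^ 2 + stageDeg k ^ k + k + 1
  obtain ⟨ξ, u, D, hD⟩ := nested (fun k u D => 0 ≤ u ∧ u + 1 / (D : ℝ) ≤ 1 ∧ Dmin k ≤ D)
    (fun k D D' x => Dio k (1 / (D : ℝ)) (1 / (D' : ℝ)) x ∧ App k x ∧ ∃ N, k ≤ N ∧
      ∀ j, N ≤ j → j < 2 * N → ⌊x * (stageDeg k : ℝ) ^ (j + 1)⌋ % (stageDeg k : ℤ) = 0)
    ⟨0, Dmin 0, le_rfl, by
      rw [zero_add, div_le_one (by simp only [Dmin]; positivity)]
      exact_mod_cast (by simp only [Dmin]; omega : 1 ≤ Dmin 0), le_rfl⟩ (by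
      rintro k u D ⟨h1, h2, h3⟩
      simp only [Dmin] at h3
      have hb : 2 ≤ stageDeg k := by unfold stageDeg; omega
      generalize hbk : stageDeg k = b at h3 hb
      have hD1 : (1 : ℝ) ≤ D := by exact_mod_cast (by omega : 1 ≤ D)
      have hD0 : (0 : ℝ) < 1 / D := by positivity
      have hDε : 1 / (D : ℝ) ≤ ε k := by
        rw [one_div_le (by linarith) (hε k)]
        exact (Nat.le_ceil _).trans (by exact_mod_cast (by omega))
      set N := Nat.log b (2 * D) + 1 with hN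
      have n1 : 2 * D < b ^ N := Nat.lt_pow_succ_log_self (by omega) _
      have n2 : b ^ N ≤ 2 * D * b := by
        rw [hN, pow_succ]
        exact Nat.mul_le_mul_right _ (Nat.pow_log_le_self b (by omega))
      have n3 : k ≤ N := by
        have : b ^ k < b ^ N := by omega
        exact ((Nat.pow_lt_pow_iff_right (by omega)).1 this).le
      have n1' : 2 * (D : ℝ) < (b : ℝ) ^ N := by exact_mod_cast n1
      have n2' : (b : ℝ) ^ N ≤ 2 * D * b := by exact_mod_cast n2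
      have n4 : 8 * (b : ℝ) ^ 2 ≤ D := by exact_mod_cast (by omega : 8 * b ^ 2 ≤ D)
      set Q : ℝ := (b : ℝ) ^ N with hQ
      have hQ0 : 0 < Q := by linarith
      have c1 : u ≤ ⌈u * Q⌉ / Q := by rw [le_div_iff₀ hQ0]; exact Int.le_ceil _
      have c2 : ⌈u * Q⌉ / Q + 1 / (2 * Q ^ 2) ≤ u + 1 / D := by
        have a1 : ⌈u * Q⌉ / Q ≤ u + 1 / Q := by
          rw [div_le_iff₀ hQ0, add_mul, one_div_mul_cancel hQ0.ne']
          exact (Int.ceil_lt_add_one _).le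
        have a2 : 1 / (2 * Q ^ 2) ≤ 1 / Q := by
          gcongr; nlinarith
        have a3 : 1 / Q ≤ 1 / (2 * D) := by gcongr
        have a4 : 1 / (2 * (D : ℝ)) = 1 / D / 2 := by field_simp
        linarith
      have c3 : (1 / (D : ℝ)) ^ 3 ≤ 1 / (2 * Q ^ 2) := by
        rw [one_div_pow]
        refine one_div_le_one_div_of_le (by positivity) ?_
        calc 2 * Q ^ 2 ≤ 2 * (2 * D * b) ^ 2 := by gcongr
          _ = 8 * (b : ℝ) ^ 2 * D ^ 2 := by ring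
          _ ≤ D * D ^ 2 := by gcongr
          _ = D ^ 3 := by ring
      obtain ⟨G0, hG⟩ := hT k (1 / D) (1 / (2 * Q ^ 2)) (⌈u * Q⌉ / Q) hD0 hDε c3 (by linarith)
        (by linarith)
      obtain ⟨t, -, -, ht3, ht4, ht5⟩ := hG (G0 + Dmin (k + 1)) (by omega) ∅
        (by rw [card_empty, Nat.cast_zero]; positivity)
      set g := G0 + Dmin (k + 1) with hg
      have hgτ : g ≤ g ^ tau (stageDeg k) := Nat.le_self_pow (by unfold tau; omega) _
      have e2 : 2 / (g : ℝ) ^ tau (stageDeg k)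
          = 1 / (g : ℝ) ^ tau (stageDeg k) + 1 / (g : ℝ) ^ tau (stageDeg k) := by ring
      refine ⟨(⌈g * (⌈u * Q⌉ / Q)⌉ + γ k + t) / g + 1 / (g : ℝ) ^ tau (stageDeg k),
        g ^ tau (stageDeg k), ⟨by linarith, by push_cast; linarith, by omega⟩, by linarith,
        by push_cast; linarith, fun x hx1 hx2 => ?_⟩
      push_cast at hx2 ⊢
      have hz := zero_run b N hb ⌈u * Q⌉ x (by linarith) (by linarith)
      obtain ⟨s, rfl⟩ : ∃ s, x = (⌈g * (⌈u * Q⌉ / Q)⌉ + γ k + t) / g + s :=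
        ⟨x - (⌈g * (⌈u * Q⌉ / Q)⌉ + γ k + t) / g, by ring⟩
      have hs1 : 1 / (g : ℝ) ^ tau (stageDeg k) ≤ s := by linarith
      have hs2 : s ≤ 2 / (g : ℝ) ^ tau (stageDeg k) := by linarith
      exact ⟨(ht5 s hs1 hs2).1, (ht5 s hs1 hs2).2, N, n3, hz⟩)
  have hk : ∀ k, k + 1 ≤ D k := fun k => by
    have := (hD k).1.2.2
    simp only [Dmin] at this
    omega
  refine ⟨ξ, tnumber_of_stages ξ (fun k => 1 / (D k : ℝ)) (fun k => by
    have : (0 : ℝ) < D k := by exact_mod_cast (by have := hk k; omega : 0 < D k)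
    positivity) (tendsto_one_div_of_le D hk) (fun k => (hD k).2.1) (fun k => (hD k).2.2.1), ?_⟩
  intro b hb m
  obtain ⟨k, hk1, rfl⟩ := exists_stage b m hb
  obtain ⟨N, h1, h2⟩ := (hD k).2.2.2
  exact ⟨N, by omega, h2⟩

theorem not_tendsto_of_runs (p : ℕ → Prop) [DecidablePred p] (c : ℝ) (hc : c ≤ 1 / 2)
    (h : ∀ m : ℕ, ∃ N, m ≤ N ∧ ∀ j, N ≤ j → j < 2 * N → p j) :
    ¬ Tendsto (fun N : ℕ => (((range N).filter p).card : ℝ) / N) atTop (𝓝 c) := by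
  intro ht
  obtain ⟨m, hm⟩ := eventually_atTop.1
    ((ht.eventually (lt_mem_nhds (show c - 1 / 6 < c by linarith))).and
      (ht.eventually (gt_mem_nhds (show c < c + 1 / 6 by linarith))))
  obtain ⟨N, hN1, hN2⟩ := h (m + 1)
  have a1 := (hm N (by omega)).1
  have a2 := (hm (2 * N) (by omega)).2
  have hN0 : (0 : ℝ) < N := by exact_mod_cast (by omega : 0 < N)
  have e : ((range (2 * N)).filter p).card = ((range N).filter p).card + N := by
    rw [range_eq_Ico, ← Ico_union_Ico_eq_Ico (Nat.zero_le N) (by omega : N ≤ 2 * N), filter_union,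
      card_union_of_disjoint (disjoint_filter_filter (Ico_disjoint_Ico_consecutive _ _ _)),
      filter_true_of_mem (s := Ico N (2 * N))
        (fun j hj => hN2 j (mem_Ico.1 hj).1 (mem_Ico.1 hj).2), Nat.card_Ico, range_eq_Ico]
    omega
  rw [e, div_lt_iff₀ (Nat.cast_pos.2 (by omega))] at a2
  rw [lt_div_iff₀ hN0] at a1
  push_cast at a2
  nlinarith

end Pool.Agent.Lib.MP_0496af_nt
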