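import Mathlib
import Pool.Agent.Lib.MP_0496af_nt.Defs
import Pool.Agent.Lib.MP_0496af_nt.Main

set_option autoImplicit false

namespace Pool.Agent.Lib.MP_0496af_nt

open Polynomial Filter Topology

theorem digit_eq (b : ℕ) (ξ : ℝ) (j : ℕ) : digit b ξ j = ⌊ξ * (b : ℝ) ^ (j + 1)⌋ % (b : ℤ) := by
  unfold digit
  rw [show Int.fract ξ * (b : ℝ) ^ (j + 1)
      = ξ * (b : ℝ) ^ (j + 1) + ((-⌊ξ⌋ * (b : ℤ) ^ j * b : ℤ) : ℝ) by
    rw [Int.fract]; push_cast; ring, Int.floor_add_intCast, Int.add_mul_emod_self_right]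

theorem StrongT.isTNumber {ξ : ℝ} (h : StrongT ξ) : IsTNumber ξ := by
  obtain ⟨h1, h2, h3⟩ := h
  refine ⟨fun hq => h1 ((IsFractionRing.isAlgebraic_iff ℤ ℚ ℝ).2 hq), ?_, ?_⟩
  · apply Tendsto.limsup_eq
    rw [EReal.tendsto_nhds_top_iff_real]
    intro M
    obtain ⟨m, hm⟩ := exists_nat_gt M
    filter_upwards [eventually_ge_atTop (m + 2)] with d hd
    have a1 : (((d ^ 2 : ℕ) : ℝ) : EReal) ≤ wExp d ξ := le_sSup ⟨_, h3 d (by omega), rfl⟩
    have a2 : (((d ^ 2 : ℕ) : ℝ) : EReal) / (d : EReal) ≤ wExp d ξ / (d : EReal) :=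
      EReal.div_le_div_right_of_nonneg (by exact_mod_cast Nat.zero_le d) a1
    refine lt_of_lt_of_le ?_ a2
    rw [← EReal.coe_natCast, ← EReal.coe_div, EReal.coe_lt_coe_iff]
    have hd0 : (0 : ℝ) < d := by exact_mod_cast (by omega : 0 < d)
    have hmd : (m : ℝ) ≤ d := by exact_mod_cast (by omega : m ≤ d)
    rw [lt_div_iff₀ hd0]
    push_cast
    nlinarith
  · intro n hn
    obtain ⟨W, hW⟩ := h2 n hn
    refine lt_of_le_of_lt (sSup_le ?_) (EReal.coe_lt_top W)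
    rintro _ ⟨w, hw, rfl⟩
    simp only [EReal.coe_le_coe_iff]
    by_contra hc
    refine hw (hW.subset ?_)
    rintro P ⟨p1, p2, p3⟩
    refine ⟨p1, p2, p3.trans ?_⟩
    have hP0 : P ≠ 0 := by rintro rfl; simp at p2
    exact Real.rpow_le_rpow_of_exponent_le (by exact_mod_cast one_le_ht hP0)
      (by linarith [not_le.1 hc])

end Pool.Agent.Lib.MP_0496af_nt
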